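import Mathlib

/-!
# The achievement set of `2/15, 3/4, 2/4, 3/16, 2/16, …`
-/

set_option autoImplicit false

namespace Pool.Agent.H51.Cantorval

/-- The achievement set. -/
def sub (x : ℕ → ℝ) : Set ℝ := {s | ∃ A : Set ℕ, s = ∑' n, A.indicator x n}

theorem sub_compact {x : ℕ → ℝ} (hx : ∀ n, 0 ≤ x n) (hs : Summable x) : IsCompact (sub x) := by
  have h1 : sub x = Set.range fun ε : ℕ → Bool => ∑' n, if ε n then x n else 0 := by
    classical
    ext s
    constructor
    · rintro ⟨A, rfl⟩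
      refine ⟨fun n => decide (n ∈ A), ?_⟩
      refine tsum_congr fun n => ?_
      simp [Set.indicator_apply]
    · rintro ⟨ε, rfl⟩
      refine ⟨{n | ε n = true}, ?_⟩
      refine tsum_congr fun n => ?_
      simp [Set.indicator_apply]
  rw [h1]
  refine isCompact_range (continuous_tsum (u := x) (fun n => ?_) hs fun n ε => ?_)
  · have : (fun ε : ℕ → Bool => if ε n then x n else 0) =
        (fun b : Bool => if b then x n else 0) ∘ fun ε : ℕ → Bool => ε n := rfl
    rw [this]
    exact (continuous_of_discreteTopology).comp (continuous_apply n)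
  · split_ifs
    · rw [Real.norm_eq_abs, abs_of_nonneg (hx n)]
    · simpa using hx n

theorem sub_cons {x : ℕ → ℝ} (hs : Summable x) (s : ℝ) :
    s ∈ sub x ↔ s ∈ sub (fun n => x (n + 1)) ∨ s - x 0 ∈ sub (fun n => x (n + 1)) := by
  have key : ∀ A : Set ℕ, ∑' n, A.indicator x n =
      A.indicator x 0 + ∑' n, ({n | n + 1 ∈ A} : Set ℕ).indicator (fun n => x (n + 1)) n := by
    intro A
    rw [(hs.indicator A).tsum_eq_zero_add]
    congr 1
  constructor
  · rintro ⟨A, rfl⟩
    rw [key A]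
    by_cases h : (0 : ℕ) ∈ A
    · right
      refine ⟨{n | n + 1 ∈ A}, ?_⟩
      rw [Set.indicator_of_mem h]
      ring
    · left
      refine ⟨{n | n + 1 ∈ A}, ?_⟩
      rw [Set.indicator_of_notMem h, zero_add]
  · rintro (⟨A, hA⟩ | ⟨A, hA⟩)
    · refine ⟨{n | ∃ m ∈ A, n = m + 1}, ?_⟩
      rw [key, Set.indicator_of_notMem (by rintro ⟨m, _, hm⟩; omega), zero_add, hA]
      congr 1
      funext n
      congr 1
      ext m
      simp
    · refine ⟨{n | n = 0 ∨ ∃ m ∈ A, n = m + 1}, ?_⟩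
      have h0 : (0 : ℕ) ∈ {n | n = 0 ∨ ∃ m ∈ A, n = m + 1} := Or.inl rfl
      rw [key, Set.indicator_of_mem h0, ← sub_eq_iff_eq_add', hA]
      congr 1
      funext n
      congr 1
      ext m
      simp

theorem sub_scale {x : ℕ → ℝ} (c : ℝ) (hc : c ≠ 0) (s : ℝ) :
    s ∈ sub (fun n => c * x n) ↔ s / c ∈ sub x := by
  have key : ∀ A : Set ℕ, ∑' n, A.indicator (fun n => c * x n) n = c * ∑' n, A.indicator x n := by
    intro A
    rw [← tsum_mul_left]
    refine tsum_congr fun n => ?_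
    by_cases h : n ∈ A
    · rw [Set.indicator_of_mem h, Set.indicator_of_mem h]
    · rw [Set.indicator_of_notMem h, Set.indicator_of_notMem h, mul_zero]
  constructor
  · rintro ⟨A, rfl⟩
    refine ⟨A, ?_⟩
    rw [key, mul_div_cancel_left₀ _ hc]
  · rintro ⟨A, hA⟩
    refine ⟨A, ?_⟩
    rw [key, ← hA]
    field_simp

theorem sub_symm {x : ℕ → ℝ} (hs : Summable x) {s : ℝ} (h : s ∈ sub x) :
    (∑' n, x n) - s ∈ sub x := by
  obtain ⟨A, rfl⟩ := h
  refine ⟨Aᶜ, ?_⟩
  rw [sub_eq_iff_eq_add, ← (hs.indicator Aᶜ).tsum_add (hs.indicator A)]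
  refine tsum_congr fun n => ?_
  have := Set.indicator_compl_add_self_apply A x n
  exact this.symm

theorem sub_nonneg {x : ℕ → ℝ} (hx : ∀ n, 0 ≤ x n) {s : ℝ} (h : s ∈ sub x) : 0 ≤ s := by
  obtain ⟨A, rfl⟩ := h
  exact tsum_nonneg fun n => Set.indicator_nonneg (fun n _ => hx n) n

/-! ### The Guthrie–Nymann set -/

/-- The Guthrie–Nymann sequence. -/
noncomputable def y (n : ℕ) : ℝ := (if n % 2 = 0 then 3 else 2) / 4 ^ (n / 2 + 1)

theorem y_shift (n : ℕ) : y (n + 2) = 1 / 4 * y n := by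
  unfold y
  have h1 : (n + 2) % 2 = n % 2 := by omega
  have h2 : (n + 2) / 2 = n / 2 + 1 := by omega
  rw [h1, h2, pow_succ]
  split_ifs <;> field_simp

theorem y_pos (n : ℕ) : 0 < y n := by
  unfold y
  split_ifs <;> positivity

theorem y_le (n : ℕ) : y n ≤ 3 * (1 / 2) ^ n := by
  induction n using Nat.strong_induction_on with
  | _ n ih =>
    match n with
    | 0 => norm_num [y]
    | 1 => norm_num [y]
    | n + 2 =>
      rw [y_shift]
      have := ih n (by omega)
      rw [pow_add]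
      nlinarith [pow_pos (by norm_num : (0 : ℝ) < 1 / 2) n]

theorem y_summable : Summable y :=
  Summable.of_nonneg_of_le (fun n => (y_pos n).le) y_le
    ((summable_geometric_of_lt_one (by norm_num) (by norm_num)).mul_left 3)

/-- The Guthrie–Nymann set. -/
def E0 : Set ℝ := sub y

theorem fe (s : ℝ) : s ∈ E0 ↔ 4 * s ∈ E0 ∨ 4 * s - 2 ∈ E0 ∨ 4 * s - 3 ∈ E0 ∨ 4 * s - 5 ∈ E0 := by
  have hs1 : Summable fun n => y (n + 1) := (summable_nat_add_iff 1).2 y_summable
  have h2 : (fun n => y (n + 1 + 1)) = fun n => 1 / 4 * y n := funext fun n => y_shift n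
  have e1 := sub_cons y_summable s
  have e2 := sub_cons hs1 s
  have e3 := sub_cons hs1 (s - y 0)
  have y0 : y 0 = 3 / 4 := by norm_num [y]
  have y1 : y 1 = 1 / 2 := by norm_num [y]
  simp only [h2, zero_add, y0, y1] at e1 e2 e3
  rw [sub_scale _ (by norm_num), sub_scale _ (by norm_num)] at e2 e3
  unfold E0
  rw [e1, e2, e3]
  have a1 : s / (1 / 4) = 4 * s := by ring
  have a2 : (s - 1 / 2) / (1 / 4) = 4 * s - 2 := by ring
  have a3 : (s - 3 / 4) / (1 / 4) = 4 * s - 3 := by ring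
  have a4 : (s - 3 / 4 - 1 / 2) / (1 / 4) = 4 * s - 5 := by ring
  rw [a1, a2, a3, a4]
  tauto

theorem total : ∑' n, y n = 5 / 3 := by
  have h1 := y_summable.sum_add_tsum_nat_add 2
  have h2 : (fun n => y (n + 2)) = fun n => 1 / 4 * y n := funext fun n => y_shift n
  rw [h2, tsum_mul_left, Finset.sum_range_succ, Finset.sum_range_one] at h1
  have y0 : y 0 = 3 / 4 := by norm_num [y]
  have y1 : y 1 = 1 / 2 := by norm_num [y]
  rw [y0, y1] at h1
  linarith

theorem E0_symm {s : ℝ} (h : s ∈ E0) : 5 / 3 - s ∈ E0 := by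
  have := sub_symm y_summable h
  rwa [total] at this

theorem E0_nonneg {s : ℝ} (h : s ∈ E0) : 0 ≤ s := sub_nonneg (fun n => (y_pos n).le) h

theorem E0_le {s : ℝ} (h : s ∈ E0) : s ≤ 5 / 3 := by
  have := E0_nonneg (E0_symm h)
  linarith

theorem zero_mem : (0 : ℝ) ∈ E0 := ⟨∅, by simp⟩

theorem E0_closed : IsClosed E0 := (sub_compact (fun n => (y_pos n).le) y_summable).isClosed

theorem fe_low {s : ℝ} (h : s < 1 / 2) : s ∈ E0 ↔ 4 * s ∈ E0 := by
  rw [fe s]
  constructor
  · rintro (h1 | h1 | h1 | h1)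
    · exact h1
    all_goals
      have := E0_nonneg h1
      linarith
  · exact Or.inl

theorem fe_mid {s : ℝ} (h1 : 5 / 12 < s) (h2 : s < 3 / 4) : s ∈ E0 ↔ 4 * s - 2 ∈ E0 := by
  rw [fe s]
  constructor
  · rintro (h | h | h | h)
    · have := E0_le h
      linarith
    · exact h
    all_goals
      have := E0_nonneg h
      linarith
  · exact fun h => Or.inr (Or.inl h)

theorem gap1 {s : ℝ} (h1 : 5 / 12 < s) (h2 : s < 1 / 2) : s ∉ E0 := by
  rw [fe_mid h1 (by linarith)]
  intro h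
  have := E0_nonneg h
  linarith

theorem gap2 {s : ℝ} (h1 : 7 / 24 < s) (h2 : s < 5 / 16) : s ∉ E0 := by
  rw [fe_low (by linarith), fe]
  rintro (h | h | h | h)
  · have := E0_le h
    linarith
  · have := E0_le h
    linarith
  · have := E0_le h
    linarith
  · have := E0_nonneg h
    linarith

/-! ### Finite digit expansions -/

/-- Integers with `n` digits in `{0, 2, 3, 5}` in base `4`. -/
def F : ℕ → ℕ → Prop
  | 0, z => z = 0
  | n + 1, z => ∃ z' d, F n z' ∧ (d = 0 ∨ d = 2 ∨ d = 3 ∨ d = 5) ∧ z = 4 * z' + d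

theorem F_mem (n : ℕ) : ∀ z, F n z → ∀ e ∈ E0, ((z : ℝ) + e) / 4 ^ n ∈ E0 := by
  induction n with
  | zero =>
    intro z hz e he
    have : z = 0 := hz
    simpa [this] using he
  | succ n ih =>
    rintro z ⟨z', d, hz', hd, rfl⟩ e he
    have h1 : ((d : ℝ) + e) / 4 ∈ E0 := by
      rw [fe]
      have h2 : 4 * (((d : ℝ) + e) / 4) = d + e := by ring
      rw [h2]
      rcases hd with rfl | rfl | rfl | rfl
      · left; simpa using he
      · right; left; simpa using he
      · right; right; left; simpa using he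
      · right; right; right; simpa using he
    have h3 := ih z' hz' _ h1
    have h4 : ((4 * z' + d : ℕ) : ℝ) + e = 4 * ((z' : ℝ) + ((d : ℝ) + e) / 4) := by
      push_cast
      ring
    rw [h4, pow_succ]
    have h5 : 4 * ((z' : ℝ) + ((d : ℝ) + e) / 4) / (4 ^ n * 4) =
        ((z' : ℝ) + ((d : ℝ) + e) / 4) / 4 ^ n := by
      field_simp
    rw [h5]
    exact h3

theorem exists_F (n : ℕ) : ∀ s ∈ E0, ∃ z, F n z ∧ 4 ^ n * s - (z : ℝ) ∈ E0 := by
  induction n with
  | zero =>
    intro s hs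
    exact ⟨0, rfl, by simpa using hs⟩
  | succ n ih =>
    intro s hs
    obtain ⟨z, hz, hr⟩ := ih s hs
    rw [fe] at hr
    have h4 : (4 : ℝ) ^ (n + 1) * s = 4 * (4 ^ n * s) := by rw [pow_succ]; ring
    rcases hr with h | h | h | h
    · refine ⟨4 * z + 0, ⟨z, 0, hz, by simp, rfl⟩, ?_⟩
      rw [h4]; push_cast; convert h using 1; ring
    · refine ⟨4 * z + 2, ⟨z, 2, hz, by simp, rfl⟩, ?_⟩
      rw [h4]; push_cast; convert h using 1; ring
    · refine ⟨4 * z + 3, ⟨z, 3, hz, by simp, rfl⟩, ?_⟩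
      rw [h4]; push_cast; convert h using 1; ring
    · refine ⟨4 * z + 5, ⟨z, 5, hz, by simp, rfl⟩, ?_⟩
      rw [h4]; push_cast; convert h using 1; ring

theorem F_interval (n : ℕ) : ∀ k : ℕ, 2 * 4 ^ n ≤ 3 * k + 2 → k + 1 ≤ 4 ^ n → F n k := by
  induction n with
  | zero =>
    intro k _ h2
    have : k = 0 := by simpa using h2
    exact this
  | succ n ih =>
    intro k h1 h2
    have hmod : 4 ^ n % 3 = 1 := by
      rw [Nat.pow_mod]
      norm_num
    rw [pow_succ] at h1 h2
    set N := 4 ^ n with hN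
    have hk : k = 4 * (k / 4) + k % 4 := (Nat.div_add_mod k 4).symm
    have hr : k % 4 < 4 := Nat.mod_lt _ (by norm_num)
    set j := k / 4
    set r := k % 4
    have hcases : r = 0 ∨ r = 1 ∨ r = 2 ∨ r = 3 := by omega
    rcases hcases with h | h | h | h
    · exact ⟨j, 0, ih j (by omega) (by omega), by simp, by omega⟩
    · exact ⟨j - 1, 5, ih (j - 1) (by omega) (by omega), by simp, by omega⟩
    · exact ⟨j, 2, ih j (by omega) (by omega), by simp, by omega⟩
    · exact ⟨j, 3, ih j (by omega) (by omega), by simp, by omega⟩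

theorem pow4_tendsto : Filter.Tendsto (fun n : ℕ => (1 : ℝ) / 4 ^ n) Filter.atTop (nhds 0) := by
  have := tendsto_pow_atTop_nhds_zero_of_lt_one (r := (1 / 4 : ℝ)) (by norm_num) (by norm_num)
  refine this.congr fun n => ?_
  rw [one_div, one_div, inv_pow]

theorem exists_pow {δ : ℝ} (hδ : 0 < δ) : ∃ M : ℕ, ∀ n ≥ M, 2 / 4 ^ n < δ := by
  have h1 : Filter.Tendsto (fun n : ℕ => 2 * ((1 : ℝ) / 4 ^ n)) Filter.atTop (nhds (2 * 0)) :=
    pow4_tendsto.const_mul 2
  rw [mul_zero] at h1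
  have h2 := (h1.eventually (gt_mem_nhds hδ))
  obtain ⟨M, hM⟩ := Filter.eventually_atTop.1 h2
  refine ⟨M, fun n hn => ?_⟩
  have := hM n hn
  rwa [mul_one_div] at this

theorem interval_mem {s : ℝ} (h1 : 2 / 3 ≤ s) (h2 : s ≤ 1) : s ∈ E0 := by
  have key : ∀ s : ℝ, 2 / 3 ≤ s → s < 1 → s ∈ E0 := by
    intro s h1 h2
    rw [← E0_closed.closure_eq, Metric.mem_closure_iff]
    intro ε hε
    obtain ⟨M, hM⟩ := exists_pow hε
    have hp : (0 : ℝ) < 4 ^ M := by positivity
    set k := ⌊s * 4 ^ M⌋₊ with hk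
    have hk1 : (k : ℝ) ≤ s * 4 ^ M := Nat.floor_le (by positivity)
    have hk2 : s * 4 ^ M < k + 1 := Nat.lt_floor_add_one _
    have hF : F M k := by
      apply F_interval
      · have h3 : (2 : ℝ) * 4 ^ M < 3 * k + 3 := by nlinarith
        have h4 : 2 * 4 ^ M < 3 * k + 3 := by exact_mod_cast h3
        omega
      · have h3 : (k : ℝ) < 4 ^ M := by nlinarith
        have h4 : k < 4 ^ M := by exact_mod_cast h3
        omega
    refine ⟨((k : ℝ) + 0) / 4 ^ M, F_mem M k hF 0 zero_mem, ?_⟩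
    rw [add_zero, Real.dist_eq, abs_lt]
    have h5 := hM M le_rfl
    have h6 : s - (k : ℝ) / 4 ^ M = (s * 4 ^ M - k) / 4 ^ M := by field_simp
    rw [h6]
    constructor
    · have : 0 ≤ (s * 4 ^ M - k) / 4 ^ M := div_nonneg (by linarith) hp.le
      linarith
    · refine lt_trans ?_ h5
      exact div_lt_div_of_pos_right (by linarith) hp
  rcases h2.lt_or_eq with h | h
  · exact key s h1 h
  · rw [h]
    have := E0_symm (key (2 / 3) le_rfl (by norm_num))
    norm_num at this
    exact this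

/-! ### Isolated points -/

/-- A point of `E₀` isolated from the left has a finite expansion, and has gaps on its right. -/
theorem left_isolated {e : ℝ} (he : e ∈ E0) {u : ℝ} (hu : u < e)
    (hgap : ∀ z, u < z → z < e → z ∉ E0) :
    (∃ (N z : ℕ), e = z / 4 ^ N) ∧ ∃ M : ℕ, ∀ n ≥ M, e + 11 / 24 / 4 ^ n ∉ E0 := by
  obtain ⟨M, hM⟩ := exists_pow (sub_pos.2 hu)
  have key : ∀ n ≥ M, ∀ z, F n z → 4 ^ n * e - (z : ℝ) ∈ E0 → e = z / 4 ^ n := by
    intro n hn z hz hr
    have hp : (0 : ℝ) < 4 ^ n := by positivity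
    have h0 := E0_nonneg hr
    have h1 := E0_le hr
    have h2 := F_mem n z hz 0 zero_mem
    rw [add_zero] at h2
    have h3 : e = (z : ℝ) / 4 ^ n + (4 ^ n * e - z) / 4 ^ n := by field_simp; ring
    have h4 : (4 ^ n * e - z) / 4 ^ n ≤ 2 / 4 ^ n := div_le_div_of_nonneg_right (by linarith) hp.le
    have h5 : 0 ≤ (4 ^ n * e - z) / 4 ^ n := div_nonneg h0 hp.le
    have h6 := hM n hn
    by_contra hne
    refine hgap _ ?_ ?_ h2
    · linarith
    · rcases h5.lt_or_eq with h | h
      · linarith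
      · exact absurd (by linarith) hne
  constructor
  · obtain ⟨z, hz, hr⟩ := exists_F M e he
    exact ⟨M, z, key M le_rfl z hz hr⟩
  · refine ⟨M, fun n hn hv => ?_⟩
    have hp : (0 : ℝ) < 4 ^ n := by positivity
    obtain ⟨z0, hz0, hr0⟩ := exists_F n e he
    have he0 := key n hn z0 hz0 hr0
    obtain ⟨z, hz, hr⟩ := exists_F n _ hv
    have h1 : (4 : ℝ) ^ n * (e + 11 / 24 / 4 ^ n) - z = (z0 : ℝ) - z + 11 / 24 := by
      rw [he0]; field_simp; ring
    rw [h1] at hr
    have h2 := E0_nonneg hr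
    have h3 := E0_le hr
    have h4 : (z : ℝ) < z0 + 1 := by linarith
    have h5 : (z0 : ℝ) < z + 2 := by linarith
    have h6 : z < z0 + 1 := by exact_mod_cast h4
    have h7 : z0 < z + 2 := by exact_mod_cast h5
    rcases (show z = z0 ∨ z + 1 = z0 by omega) with h | h
    · rw [h, sub_self, zero_add] at hr
      exact gap1 (by norm_num) (by norm_num) hr
    · have h8 := F_mem n z hz 0 zero_mem
      rw [add_zero] at h8
      have h9 : (z : ℝ) = z0 - 1 := by rw [← h]; push_cast; ring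
      refine hgap _ ?_ ?_ h8
      · have := hM n hn
        have h10 : (z : ℝ) / 4 ^ n = e - 1 / 4 ^ n := by rw [h9, he0]; field_simp
        have h11 : (1 : ℝ) / 4 ^ n ≤ 2 / 4 ^ n := div_le_div_of_nonneg_right (by norm_num) hp.le
        linarith
      · rw [h9, he0]
        exact div_lt_div_of_pos_right (by linarith) hp

theorem not_dyadic {N z N' z' : ℕ} (h : (z : ℝ) / 4 ^ N = z' / 4 ^ N' + 2 / 15) : False := by
  have h1 : (15 : ℝ) * z * 4 ^ N' = 15 * z' * 4 ^ N + 2 * 4 ^ N * 4 ^ N' := by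
    field_simp at h
    linarith
  have h2 : 15 * z * 4 ^ N' = 15 * z' * 4 ^ N + 2 * 4 ^ N * 4 ^ N' := by exact_mod_cast h1
  have h3 : (15 * z * 4 ^ N') % 3 = 0 := by
    have : 15 * z * 4 ^ N' = 3 * (5 * z * 4 ^ N') := by ring
    rw [this]
    exact Nat.mul_mod_right _ _
  have h4 : (15 * z' * 4 ^ N + 2 * 4 ^ N * 4 ^ N') % 3 = 2 := by
    have : 15 * z' * 4 ^ N + 2 * 4 ^ N * 4 ^ N' = 2 * 4 ^ (N + N') + 3 * (5 * z' * 4 ^ N) := by
      rw [pow_add]; ring
    rw [this, Nat.add_mul_mod_self_left, Nat.mul_mod, Nat.pow_mod]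
    norm_num
  rw [h2, h4] at h3
  norm_num at h3

/-! ### The set `E` -/

/-- The sequence `2/15, 3/4, 2/4, …`. -/
noncomputable def x : ℕ → ℝ
  | 0 => 2 / 15
  | n + 1 => y n

theorem x_pos (n : ℕ) : 0 < x n := by
  cases n with
  | zero => norm_num [x]
  | succ n => exact y_pos n

theorem x_summable : Summable x := (summable_nat_add_iff 1).1 y_summable

/-- The achievement set. -/
def E : Set ℝ := sub x

theorem mem_E (s : ℝ) : s ∈ E ↔ s ∈ E0 ∨ s - 2 / 15 ∈ E0 := sub_cons x_summable s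

theorem E_compact : IsCompact E := sub_compact (fun n => (x_pos n).le) x_summable

theorem E_symm {s : ℝ} (h : s ∈ E) : 9 / 5 - s ∈ E := by
  rw [mem_E] at *
  rcases h with h | h
  · right
    have := E0_symm h
    convert this using 1
    ring
  · left
    have := E0_symm h
    convert this using 1
    ring

theorem E_closure : closure (interior E) = E := by
  apply Set.Subset.antisymm
  · exact closure_minimal interior_subset E_compact.isClosed
  · have key : ∀ s ∈ E0, ∀ ε > 0, ∃ u v : ℝ, u < v ∧ (∀ z ∈ Set.Ioo u v, z ∈ E0) ∧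
        ∀ z ∈ Set.Ioo u v, |s - z| < ε := by
      intro s hs ε hε
      obtain ⟨M, hM⟩ := exists_pow hε
      obtain ⟨z, hz, hr⟩ := exists_F M s hs
      have hp : (0 : ℝ) < 4 ^ M := by positivity
      have h0 := E0_nonneg hr
      have h1 := E0_le hr
      refine ⟨(z + 2 / 3) / 4 ^ M, (z + 1) / 4 ^ M, div_lt_div_of_pos_right (by linarith) hp,
        fun t ht => ?_, fun t ht => ?_⟩
      · have h2 : t = ((z : ℝ) + (4 ^ M * t - z)) / 4 ^ M := by field_simp; ring
        rw [h2]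
        have h3 := ht.1
        have h4 := ht.2
        rw [div_lt_iff₀ hp] at h3
        rw [lt_div_iff₀ hp] at h4
        exact F_mem M z hz _ (interval_mem (by linarith) (by linarith))
      · have h3 := ht.1
        have h4 := ht.2
        rw [div_lt_iff₀ hp] at h3
        rw [lt_div_iff₀ hp] at h4
        have h5 : s - t = (4 ^ M * s - 4 ^ M * t) / 4 ^ M := by field_simp
        rw [h5, abs_div, abs_of_pos hp]
        refine lt_trans ?_ (hM M le_rfl)
        refine div_lt_div_of_pos_right ?_ hp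
        rw [abs_lt]
        constructor <;> linarith
    intro s hs
    rw [Metric.mem_closure_iff]
    intro ε hε
    rcases (mem_E s).1 hs with h | h
    · obtain ⟨u, v, huv, h1, h2⟩ := key s h ε hε
      have hm : (u + v) / 2 ∈ Set.Ioo u v := ⟨by linarith, by linarith⟩
      refine ⟨(u + v) / 2, mem_interior.2 ⟨Set.Ioo u v, fun z hz => (mem_E z).2 (Or.inl (h1 z hz)),
        isOpen_Ioo, hm⟩, h2 _ hm⟩
    · obtain ⟨u, v, huv, h1, h2⟩ := key _ h ε hε
      refine ⟨(u + v) / 2 + 2 / 15, mem_interior.2 ⟨Set.Ioo (u + 2 / 15) (v + 2 / 15),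
        fun z hz => (mem_E z).2 (Or.inr (h1 _ ⟨by linarith [hz.1], by linarith [hz.2]⟩)),
        isOpen_Ioo, ⟨by linarith, by linarith⟩⟩, ?_⟩
      have := h2 ((u + v) / 2) ⟨by linarith, by linarith⟩
      rw [Real.dist_eq]
      convert this using 2
      ring

/-- A point of `E` isolated from the left has gaps on its right. -/
theorem E_left_isolated {e : ℝ} (he : e ∈ E) {u : ℝ} (hu : u < e)
    (hgap : ∀ z, u < z → z < e → z ∉ E) : ∀ δ > 0, ∃ v, e < v ∧ v < e + δ ∧ v ∉ E := by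
  have g1 : ∀ z, u < z → z < e → z ∉ E0 := fun z h1 h2 h3 => hgap z h1 h2 ((mem_E z).2 (Or.inl h3))
  have g2 : ∀ z, u - 2 / 15 < z → z < e - 2 / 15 → z ∉ E0 := fun z h1 h2 h3 =>
    hgap (z + 2 / 15) (by linarith) (by linarith)
      ((mem_E _).2 (Or.inr (by convert h3 using 1; ring)))
  -- far from a closed set
  have far : ∀ p : ℝ, p ∉ E0 → ∃ M : ℕ, ∀ n ≥ M, p + 11 / 24 / 4 ^ n ∉ E0 := by
    intro p hp
    have hopen : E0ᶜ ∈ nhds p := E0_closed.isOpen_compl.mem_nhds hp
    obtain ⟨r, hr, hball⟩ := Metric.mem_nhds_iff.1 hopen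
    obtain ⟨M, hM⟩ := exists_pow hr
    refine ⟨M, fun n hn => hball ?_⟩
    rw [Metric.mem_ball, Real.dist_eq, add_sub_cancel_left, abs_of_pos (by positivity)]
    refine lt_of_le_of_lt ?_ (hM n hn)
    exact div_le_div_of_nonneg_right (by norm_num) (by positivity)
  have h1 : ∃ M : ℕ, ∀ n ≥ M, e + 11 / 24 / 4 ^ n ∉ E0 ∧ e - 2 / 15 + 11 / 24 / 4 ^ n ∉ E0 := by
    by_cases a1 : e ∈ E0
    · obtain ⟨⟨N, z, hz⟩, M1, hM1⟩ := left_isolated a1 hu g1
      by_cases a2 : e - 2 / 15 ∈ E0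
      · obtain ⟨⟨N', z', hz'⟩, _⟩ := left_isolated a2 (by linarith) g2
        exact (not_dyadic (N := N) (z := z) (N' := N') (z' := z') (by linarith)).elim
      · obtain ⟨M2, hM2⟩ := far _ a2
        exact ⟨max M1 M2, fun n hn => ⟨hM1 n (le_trans (le_max_left _ _) hn),
          hM2 n (le_trans (le_max_right _ _) hn)⟩⟩
    · obtain ⟨M1, hM1⟩ := far _ a1
      have a2 : e - 2 / 15 ∈ E0 := by
        rcases (mem_E e).1 he with h | h
        · exact absurd h a1
        · exact h
      obtain ⟨_, M2, hM2⟩ := left_isolated a2 (by linarith) g2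
      exact ⟨max M1 M2, fun n hn => ⟨hM1 n (le_trans (le_max_left _ _) hn),
          hM2 n (le_trans (le_max_right _ _) hn)⟩⟩
  obtain ⟨M, hM⟩ := h1
  intro δ hδ
  obtain ⟨M', hM'⟩ := exists_pow hδ
  have h2 := hM (max M M') (le_max_left _ _)
  have h3 := hM' (max M M') (le_max_right _ _)
  have hp : (0 : ℝ) < 4 ^ (max M M') := by positivity
  have h4 : (11 / 24 : ℝ) / 4 ^ (max M M') ≤ 2 / 4 ^ (max M M') :=
    div_le_div_of_nonneg_right (by norm_num) hp.le
  have h5 : (0 : ℝ) < 11 / 24 / 4 ^ (max M M') := by positivity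
  refine ⟨e + 11 / 24 / 4 ^ (max M M'), by linarith, by linarith, ?_⟩
  rw [mem_E]
  rintro (h | h)
  · exact h2.1 h
  · refine h2.2 ?_
    convert h using 1
    ring

/-! ### Components -/

theorem trivial_comp {S : Set ℝ} {e : ℝ} (he : e ∈ S) (hl : ∀ δ > 0, ∃ v, e - δ < v ∧ v < e ∧ v ∉ S)
    (hr : ∀ δ > 0, ∃ v, e < v ∧ v < e + δ ∧ v ∉ S) : connectedComponentIn S e = {e} := by
  have hpre := (isPreconnected_connectedComponentIn (x := e) (F := S)).ordConnected
  have hmem := mem_connectedComponentIn he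
  have hsub := connectedComponentIn_subset S e
  apply Set.Subset.antisymm
  · intro z hz
    rw [Set.mem_singleton_iff]
    rcases lt_trichotomy z e with h | h | h
    · exfalso
      obtain ⟨v, h1, h2, h3⟩ := hl (e - z) (by linarith)
      exact h3 (hsub (hpre.out hz hmem ⟨by linarith, h2.le⟩))
    · exact h
    · exfalso
      obtain ⟨v, h1, h2, h3⟩ := hr (z - e) (by linarith)
      exact h3 (hsub (hpre.out hmem hz ⟨h1.le, by linarith⟩))
  · rintro _ rfl
    exact hmem

theorem sInf_mem {S : Set ℝ} (hS : IsCompact S)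
    (h : ∀ e ∈ S, (∃ u < e, ∀ z, u < z → z < e → z ∉ S) → connectedComponentIn S e = {e})
    {p : ℝ} (hp : p ∈ S) : sInf (connectedComponentIn S p) ∈
      closure {y ∈ S | connectedComponentIn S y = {y}} := by
  set C := connectedComponentIn S p with hC
  have hord := (isPreconnected_connectedComponentIn (x := p) (F := S)).ordConnected
  have hmem : p ∈ C := mem_connectedComponentIn hp
  have hsub : C ⊆ S := connectedComponentIn_subset S p
  have hbdd : BddBelow C := hS.bddBelow.mono hsub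
  set l := sInf C with hl
  have hlp : l ≤ p := csInf_le hbdd hmem
  have hlS : l ∈ S := by
    have := csInf_mem_closure ⟨p, hmem⟩ hbdd
    exact hS.isClosed.closure_subset (closure_mono hsub this)
  rw [Metric.mem_closure_iff]
  intro ε hε
  have h1 : ∃ y, l - ε < y ∧ y < l ∧ y ∉ S := by
    by_contra hne
    push Not at hne
    have h2 : Set.Ioc (l - ε) p ⊆ S := by
      intro z hz
      rcases lt_trichotomy z l with h | h | h
      · exact hne z hz.1 h
      · rw [h]; exact hlS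
      · obtain ⟨c, hc, hcz⟩ := exists_lt_of_csInf_lt ⟨p, hmem⟩ h
        exact hsub (hord.out hc hmem ⟨hcz.le, hz.2⟩)
    have h3 : Set.Ioc (l - ε) p ⊆ C :=
      isPreconnected_Ioc.subset_connectedComponentIn ⟨by linarith, le_rfl⟩ h2
    have h4 : l - ε / 2 ∈ C := h3 ⟨by linarith, by linarith⟩
    have := csInf_le hbdd h4
    linarith
  obtain ⟨y, hy1, hy2, hy3⟩ := h1
  set T := S ∩ Set.Ici y with hT
  have hTc : IsClosed T := hS.isClosed.inter isClosed_Ici
  have hTb : BddBelow T := ⟨y, fun z hz => hz.2⟩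
  have hlT : l ∈ T := ⟨hlS, hy2.le⟩
  have he := hTc.csInf_mem ⟨l, hlT⟩ hTb
  set e := sInf T with hedef
  have hel : e ≤ l := csInf_le hTb hlT
  have hye : y < e := lt_of_le_of_ne he.2 (fun h' => hy3 (h' ▸ he.1))
  refine ⟨e, ⟨he.1, h e he.1 ⟨y, hye, fun z hz1 hz2 hz3 => ?_⟩⟩, ?_⟩
  · have := csInf_le hTb (show z ∈ T from ⟨hz3, hz1.le⟩)
    linarith
  · rw [Real.dist_eq, abs_of_nonneg (by linarith)]
    linarith

theorem sSup_mem {S : Set ℝ} (hS : IsCompact S)
    (h : ∀ e ∈ S, (∃ u > e, ∀ z, e < z → z < u → z ∉ S) → connectedComponentIn S e = {e})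
    {p : ℝ} (hp : p ∈ S) : sSup (connectedComponentIn S p) ∈
      closure {y ∈ S | connectedComponentIn S y = {y}} := by
  set C := connectedComponentIn S p with hC
  have hord := (isPreconnected_connectedComponentIn (x := p) (F := S)).ordConnected
  have hmem : p ∈ C := mem_connectedComponentIn hp
  have hsub : C ⊆ S := connectedComponentIn_subset S p
  have hbdd : BddAbove C := hS.bddAbove.mono hsub
  set l := sSup C with hl
  have hlp : p ≤ l := le_csSup hbdd hmem
  have hlS : l ∈ S := by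
    have := csSup_mem_closure ⟨p, hmem⟩ hbdd
    exact hS.isClosed.closure_subset (closure_mono hsub this)
  rw [Metric.mem_closure_iff]
  intro ε hε
  have h1 : ∃ y, y < l + ε ∧ l < y ∧ y ∉ S := by
    by_contra hne
    push Not at hne
    have h2 : Set.Ico p (l + ε) ⊆ S := by
      intro z hz
      rcases lt_trichotomy z l with h | h | h
      · obtain ⟨c, hc, hcz⟩ := exists_lt_of_lt_csSup ⟨p, hmem⟩ h
        exact hsub (hord.out hmem hc ⟨hz.1, hcz.le⟩)
      · rw [h]; exact hlS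
      · exact hne z hz.2 h
    have h3 : Set.Ico p (l + ε) ⊆ C :=
      isPreconnected_Ico.subset_connectedComponentIn ⟨le_rfl, by linarith⟩ h2
    have h4 : l + ε / 2 ∈ C := h3 ⟨by linarith, by linarith⟩
    have := le_csSup hbdd h4
    linarith
  obtain ⟨y, hy1, hy2, hy3⟩ := h1
  set T := S ∩ Set.Iic y with hT
  have hTc : IsClosed T := hS.isClosed.inter isClosed_Iic
  have hTb : BddAbove T := ⟨y, fun z hz => hz.2⟩
  have hlT : l ∈ T := ⟨hlS, hy2.le⟩
  have he := hTc.csSup_mem ⟨l, hlT⟩ hTb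
  set e := sSup T with hedef
  have hel : l ≤ e := le_csSup hTb hlT
  have hye : e < y := lt_of_le_of_ne he.2 (fun h' => hy3 (h' ▸ he.1))
  refine ⟨e, ⟨he.1, h e he.1 ⟨y, hye, fun z hz1 hz2 hz3 => ?_⟩⟩, ?_⟩
  · have := le_csSup hTb (show z ∈ T from ⟨hz3, hz2.le⟩)
    linarith
  · rw [Real.dist_eq, abs_of_nonpos (by linarith)]
    linarith

theorem E_left {e : ℝ} (he : e ∈ E) (h : ∃ u < e, ∀ z, u < z → z < e → z ∉ E) :
    connectedComponentIn E e = {e} := by
  obtain ⟨u, hu, hgap⟩ := h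
  refine trivial_comp he (fun δ hδ => ?_) (E_left_isolated he hu hgap)
  refine ⟨max (e - δ / 2) ((u + e) / 2), ?_, ?_, ?_⟩
  · have := le_max_left (e - δ / 2) ((u + e) / 2)
    linarith
  · exact max_lt (by linarith) (by linarith)
  · refine hgap _ ?_ (max_lt (by linarith) (by linarith))
    have := le_max_right (e - δ / 2) ((u + e) / 2)
    linarith

theorem E_right {e : ℝ} (he : e ∈ E) (h : ∃ u > e, ∀ z, e < z → z < u → z ∉ E) :
    connectedComponentIn E e = {e} := by
  obtain ⟨u, hu, hgap⟩ := h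
  have h1 := E_left_isolated (E_symm he) (u := 9 / 5 - u) (by linarith) (fun z hz1 hz2 hz3 =>
    hgap (9 / 5 - z) (by linarith) (by linarith) (E_symm hz3))
  refine trivial_comp he (fun δ hδ => ?_) (fun δ hδ => ?_)
  · obtain ⟨v, hv1, hv2, hv3⟩ := h1 δ hδ
    refine ⟨9 / 5 - v, by linarith, by linarith, fun hv => hv3 ?_⟩
    have := E_symm hv
    rwa [sub_sub_cancel] at this
  · refine ⟨min (e + δ / 2) ((u + e) / 2), lt_min (by linarith) (by linarith), ?_, ?_⟩
    · have := min_le_left (e + δ / 2) ((u + e) / 2)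
      linarith
    · refine hgap _ (lt_min (by linarith) (by linarith)) ?_
      have := min_le_right (e + δ / 2) ((u + e) / 2)
      linarith

end Pool.Agent.H51.Cantorval
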