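import Mathlib

/-! # Discrete Gaussians on `ℤ^g` and the lattice `D_g^*` -/

namespace Pool.Agent.H51.DG

open Complex

/-- `e^{2π(-½ nᵗBn + nᵗu)}` -/
noncomputable def term {g : ℕ} (u : Fin g → ℂ) (B : Matrix (Fin g) (Fin g) ℂ) (n : Fin g → ℤ) : ℂ :=
  Complex.exp (2 * (Real.pi : ℂ) *
    (-(1 / 2) * (∑ i, ∑ j, (n i : ℂ) * B i j * (n j : ℂ)) + ∑ i, (n i : ℂ) * u i))

/-- the Riemann theta function -/
noncomputable def theta {g : ℕ} (u : Fin g → ℂ) (B : Matrix (Fin g) (Fin g) ℂ) : ℂ :=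
  ∑' n : Fin g → ℤ, term u B n

/-- the weight function of the discrete Gaussian -/
noncomputable def wt {g : ℕ} (u : Fin g → ℂ) (B : Matrix (Fin g) (Fin g) ℂ) (n : Fin g → ℤ) : ℂ :=
  term u B n / theta u B

/-- the moment with multi-index `α` -/
noncomputable def moment {g : ℕ} (α : Fin g → ℕ) (u : Fin g → ℂ) (B : Matrix (Fin g) (Fin g) ℂ) : ℂ :=
  ∑' n : Fin g → ℤ, (∏ i, (n i : ℂ) ^ α i) * wt u B n

/-- the Siegel space: symmetric complex matrices with positive definite real part -/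
def Siegel {g : ℕ} (B : Matrix (Fin g) (Fin g) ℂ) : Prop :=
  B.IsSymm ∧ (B.map Complex.re).PosDef

lemma summable_pi {g : ℕ} (f : Fin g → ℤ → ℝ) (h0 : ∀ i n, 0 ≤ f i n) (hs : ∀ i, Summable (f i)) :
    Summable (fun n : Fin g → ℤ => ∏ i, f i (n i)) := by
  induction g with
  | zero => exact Summable.of_finite
  | succ g ih =>
    have h1 := ih (fun i => f i.succ) (fun i n => h0 _ _) (fun i => hs _)
    have h2 : Summable (fun x : ℤ × (Fin g → ℤ) => f 0 x.1 * ∏ i, f (Fin.succ i) (x.2 i)) :=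
      (hs 0).mul_of_nonneg h1 (fun n => h0 0 n) (fun n => Finset.prod_nonneg (fun i _ => h0 _ _))
    have h3 := (Fin.consEquiv (fun _ : Fin (g+1) => ℤ)).summable_iff
      (f := fun n : Fin (g+1) → ℤ => ∏ i, f i (n i))
    rw [← h3]
    refine h2.congr ?_
    intro x
    simp [Fin.prod_univ_succ, Fin.consEquiv]

lemma summable_1d (c : ℝ) (hc : 0 < c) (k : ℕ) :
    Summable (fun n : ℤ => |(n : ℝ)| ^ k * Real.exp (-c * (n : ℝ) ^ 2)) := by
  have h := summable_pow_mul_jacobiTheta₂_term_bound 0 (T := c / Real.pi) (by positivity) k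
  refine h.congr ?_
  intro n
  rw [← Int.cast_abs]
  congr 2
  field_simp
  ring_nf

lemma summable_gauss {g : ℕ} (c : ℝ) (hc : 0 < c) (α : Fin g → ℕ) :
    Summable (fun n : Fin g → ℤ => (∏ i, |(n i : ℝ)| ^ α i) * Real.exp (-c * ∑ i, (n i : ℝ) ^ 2)) := by
  have := summable_pi (fun i (n : ℤ) => |(n : ℝ)| ^ α i * Real.exp (-c * (n : ℝ) ^ 2))
    (fun i n => by positivity) (fun i => summable_1d c hc (α i))
  refine this.congr ?_
  intro n
  rw [Finset.prod_mul_distrib, ← Real.exp_sum, Finset.mul_sum]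


section lattice

variable {m : ℕ}

/-- twice the coordinates of the lattice vector -/
def Y (n : Fin (m + 1) → ℤ) (i : Fin (m + 1)) : ℤ :=
  if i = Fin.last m then n (Fin.last m) else 2 * n i + n (Fin.last m)

lemma Y_inj : Function.Injective (Y (m := m)) := by
  intro a b h
  have hl : a (Fin.last m) = b (Fin.last m) := by
    have := congrFun h (Fin.last m)
    simpa [Y] using this
  funext i
  by_cases hi : i = Fin.last m
  · rw [hi, hl]
  · have := congrFun h i
    simp only [Y, hi, if_false] at this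
    omega

/-- the sign changes -/
def sg (j : Fin (m + 1)) (n : Fin (m + 1) → ℤ) (i : Fin (m + 1)) : ℤ :=
  if j = Fin.last m then (if i = Fin.last m then - n (Fin.last m) else n i + n (Fin.last m))
  else (if i = j then - n j - n (Fin.last m) else n i)

lemma sg_sg (j : Fin (m + 1)) (n : Fin (m + 1) → ℤ) : sg j (sg j n) = n := by
  funext i
  by_cases hj : j = Fin.last m
  · by_cases hi : i = Fin.last m
    · simp [sg, hj, hi]
    · simp [sg, hj, hi]
  · have hj' : ¬ (Fin.last m = j) := fun h => hj h.symm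
    by_cases hi : i = j
    · simp [sg, hj, hi, hj']
    · simp [sg, hj, hi]

/-- the sign change as a bijection -/
def sgE (j : Fin (m + 1)) : (Fin (m + 1) → ℤ) ≃ (Fin (m + 1) → ℤ) where
  toFun := sg j
  invFun := sg j
  left_inv := sg_sg j
  right_inv := sg_sg j

lemma Y_sg (j : Fin (m + 1)) (n : Fin (m + 1) → ℤ) (i : Fin (m + 1)) :
    Y (sg j n) i = if i = j then - Y n i else Y n i := by
  by_cases hj : j = Fin.last m
  · by_cases hi : i = Fin.last m
    · simp [sg, Y, hj, hi]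
    · simp [sg, Y, hj, hi]
      ring
  · have hj' : ¬ (Fin.last m = j) := fun h => hj h.symm
    by_cases hi : i = j
    · simp [sg, Y, hj, hi, hj']
      ring
    · by_cases hi' : i = Fin.last m
      · simp [sg, Y, hj, hj', hi']
      · simp [sg, Y, hj, hi, hi', hj']

/-- the exponent of the character, in quarter turns -/
def ex (n : Fin (m + 1) → ℤ) : ℤ := 2 * (∑ i : Fin m, n i.castSucc) + n (Fin.last m)

/-- the character of order four -/
noncomputable def chi (n : Fin (m + 1) → ℤ) : ℂ := Complex.I ^ (ex n)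

lemma chi_sg (hm : Even m) (j : Fin (m + 1)) (n : Fin (m + 1) → ℤ) :
    chi (sg j n) = (chi n)⁻¹ := by
  have key : ∃ q : ℤ, ex (sg j n) = - ex n + 4 * q := by
    by_cases hj : j = Fin.last m
    · obtain ⟨k, hk⟩ := hm
      refine ⟨(∑ i : Fin m, n i.castSucc) + k * n (Fin.last m), ?_⟩
      have : ∀ i : Fin m, sg j n i.castSucc = n i.castSucc + n (Fin.last m) := by
        intro i
        have : i.castSucc ≠ Fin.last m := (Fin.castSucc_lt_last i).ne
        simp [sg, hj, this]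
      simp only [ex, this, Finset.sum_add_distrib]
      simp [sg, hj]
      subst hk
      push_cast
      ring
    · obtain ⟨a, rfl⟩ : ∃ a : Fin m, a.castSucc = j := ⟨j.castPred hj, by simp⟩
      have h1 : ∀ i : Fin m, sg a.castSucc n i.castSucc =
          n i.castSucc + (if i = a then -2 * n a.castSucc - n (Fin.last m) else 0) := by
        intro i
        by_cases hia : i = a
        · subst hia
          simp [sg, hj]
          ring
        · simp [sg, hj, hia]
      have h2 : sg a.castSucc n (Fin.last m) = n (Fin.last m) := by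
        simp [sg, hj]
        intro h
        exact absurd h.symm hj
      refine ⟨(∑ i : Fin m, n i.castSucc) - n a.castSucc, ?_⟩
      simp only [ex, h1, h2, Finset.sum_add_distrib, Finset.sum_ite_eq', Finset.mem_univ, if_true]
      ring
  obtain ⟨q, hq⟩ := key
  rw [chi, chi, hq, zpow_add₀ Complex.I_ne_zero, zpow_neg, zpow_mul]
  have : (Complex.I : ℂ) ^ (4 : ℤ) = 1 := by
    rw [show (4 : ℤ) = ((4 : ℕ) : ℤ) from rfl, zpow_natCast]; exact Complex.I_pow_four
  rw [this, one_zpow, mul_one]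


/-- the Gaussian weight -/
noncomputable def W (T : ℝ) (n : Fin (m + 1) → ℤ) : ℝ :=
  Real.exp (-(Real.pi * T) * ∑ i, (Y n i : ℝ) ^ 2)

lemma W_sg (T : ℝ) (j : Fin (m + 1)) (n : Fin (m + 1) → ℤ) : W T (sg j n) = W T n := by
  unfold W
  congr 2
  refine Finset.sum_congr rfl (fun i _ => ?_)
  rw [Y_sg]
  split_ifs <;> push_cast <;> ring

lemma norm_chi (n : Fin (m + 1) → ℤ) : ‖chi n‖ = 1 := by
  rw [chi, norm_zpow, Complex.norm_I, one_zpow]

lemma summable_mono (T : ℝ) (hT : 0 < T) (β : Fin (m + 1) → ℕ) (f : (Fin (m + 1) → ℤ) → ℂ)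
    (hf : ∀ n, ‖f n‖ ≤ 2) :
    Summable (fun n : Fin (m + 1) → ℤ => (∏ i, (Y n i : ℂ) ^ β i) * (f n * (W T n : ℂ))) := by
  have h := (summable_gauss (g := m + 1) (Real.pi * T) (by positivity) β).comp_injective Y_inj
  refine Summable.of_norm_bounded (h.mul_left 2) ?_
  intro n
  have h1 : ‖(∏ i, (Y n i : ℂ) ^ β i)‖ = ∏ i, |(Y n i : ℝ)| ^ β i := by
    rw [norm_prod]
    refine Finset.prod_congr rfl (fun i _ => ?_)
    rw [norm_pow, Complex.norm_intCast]
  have h2 : ‖(W T n : ℂ)‖ = W T n := by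
    rw [Complex.norm_real, Real.norm_of_nonneg]
    exact (Real.exp_pos _).le
  rw [norm_mul, norm_mul, h1, h2]
  simp only [Function.comp]
  have h3 : 0 ≤ ∏ i, |(Y n i : ℝ)| ^ β i := Finset.prod_nonneg (fun i _ => by positivity)
  have h4 : 0 ≤ W T n := (Real.exp_pos _).le
  have h5 : W T n = Real.exp (-(Real.pi * T) * ∑ i, (Y n i : ℝ) ^ 2) := rfl
  rw [← h5]
  nlinarith [hf n, mul_nonneg h3 h4, mul_le_mul_of_nonneg_right (hf n) (mul_nonneg h3 h4)]

lemma D_mono (hm : Even m) (T : ℝ) (β : Fin (m + 1) → ℕ) (hβ : ∑ i, β i ≤ m) :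
    ∑' n : Fin (m + 1) → ℤ, (∏ i, (Y n i : ℂ) ^ β i) * ((chi n - (chi n)⁻¹) * (W T n : ℂ)) = 0 := by
  obtain ⟨j, hj⟩ : ∃ j, β j = 0 := by
    by_contra hcon
    push Not at hcon
    have : ∑ i : Fin (m + 1), 1 ≤ ∑ i, β i :=
      Finset.sum_le_sum (fun i _ => Nat.one_le_iff_ne_zero.mpr (hcon i))
    simp at this
    omega
  set F := fun n : Fin (m + 1) → ℤ => (∏ i, (Y n i : ℂ) ^ β i) * ((chi n - (chi n)⁻¹) * (W T n : ℂ))
    with hF
  have h1 : ∀ n, F (sgE j n) = - F n := by
    intro n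
    have h2 : (∏ i, (Y (sg j n) i : ℂ) ^ β i) = ∏ i, (Y n i : ℂ) ^ β i := by
      refine Finset.prod_congr rfl (fun i _ => ?_)
      rw [Y_sg]
      split_ifs with h
      · rw [h, hj]; simp
      · rfl
    simp only [hF, sgE, Equiv.coe_fn_mk]
    rw [h2, W_sg, chi_sg hm, inv_inv]
    ring
  have h2 : ∑' n, F n = - ∑' n, F n := by
    calc ∑' n, F n = ∑' n, F (sgE j n) := ((sgE j).tsum_eq F).symm
      _ = ∑' n, - F n := by simp_rw [h1]
      _ = - ∑' n, F n := tsum_neg
  have h3 : (2 : ℂ) * ∑' n, F n = 0 := by linear_combination h2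
  simpa using h3

lemma D_poly (hm : Even m) (T : ℝ) (hT : 0 < T) (Q : MvPolynomial (Fin (m + 1)) ℂ)
    (hQ : Q.totalDegree ≤ m) :
    ∑' n : Fin (m + 1) → ℤ, (MvPolynomial.eval (fun i => (Y n i : ℂ)) Q) *
      ((chi n - (chi n)⁻¹) * (W T n : ℂ)) = 0 := by
  simp_rw [MvPolynomial.eval_eq', Finset.sum_mul, mul_assoc]
  rw [Summable.tsum_finsetSum]
  · refine Finset.sum_eq_zero (fun d hd => ?_)
    rw [tsum_mul_left, D_mono hm T (fun i => d i), mul_zero]
    have := MvPolynomial.le_totalDegree hd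
    rw [Finsupp.sum_fintype _ _ (fun i => rfl)] at this
    omega
  · intro d _
    refine Summable.mul_left _ ?_
    refine summable_mono T hT (fun i => d i) _ (fun n => ?_)
    refine (norm_sub_le _ _).trans ?_
    rw [norm_inv, norm_chi]
    norm_num

/-- the coordinates of `n` as linear forms in the `Y` -/
noncomputable def Lf (i : Fin (m + 1)) : MvPolynomial (Fin (m + 1)) ℂ :=
  if i = Fin.last m then MvPolynomial.X (Fin.last m)
  else MvPolynomial.C (1 / 2) * (MvPolynomial.X i - MvPolynomial.X (Fin.last m))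

lemma eval_Lf (n : Fin (m + 1) → ℤ) (i : Fin (m + 1)) :
    MvPolynomial.eval (fun i => (Y n i : ℂ)) (Lf i) = n i := by
  by_cases hi : i = Fin.last m
  · simp [Lf, hi, Y]
  · simp [Lf, hi, Y]

lemma deg_Lf (i : Fin (m + 1)) : (Lf i).totalDegree ≤ 1 := by
  unfold Lf
  split_ifs
  · rw [MvPolynomial.totalDegree_X]
  · refine (MvPolynomial.totalDegree_mul _ _).trans ?_
    rw [MvPolynomial.totalDegree_C, zero_add]
    refine (MvPolynomial.totalDegree_sub _ _).trans ?_
    simp

lemma D_alpha (hm : Even m) (T : ℝ) (hT : 0 < T) (α : Fin (m + 1) → ℕ) (hα : ∑ i, α i ≤ m) :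
    ∑' n : Fin (m + 1) → ℤ, (∏ i, (n i : ℂ) ^ α i) *
      ((chi n - (chi n)⁻¹) * (W T n : ℂ)) = 0 := by
  have h := D_poly hm T hT (∏ i, Lf i ^ α i) (by
    refine (MvPolynomial.totalDegree_finsetProd _ _).trans ?_
    refine le_trans (Finset.sum_le_sum (fun i _ => ?_)) hα
    refine (MvPolynomial.totalDegree_pow _ _).trans ?_
    have := deg_Lf i
    nlinarith)
  simpa only [map_prod, map_pow, eval_Lf] using h

lemma summable_alpha (T : ℝ) (hT : 0 < T) (α : Fin (m + 1) → ℕ) (f : (Fin (m + 1) → ℤ) → ℂ)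
    (hf : ∀ n, ‖f n‖ ≤ 2) :
    Summable (fun n : Fin (m + 1) → ℤ => (∏ i, (n i : ℂ) ^ α i) * (f n * (W T n : ℂ))) := by
  have h : ∀ n : Fin (m + 1) → ℤ, (∏ i, (n i : ℂ) ^ α i) * (f n * (W T n : ℂ)) =
      ∑ d ∈ (∏ i : Fin (m+1), Lf (m := m) i ^ α i).support,
        MvPolynomial.coeff d (∏ i, Lf (m := m) i ^ α i) *
          ((∏ i, (Y n i : ℂ) ^ d i) * (f n * (W T n : ℂ))) := by
    intro n
    have := MvPolynomial.eval_eq' (fun i => (Y n i : ℂ)) (∏ i, Lf (m := m) i ^ α i)
    rw [map_prod] at this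
    simp only [map_pow, eval_Lf] at this
    rw [this, Finset.sum_mul]
    simp_rw [mul_assoc]
  simp_rw [h]
  refine summable_sum (fun d _ => Summable.mul_left _ ?_)
  exact summable_mono T hT (fun i => d i) _ hf


/-- the matrix of `Y` -/
def Mat (m : ℕ) : Matrix (Fin (m + 1)) (Fin (m + 1)) ℤ := fun i j =>
  (if i = Fin.last m then 0 else if j = i then 2 else 0) + (if j = Fin.last m then 1 else 0)

lemma Mat_mul (n : Fin (m + 1) → ℤ) (i : Fin (m + 1)) : ∑ j, Mat m i j * n j = Y n i := by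
  simp only [Mat, add_mul, Finset.sum_add_distrib, ite_mul, zero_mul, one_mul]
  by_cases hi : i = Fin.last m
  · simp [hi, Y]
  · simp [hi, Y]

/-- the parameter matrix -/
noncomputable def Bm (m : ℕ) (T : ℝ) : Matrix (Fin (m + 1)) (Fin (m + 1)) ℂ := fun i j =>
  (T : ℂ) * ∑ k, (Mat m k i : ℂ) * (Mat m k j : ℂ)

lemma quad (T : ℝ) (n : Fin (m + 1) → ℤ) :
    ∑ i, ∑ j, (n i : ℂ) * Bm m T i j * (n j : ℂ) = (T : ℂ) * ∑ k, (Y n k : ℂ) ^ 2 := by
  have h : ∀ k, (Y n k : ℂ) = ∑ j, (Mat m k j : ℂ) * (n j : ℂ) := by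
    intro k
    rw [← Mat_mul]
    push_cast
    rfl
  calc ∑ i, ∑ j, (n i : ℂ) * Bm m T i j * (n j : ℂ)
      = ∑ i, ∑ j, ∑ k, (T : ℂ) * (((Mat m k i : ℂ) * (n i : ℂ)) * ((Mat m k j : ℂ) * (n j : ℂ))) := by
        refine Finset.sum_congr rfl (fun i _ => Finset.sum_congr rfl (fun j _ => ?_))
        rw [Bm, Finset.mul_sum, Finset.mul_sum, Finset.sum_mul]
        refine Finset.sum_congr rfl (fun k _ => ?_)
        ring
    _ = ∑ i, ∑ k, ∑ j, (T : ℂ) * (((Mat m k i : ℂ) * (n i : ℂ)) * ((Mat m k j : ℂ) * (n j : ℂ))) :=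
        Finset.sum_congr rfl (fun i _ => Finset.sum_comm)
    _ = ∑ k, ∑ i, ∑ j, (T : ℂ) * (((Mat m k i : ℂ) * (n i : ℂ)) * ((Mat m k j : ℂ) * (n j : ℂ))) :=
        Finset.sum_comm
    _ = (T : ℂ) * ∑ k, (Y n k : ℂ) ^ 2 := by
        rw [Finset.mul_sum]
        refine Finset.sum_congr rfl (fun k _ => ?_)
        rw [h k, sq, Finset.sum_mul_sum, Finset.mul_sum]
        refine Finset.sum_congr rfl (fun i _ => ?_)
        rw [Finset.mul_sum]

lemma siegel_Bm (T : ℝ) (hT : 0 < T) : Siegel (Bm m T) := by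
  constructor
  · ext i j
    simp only [Matrix.transpose_apply, Bm]
    congr 1
    exact Finset.sum_congr rfl (fun k _ => mul_comm _ _)
  · have hB : (Bm m T).map Complex.re = T • (Matrix.transpose ((Mat m).map (Int.cast : ℤ → ℝ)) * ((Mat m).map (Int.cast : ℤ → ℝ))) := by
      ext i j
      have : Bm m T i j = ((T * ∑ k, (Mat m k i : ℝ) * (Mat m k j : ℝ) : ℝ) : ℂ) := by
        simp only [Bm]; push_cast; rfl
      rw [Matrix.map_apply, this, Complex.ofReal_re]
      simp [Matrix.mul_apply, Finset.mul_sum, mul_assoc]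
    rw [hB]
    refine Matrix.PosDef.smul ?_ hT
    rw [← Matrix.conjTranspose_eq_transpose_of_trivial]
    refine Matrix.PosDef.conjTranspose_mul_self _ ?_
    intro a b hab
    have hrow : ∀ (c : Fin (m+1) → ℝ) k, (((Mat m).map (Int.cast : ℤ → ℝ)).mulVec c) k =
        if k = Fin.last m then c (Fin.last m) else 2 * c k + c (Fin.last m) := by
      intro c k
      simp only [Matrix.mulVec, dotProduct, Matrix.map_apply, Mat]
      by_cases hk : k = Fin.last m
      · simp [hk]
      · push_cast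
        simp [hk, add_mul, Finset.sum_add_distrib]
    have hl : a (Fin.last m) = b (Fin.last m) := by
      have := congrFun hab (Fin.last m)
      rw [hrow, hrow] at this
      simpa using this
    funext i
    by_cases hi : i = Fin.last m
    · rw [hi, hl]
    · have := congrFun hab i
      rw [hrow, hrow] at this
      simp only [hi, if_false] at this
      linarith

/-- the vector `u`, with sign `s` -/
noncomputable def uv (m : ℕ) (s : ℂ) (i : Fin (m + 1)) : ℂ :=
  if i = Fin.last m then s * Complex.I / 4 else s * Complex.I / 2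

lemma lin_uv (s : ℂ) (n : Fin (m + 1) → ℤ) :
    ∑ i, (n i : ℂ) * uv m s i = s * Complex.I / 4 * (ex n : ℂ) := by
  rw [Fin.sum_univ_castSucc]
  have : ∀ i : Fin m, i.castSucc ≠ Fin.last m := fun i => (Fin.castSucc_lt_last i).ne
  simp only [uv, this, if_false, if_true, ← Finset.sum_mul, ex]
  push_cast
  ring

lemma I_zpow (k : ℤ) : Complex.exp (Real.pi * Complex.I / 2 * k) = Complex.I ^ k := by
  rw [mul_comm, Complex.exp_int_mul, show (Real.pi : ℂ) * Complex.I / 2 = (Real.pi / 2 : ℂ) * Complex.I by ring,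
    Complex.exp_pi_div_two_mul_I]

lemma term_eq (s : ℂ) (T : ℝ) (n : Fin (m + 1) → ℤ) :
    term (uv m s) (Bm m T) n = Complex.exp (s * (Real.pi * Complex.I / 2 * ex n)) * (W T n : ℂ) := by
  rw [term, quad, lin_uv, W, Complex.ofReal_exp, ← Complex.exp_add]
  congr 1
  push_cast
  ring

lemma term_one (T : ℝ) (n : Fin (m + 1) → ℤ) :
    term (uv m 1) (Bm m T) n = chi n * (W T n : ℂ) := by
  rw [term_eq, one_mul, I_zpow, chi]

lemma term_neg (T : ℝ) (n : Fin (m + 1) → ℤ) :
    term (uv m (-1)) (Bm m T) n = (chi n)⁻¹ * (W T n : ℂ) := by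
  rw [term_eq, neg_one_mul, Complex.exp_neg, I_zpow, chi]

lemma sumY_ge (n : Fin (m + 1) → ℤ) (hn : n ≠ 0) : 1 ≤ ∑ i, (Y n i : ℝ) ^ 2 := by
  have h : ∃ i, Y n i ≠ 0 := by
    by_contra hcon
    push Not at hcon
    apply hn
    apply Y_inj
    funext i
    rw [hcon i]
    simp [Y]
  obtain ⟨i, hi⟩ := h
  have h1 : (1 : ℝ) ≤ (Y n i : ℝ) ^ 2 := by
    have : (1 : ℤ) ≤ (Y n i) ^ 2 := by
      have := pow_pos (abs_pos.mpr hi) 2
      rw [sq_abs] at this
      omega
    exact_mod_cast this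
  exact h1.trans (Finset.single_le_sum (f := fun i => (Y n i : ℝ) ^ 2) (fun i _ => sq_nonneg _)
    (Finset.mem_univ i))

/-- for large `T` no unimodular character gives a zero of theta -/
lemma exists_T (m : ℕ) : ∃ T : ℝ, 0 < T ∧ ∀ f : (Fin (m + 1) → ℤ) → ℂ, (∀ n, ‖f n‖ = 1) → f 0 = 1 →
    ∑' n : Fin (m + 1) → ℤ, f n * (W T n : ℂ) ≠ 0 := by
  have hsW : Summable (fun n : Fin (m + 1) → ℤ => W 1 n) := by
    have := (summable_gauss (g := m + 1) (Real.pi * 1) (by positivity) 0).comp_injective Y_inj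
    refine this.congr ?_
    intro n
    simp [W]
  set S := ∑' n : Fin (m + 1) → ℤ, W 1 n with hS
  have hS0 : 0 ≤ S := tsum_nonneg (fun n => (Real.exp_pos _).le)
  refine ⟨1 + Real.log (S + 1) / Real.pi, ?_, ?_⟩
  · have : 0 ≤ Real.log (S + 1) := Real.log_nonneg (by linarith)
    positivity
  intro f hf hf0
  set T := 1 + Real.log (S + 1) / Real.pi with hT
  have hW : ∀ n : Fin (m + 1) → ℤ, n ≠ 0 → W T n ≤ (1 / (S + 1)) * W 1 n := by
    intro n hn
    have h1 := sumY_ge n hn
    have h2 : 1 / (S + 1) = Real.exp (- Real.log (S + 1)) := by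
      rw [Real.exp_neg, Real.exp_log (by linarith), one_div]
    rw [h2, W, W, ← Real.exp_add]
    apply Real.exp_le_exp.mpr
    have h3 : Real.pi * T = Real.pi + Real.log (S + 1) := by
      rw [hT]; field_simp
    rw [h3]
    have : 0 ≤ Real.log (S + 1) := Real.log_nonneg (by linarith)
    nlinarith
  have hs : Summable (fun n : Fin (m + 1) → ℤ => f n * (W T n : ℂ)) := by
    have hT0 : 0 < T := by
      have : 0 ≤ Real.log (S + 1) := Real.log_nonneg (by linarith)
      positivity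
    have := summable_mono T hT0 (0 : Fin (m+1) → ℕ) f (fun n => by rw [hf n]; norm_num)
    simpa using this
  rw [hs.tsum_eq_add_tsum_ite 0]
  have hW0 : W T (0 : Fin (m + 1) → ℤ) = 1 := by
    simp [W, Y]
  rw [hf0, hW0]
  intro hcon
  have h1 : ‖∑' n : Fin (m + 1) → ℤ, (if n = 0 then 0 else f n * (W T n : ℂ))‖ ≤ S / (S + 1) := by
    have h2 : ∀ n : Fin (m + 1) → ℤ, ‖(if n = 0 then 0 else f n * (W T n : ℂ))‖ ≤ (1 / (S + 1)) * W 1 n := by
      intro n
      split_ifs with h
      · rw [norm_zero]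
        exact mul_nonneg (by positivity) (Real.exp_pos _).le
      · have hW0 : 0 ≤ W T n := (Real.exp_pos _).le
        rw [norm_mul, hf n, one_mul, Complex.norm_real, Real.norm_of_nonneg hW0]
        exact hW n h
    refine (tsum_of_norm_bounded (hsW.mul_left (1 / (S + 1))).hasSum h2).trans ?_
    rw [tsum_mul_left]
    apply le_of_eq
    ring
  have h2 : ∑' n : Fin (m + 1) → ℤ, (if n = 0 then 0 else f n * (W T n : ℂ)) = -1 := by
    have : (1 : ℂ) * ((1 : ℝ) : ℂ) = 1 := by norm_num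
    rw [this] at hcon
    linear_combination hcon
  rw [h2, norm_neg, norm_one] at h1
  have : S / (S + 1) < 1 := by
    rw [div_lt_one (by linarith)]
    linarith
  linarith

/-- For odd `g = m + 1` there are two discrete Gaussians with the same real parameter matrix whose
moments of order up to `m = g - 1` agree. -/
theorem main (hm : Even m) : ∃ (B : Matrix (Fin (m + 1)) (Fin (m + 1)) ℂ) (u u' : Fin (m + 1) → ℂ),
    Siegel B ∧ theta u B ≠ 0 ∧ theta u' B ≠ 0 ∧
    (∀ α : Fin (m + 1) → ℕ, ∑ i, α i ≤ m → moment α u B = moment α u' B) ∧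
    ∃ n, wt u B n ≠ wt u' B n := by
  obtain ⟨T, hT, hTf⟩ := exists_T m
  have hchi0 : chi (0 : Fin (m + 1) → ℤ) = 1 := by simp [chi, ex]
  have h1 : theta (uv m 1) (Bm m T) ≠ 0 := by
    rw [theta]
    simp_rw [term_one]
    exact hTf chi norm_chi hchi0
  have h2 : theta (uv m (-1)) (Bm m T) ≠ 0 := by
    rw [theta]
    simp_rw [term_neg]
    refine hTf (fun n => (chi n)⁻¹) (fun n => ?_) ?_
    · rw [norm_inv, norm_chi, inv_one]
    · simp [hchi0]
  have key : ∀ α : Fin (m + 1) → ℕ, ∑ i, α i ≤ m →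
      ∑' n : Fin (m + 1) → ℤ, (∏ i, (n i : ℂ) ^ α i) * term (uv m 1) (Bm m T) n =
      ∑' n : Fin (m + 1) → ℤ, (∏ i, (n i : ℂ) ^ α i) * term (uv m (-1)) (Bm m T) n := by
    intro α hα
    simp_rw [term_one, term_neg]
    have h := D_alpha hm T hT α hα
    rw [← sub_eq_zero, ← Summable.tsum_sub]
    · rw [← h]
      congr 1
      funext n
      ring
    · exact summable_alpha T hT α _ (fun n => by rw [norm_chi]; norm_num)
    · exact summable_alpha T hT α _ (fun n => by rw [norm_inv, norm_chi]; norm_num)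
  have htheta : theta (uv m 1) (Bm m T) = theta (uv m (-1)) (Bm m T) := by
    have := key 0 (by simp)
    simpa [theta] using this
  refine ⟨Bm m T, uv m 1, uv m (-1), siegel_Bm T hT, h1, h2, ?_, ?_⟩
  · intro α hα
    have := key α hα
    rw [moment, moment]
    simp_rw [wt, ← mul_div_assoc, tsum_div_const]
    rw [this, htheta]
  · refine ⟨Pi.single (Fin.last m) 1, ?_⟩
    rw [wt, wt, htheta, term_one, term_neg]
    intro hcon
    have hex : ex (Pi.single (Fin.last m) (1 : ℤ) : Fin (m + 1) → ℤ) = 1 := by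
      have : ∀ i : Fin m, (Pi.single (Fin.last m) (1 : ℤ) : Fin (m + 1) → ℤ) i.castSucc = 0 := by
        intro i
        rw [Pi.single_eq_of_ne]
        exact (Fin.castSucc_lt_last i).ne
      simp [ex, this]
    have hW : (W T (Pi.single (Fin.last m) (1 : ℤ) : Fin (m + 1) → ℤ) : ℂ) ≠ 0 := by
      rw [W]
      exact_mod_cast (Real.exp_pos _).ne'
    rw [div_left_inj' h2, mul_left_inj' hW, chi, hex, zpow_one, Complex.inv_I] at hcon
    have := congrArg Complex.im hcon
    simp at this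
    norm_num at this

end lattice

end Pool.Agent.H51.DG
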