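import Mathlib

/-! # Erdős–Gallai (sufficiency), following Choudum -/

namespace Pool.Agent.H51.EG

open Finset

/-- adjacency matrices -/
def IsMat {n : ℕ} (A : Fin n → Fin n → ℤ) : Prop :=
  (∀ i j, A i j = 0 ∨ A i j = 1) ∧ (∀ i j, A i j = A j i) ∧ (∀ i, A i i = 0)

/-- `d` is the degree sequence of a matrix -/
def Gr {n : ℕ} (d : Fin n → ℕ) : Prop := ∃ A, IsMat A ∧ ∀ i, ∑ j, A i j = d i

/-- matrix of one edge -/
def ed {n : ℕ} (a b i j : Fin n) : ℤ := if s(i, j) = s(a, b) then 1 else 0

lemma ed_symm {n : ℕ} (a b i j : Fin n) : ed a b i j = ed a b j i := by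
  unfold ed; rw [Sym2.eq_swap]

lemma ed_diag {n : ℕ} {a b : Fin n} (h : a ≠ b) (i : Fin n) : ed a b i i = 0 := by
  unfold ed
  rw [if_neg]
  intro h'
  rw [Sym2.eq_iff] at h'
  rcases h' with ⟨h1, h2⟩ | ⟨h1, h2⟩
  · exact h (h1.symm.trans h2)
  · exact h (h2.symm.trans h1)

lemma sum_ed {n : ℕ} {a b : Fin n} (h : a ≠ b) (i : Fin n) :
    ∑ j, ed a b i j = (if i = a then 1 else 0) + (if i = b then 1 else 0) := by
  have h1 : ∀ j, ed a b i j = (if j = b then (if i = a then 1 else 0) else 0)
      + (if j = a then (if i = b then 1 else 0) else 0) := by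
    intro j
    simp only [ed, Sym2.eq_iff]
    by_cases hia : i = a <;> by_cases hib : i = b <;> by_cases hja : j = a <;>
      by_cases hjb : j = b <;> simp_all
  simp_rw [h1]
  rw [Finset.sum_add_distrib, Finset.sum_ite_eq', Finset.sum_ite_eq']
  simp

/-- value of a symmetric matrix at a pair -/
lemma mat_pair {n : ℕ} {A : Fin n → Fin n → ℤ} (hA : IsMat A) {a b i j : Fin n}
    (h : s(i, j) = s(a, b)) : A i j = A a b := by
  rw [Sym2.eq_iff] at h
  rcases h with ⟨rfl, rfl⟩ | ⟨rfl, rfl⟩
  · rfl
  · exact hA.2.1 _ _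

/-- the switch making `P, Q` nonadjacent -/
lemma switch {n : ℕ} {A : Fin n → Fin n → ℤ} (hA : IsMat A) {P Q w x : Fin n}
    (hPQ : P ≠ Q) (hPw : P ≠ w) (hPx : P ≠ x) (hQw : Q ≠ w) (hQx : Q ≠ x) (hwx : w ≠ x)
    (h1 : A P Q = 1) (h2 : A w x = 1) (h3 : A P w = 0) (h4 : A Q x = 0) :
    ∃ B, IsMat B ∧ (∀ i, ∑ j, B i j = ∑ j, A i j) ∧ B P Q = 0 := by
  refine ⟨fun i j => A i j - ed P Q i j - ed w x i j + ed P w i j + ed Q x i j, ⟨?_, ?_, ?_⟩, ?_, ?_⟩
  · intro i j
    have e1 : s(P, Q) ≠ s(w, x) := by rw [Ne, Sym2.eq_iff]; tauto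
    have e2 : s(P, Q) ≠ s(P, w) := by rw [Ne, Sym2.eq_iff]; tauto
    have e3 : s(P, Q) ≠ s(Q, x) := by rw [Ne, Sym2.eq_iff]; tauto
    have e4 : s(w, x) ≠ s(P, w) := by rw [Ne, Sym2.eq_iff]; tauto
    have e5 : s(w, x) ≠ s(Q, x) := by rw [Ne, Sym2.eq_iff]; tauto
    have e6 : s(P, w) ≠ s(Q, x) := by rw [Ne, Sym2.eq_iff]; tauto
    show A i j - ed P Q i j - ed w x i j + ed P w i j + ed Q x i j = 0 ∨
      A i j - ed P Q i j - ed w x i j + ed P w i j + ed Q x i j = 1
    unfold ed
    by_cases c1 : s(i, j) = s(P, Q)
    · have := mat_pair hA c1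
      rw [if_pos c1, if_neg (by rw [c1]; exact e1), if_neg (by rw [c1]; exact e2),
        if_neg (by rw [c1]; exact e3)]
      left; omega
    · by_cases c2 : s(i, j) = s(w, x)
      · have := mat_pair hA c2
        rw [if_neg c1, if_pos c2, if_neg (by rw [c2]; exact e4), if_neg (by rw [c2]; exact e5)]
        left; omega
      · by_cases c3 : s(i, j) = s(P, w)
        · have := mat_pair hA c3
          rw [if_neg c1, if_neg c2, if_pos c3, if_neg (by rw [c3]; exact e6)]
          right; omega
        · by_cases c4 : s(i, j) = s(Q, x)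
          · have := mat_pair hA c4
            rw [if_neg c1, if_neg c2, if_neg c3, if_pos c4]
            right; omega
          · rw [if_neg c1, if_neg c2, if_neg c3, if_neg c4]
            have := hA.1 i j
            omega
  · intro i j
    simp only
    rw [hA.2.1 i j, ed_symm P Q, ed_symm w x, ed_symm P w, ed_symm Q x]
  · intro i
    simp only
    rw [hA.2.2 i, ed_diag hPQ, ed_diag hwx, ed_diag hPw, ed_diag hQx]; rfl
  · intro i
    simp only [Finset.sum_add_distrib, Finset.sum_sub_distrib]
    rw [sum_ed hPQ, sum_ed hwx, sum_ed hPw, sum_ed hQx]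
    ring
  · have e1 : s(P, Q) ≠ s(w, x) := by rw [Ne, Sym2.eq_iff]; tauto
    have e2 : s(P, Q) ≠ s(P, w) := by rw [Ne, Sym2.eq_iff]; tauto
    have e3 : s(P, Q) ≠ s(Q, x) := by rw [Ne, Sym2.eq_iff]; tauto
    show A P Q - ed P Q P Q - ed w x P Q + ed P w P Q + ed Q x P Q = 0
    unfold ed
    rw [if_pos rfl, if_neg e1, if_neg e2, if_neg e3, h1]; rfl

lemma add_edge {n : ℕ} {A : Fin n → Fin n → ℤ} (hA : IsMat A) {P Q : Fin n} (hPQ : P ≠ Q)
    (h0 : A P Q = 0) : IsMat (fun i j => A i j + ed P Q i j) := by
  refine ⟨?_, ?_, ?_⟩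
  · intro i j
    simp only [ed]
    by_cases c1 : s(i, j) = s(P, Q)
    · have := mat_pair hA c1
      rw [if_pos c1]; right; omega
    · rw [if_neg c1]
      have := hA.1 i j
      omega
  · intro i j
    simp only
    rw [hA.2.1 i j, ed_symm P Q]
  · intro i
    simp only
    rw [hA.2.2 i, ed_diag hPQ]; rfl

/-- **Erdős–Gallai**, sufficiency for sorted sequences -/
theorem eg_sorted (n : ℕ) : ∀ s : ℕ, ∀ d : ℕ → ℕ, (∀ i, d (i + 1) ≤ d i) → (∀ i, n ≤ i → d i = 0) →
    ∑ i ∈ range n, d i = s → Even s →
    (∀ k ≤ n, ∑ i ∈ range k, d i ≤ k * (k - 1) + ∑ i ∈ Ico k n, min (d i) k) →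
    Gr (fun i : Fin n => d i) := by
  intro s
  induction s using Nat.strong_induction_on with
  | _ s ih =>
  intro d hd hz hs hev hk
  have hanti : Antitone d := antitone_nat_of_succ_le hd
  rcases Nat.eq_zero_or_pos s with h0 | hpos
  · -- all zero
    refine ⟨fun _ _ => 0, ⟨fun _ _ => Or.inl rfl, fun _ _ => rfl, fun _ => rfl⟩, ?_⟩
    intro i
    have : d i = 0 := by
      have h1 := Finset.sum_eq_zero_iff.1 (hs.trans h0) i (Finset.mem_range.2 i.2)
      exact h1
    simp [this]
  -- number of positive entries
  have hex : ∃ N, d N = 0 := ⟨n, hz n le_rfl⟩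
  obtain ⟨N, hN, hNmin⟩ : ∃ N, d N = 0 ∧ ∀ m < N, d m ≠ 0 :=
    ⟨Nat.find hex, Nat.find_spec hex, fun m hm => Nat.find_min hex hm⟩
  have hNn : N ≤ n := by
    by_contra hc
    exact hNmin n (by omega) (hz n le_rfl)
  have hzero : ∀ i, N ≤ i → d i = 0 := fun i hi => Nat.le_zero.1 (hN ▸ hanti hi)
  have hN1 : 1 ≤ N := by
    by_contra hc
    have : ∑ i ∈ range n, d i = 0 := Finset.sum_eq_zero fun i _ => hzero i (by omega)
    omega
  have hD : d 0 ≤ N - 1 := by
    have h1 := hk 1 (by omega)
    simp only [Finset.sum_range_one, Nat.sub_self, Nat.mul_zero, Nat.zero_add] at h1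
    have h2 : ∑ i ∈ Ico 1 n, min (d i) 1 ≤ N - 1 := by
      rw [← Finset.sum_Ico_consecutive _ hN1 hNn]
      have h3 : ∑ i ∈ Ico N n, min (d i) 1 = 0 := by
        refine Finset.sum_eq_zero fun i hi => ?_
        rw [hzero i (Finset.mem_Ico.1 hi).1]; rfl
      have h4 : ∑ i ∈ Ico 1 N, min (d i) 1 ≤ ∑ i ∈ Ico 1 N, 1 :=
        Finset.sum_le_sum fun i _ => min_le_right _ _
      simp only [Finset.sum_const, Nat.card_Ico, smul_eq_mul, mul_one] at h4
      omega
    omega
  have hd0 : 1 ≤ d 0 := Nat.one_le_iff_ne_zero.2 (hNmin 0 (by omega))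
  obtain ⟨q, hq⟩ : ∃ q, N = q + 1 := ⟨N - 1, by omega⟩
  have hq1 : 1 ≤ q := by omega
  have hdq : 1 ≤ d q := Nat.one_le_iff_ne_zero.2 (hNmin q (by omega))
  have hdq1 : d (q + 1) = 0 := hzero _ (by omega)
  have hqn : q < n := by omega
  -- first descent
  have hex2 : ∃ T, d (T + 1) < d T := ⟨q, by omega⟩
  obtain ⟨T, hT, hTmin⟩ : ∃ T, d (T + 1) < d T ∧ ∀ m < T, ¬ d (m + 1) < d m :=
    ⟨Nat.find hex2, Nat.find_spec hex2, fun m hm => Nat.find_min hex2 hm⟩
  have hTq : T ≤ q := by
    by_contra hc
    exact hTmin q (by omega) (by omega)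
  have hconst : ∀ m ≤ T, d m = d 0 := by
    intro m hm
    induction m with
    | zero => rfl
    | succ m ihm =>
      have h1 := hTmin m (by omega)
      have h2 := hd m
      have h3 := ihm (by omega)
      omega
  obtain ⟨p, hpq, hpc, hpd⟩ : ∃ p, p < q ∧ (∀ m ≤ p, d m = d 0) ∧
      (d (p + 1) < d p ∨ p + 1 = q) := by
    rcases Nat.lt_or_ge T q with h | h
    · exact ⟨T, h, hconst, Or.inl hT⟩
    · exact ⟨q - 1, by omega, fun m hm => hconst m (by omega), Or.inr (by omega)⟩
  set d' : ℕ → ℕ := fun i => if i = p ∨ i = q then d i - 1 else d i with hd'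
  have hdp : 1 ≤ d p := by rw [hpc p le_rfl]; exact hd0
  have hpt : ∀ i, d i = d' i + (if i = p then 1 else 0) + (if i = q then 1 else 0) := by
    intro i
    simp only [hd']
    by_cases h1 : i = p
    · subst h1
      rw [if_pos (Or.inl rfl), if_pos rfl, if_neg (by omega)]; omega
    · by_cases h2 : i = q
      · subst h2
        rw [if_pos (Or.inr rfl), if_neg h1, if_pos rfl]; omega
      · rw [if_neg (by tauto), if_neg h1, if_neg h2]; rfl
  have hdle : ∀ i, d' i ≤ d i := fun i => by rw [hpt i]; omega
  have hd'anti : ∀ i, d' (i + 1) ≤ d' i := by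
    intro i
    have h1 := hd i
    have h2 := hpt i
    have h3 := hpt (i + 1)
    by_cases hip : i = p
    · subst hip
      rw [if_pos rfl, if_neg (by omega)] at h2
      rw [if_neg (by omega)] at h3
      by_cases hiq : i + 1 = q
      · rw [if_pos hiq] at h3
        omega
      · rw [if_neg hiq] at h3
        rcases hpd with h | h
        · omega
        · exact absurd h hiq
    · rw [if_neg hip] at h2
      by_cases hiq : i = q
      · subst hiq
        omega
      · rw [if_neg hiq] at h2
        omega
  have hsum : ∀ k, ∑ i ∈ range k, d i = ∑ i ∈ range k, d' i + (if p < k then 1 else 0)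
      + (if q < k then 1 else 0) := by
    intro k
    rw [Finset.sum_congr rfl (fun i _ => hpt i), Finset.sum_add_distrib, Finset.sum_add_distrib,
      Finset.sum_ite_eq', Finset.sum_ite_eq']
    simp only [Finset.mem_range]
  have hs' : ∑ i ∈ range n, d' i = s - 2 := by
    have := hsum n
    rw [if_pos (by omega), if_pos hqn] at this
    omega
  have hs2 : 2 ≤ s := by
    have := hsum n
    rw [if_pos (by omega), if_pos hqn] at this
    omega
  -- EG for d'
  have hk' : ∀ k ≤ n, ∑ i ∈ range k, d' i ≤ k * (k - 1) + ∑ i ∈ Ico k n, min (d' i) k := by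
    intro k hkn
    have hE := hk k hkn
    have hS := hsum k
    have hM : ∑ i ∈ Ico k n, min (d i) k ≤ ∑ i ∈ Ico k n, min (d' i) k
        + (if k ≤ p then 1 else 0) + (if k ≤ q then 1 else 0) := by
      have h1 : ∑ i ∈ Ico k n, min (d i) k ≤ ∑ i ∈ Ico k n, (min (d' i) k
          + (if i = p then 1 else 0) + (if i = q then 1 else 0)) := by
        refine Finset.sum_le_sum fun i _ => ?_
        have := hpt i
        split_ifs at this ⊢ <;> omega
      rw [Finset.sum_add_distrib, Finset.sum_add_distrib, Finset.sum_ite_eq',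
        Finset.sum_ite_eq'] at h1
      simp only [Finset.mem_Ico] at h1
      refine h1.trans ?_
      have e1 : (if k ≤ p ∧ p < n then 1 else 0) ≤ (if k ≤ p then 1 else 0) := by
        split_ifs <;> omega
      have e2 : (if k ≤ q ∧ q < n then 1 else 0) ≤ (if k ≤ q then 1 else 0) := by
        split_ifs <;> omega
      omega
    rcases Nat.lt_or_ge p k with hpk | hkp
    · rw [if_pos hpk] at hS
      rw [if_neg (by omega)] at hM
      by_cases hqk : q < k
      · rw [if_pos hqk] at hS
        rw [if_neg (by omega)] at hM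
        omega
      · rw [if_neg hqk] at hS
        rw [if_pos (by omega)] at hM
        omega
    · rw [if_neg (by omega), if_neg (by omega)] at hS
      have hconstk : ∑ i ∈ range k, d i = k * d 0 := by
        rw [Finset.sum_congr rfl (fun i hi => hpc i (by have := Finset.mem_range.1 hi; omega))]
        simp
      rcases Nat.eq_zero_or_pos k with hk0 | hk0
      · subst hk0; simp
      rcases lt_trichotomy (d 0) k with hlt | heq | hgt
      · -- D ≤ k-1
        have : k * d 0 ≤ k * (k - 1) := Nat.mul_le_mul_left _ (by omega)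
        omega
      · -- D = k
        have hmin : ∑ i ∈ Ico k n, min (d' i) k = ∑ i ∈ Ico k n, d' i := by
          refine Finset.sum_congr rfl fun i _ => ?_
          have h1 := hdle i
          have h2 := hanti (Nat.zero_le i)
          omega
        have hsub : ∑ i ∈ Ico k n, d i = ∑ i ∈ Ico k n, d' i + 1 + 1 := by
          rw [Finset.sum_congr rfl (fun i _ => hpt i), Finset.sum_add_distrib,
            Finset.sum_add_distrib, Finset.sum_ite_eq', Finset.sum_ite_eq',
            if_pos (Finset.mem_Ico.2 ⟨hkp, by omega⟩), if_pos (Finset.mem_Ico.2 ⟨by omega, hqn⟩)]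
        have hpeel : ∑ i ∈ Ico k n, d i = d k + ∑ i ∈ Ico (k + 1) n, d i :=
          Finset.sum_eq_sum_Ico_succ_bot (by omega) _
        have hdk : d k = k := by rw [hpc k hkp, heq]
        have htwo : 2 ≤ ∑ i ∈ Ico (k + 1) n, d i := by
          rcases Nat.lt_or_ge (k + 1) q with h | h
          · have h1 : ∑ i ∈ ({k + 1, q} : Finset ℕ), d i ≤ ∑ i ∈ Ico (k + 1) n, d i := by
              refine Finset.sum_le_sum_of_subset ?_
              intro i hi
              simp only [Finset.mem_insert, Finset.mem_singleton] at hi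
              rw [Finset.mem_Ico]
              omega
            rw [Finset.sum_pair (by omega)] at h1
            have h2 : 1 ≤ d (k + 1) := Nat.one_le_iff_ne_zero.2 (hNmin _ (by omega))
            omega
          · have hkq : k + 1 = q := by omega
            have h1 : ∑ i ∈ Ico (k + 1) n, d i = d q := by
              rw [hkq, Finset.sum_eq_sum_Ico_succ_bot hqn]
              rw [Finset.sum_eq_zero fun i hi => hzero i (by have := Finset.mem_Ico.1 hi; omega)]
              rfl
            have h2 : ∑ i ∈ range n, d i = ∑ i ∈ range k, d i + ∑ i ∈ Ico k n, d i :=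
              (Finset.sum_range_add_sum_Ico _ hkn).symm
            rw [hconstk, hpeel, h1, hdk, heq] at h2
            have h3 : Even (k * k + k) := by
              have := Nat.even_mul_succ_self k
              rwa [Nat.mul_add, Nat.mul_one] at this
            rw [h1]
            have h4 : Even (d q) := by
              have h5 : s = (k * k + k) + d q := by omega
              rw [h5, Nat.even_add] at hev
              exact hev.1 h3
            rcases h4 with ⟨r, hr⟩
            omega
        rw [hmin]
        rw [heq] at hconstk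
        have hkk : k * k = k * (k - 1) + k := by
          obtain ⟨m, rfl⟩ : ∃ m, k = m + 1 := ⟨k - 1, by omega⟩
          simp only [Nat.add_sub_cancel]; ring
        omega
      · -- D ≥ k+1
        by_cases hqk : k + 1 ≤ d q
        · have hmin : ∑ i ∈ Ico k n, min (d' i) k = ∑ i ∈ Ico k n, min (d i) k := by
            refine Finset.sum_congr rfl fun i _ => ?_
            have h1 := hpt i
            by_cases hip : i = p
            · subst hip
              have h2 := hpc i le_rfl
              rw [if_pos rfl, if_neg (by omega)] at h1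
              omega
            · by_cases hiq : i = q
              · subst hiq
                rw [if_neg hip, if_pos rfl] at h1
                omega
              · rw [if_neg hip, if_neg hiq] at h1
                omega
          omega
        · -- strict inequality
          have hMle : ∑ i ∈ Ico k n, min (d i) k ≤ ∑ i ∈ Ico k n, min (d' i) k + 1 := by
            have h1 : ∑ i ∈ Ico k n, min (d i) k ≤ ∑ i ∈ Ico k n, (min (d' i) k
                + (if i = q then 1 else 0)) := by
              refine Finset.sum_le_sum fun i _ => ?_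
              have h1 := hpt i
              by_cases hip : i = p
              · subst hip
                have h2 := hpc i le_rfl
                rw [if_pos rfl, if_neg (by omega)] at h1
                omega
              · rw [if_neg hip] at h1
                split_ifs at h1 ⊢ <;> omega
            rw [Finset.sum_add_distrib, Finset.sum_ite_eq',
              if_pos (Finset.mem_Ico.2 ⟨by omega, hqn⟩)] at h1
            exact h1
          have hstrict : k * d 0 < k * (k - 1) + ∑ i ∈ Ico k n, min (d i) k := by
            by_contra hc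
            have heq : k * d 0 = k * (k - 1) + ∑ i ∈ Ico k n, min (d i) k := by omega
            have hpeel : ∑ i ∈ Ico k n, min (d i) k
                = min (d k) k + ∑ i ∈ Ico (k + 1) n, min (d i) k :=
              Finset.sum_eq_sum_Ico_succ_bot (by omega) _
            have hdk : d k = d 0 := hpc k hkp
            have hE1 := hk (k + 1) (by omega)
            have hc1 : ∑ i ∈ range (k + 1), d i = (k + 1) * d 0 := by
              rw [Finset.sum_range_succ, hconstk, hdk]; ring
            rw [hc1] at hE1
            set M := ∑ i ∈ Ico (k + 1) n, min (d i) k with hMdef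
            set Q := ∑ i ∈ Ico (k + 1) n, (if k + 1 ≤ d i then 1 else 0) with hQdef
            have hM1 : ∑ i ∈ Ico (k + 1) n, min (d i) (k + 1) = M + Q := by
              rw [hMdef, hQdef, ← Finset.sum_add_distrib]
              refine Finset.sum_congr rfl fun i _ => ?_
              split_ifs <;> omega
            have hM2 : k * Q + 1 ≤ M := by
              have hqm : q ∈ Ico (k + 1) n := Finset.mem_Ico.2 ⟨by omega, hqn⟩
              have h1 : ∑ i ∈ Ico (k + 1) n, (k * (if k + 1 ≤ d i then 1 else 0)
                  + (if i = q then 1 else 0)) ≤ M := by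
                rw [hMdef]
                refine Finset.sum_le_sum fun i _ => ?_
                by_cases hiq : i = q
                · subst hiq
                  rw [if_neg hqk, if_pos rfl]
                  omega
                · rw [if_neg hiq]
                  split_ifs <;> omega
              rw [Finset.sum_add_distrib, ← Finset.mul_sum, Finset.sum_ite_eq', if_pos hqm] at h1
              exact h1
            have hmink : min (d k) k = k := by omega
            obtain ⟨e, he⟩ : ∃ e, d 0 = k + e := ⟨d 0 - k, by omega⟩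
            obtain ⟨m, hm⟩ : ∃ m, k = m + 1 := ⟨k - 1, by omega⟩
            rw [hpeel, hmink, he] at heq
            rw [hM1, he] at hE1
            have hkk : k * (k - 1) + k = k * k := by
              rw [hm]; simp only [Nat.add_sub_cancel]; ring
            have hMe : M = k * e := by
              have : k * (k + e) = k * k + k * e := by ring
              omega
            have hEe : e ≤ Q := by
              have h1 : (k + 1) * (k + e) = (k + 1) * k + k * e + e := by ring
              have h2 : (k + 1) * (k + 1 - 1) = (k + 1) * k := by simp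
              omega
            have h3 : k * e ≤ k * Q := Nat.mul_le_mul_left _ hEe
            omega
          omega
  obtain ⟨A, hA, hAd⟩ := ih (s - 2) (by omega) d' hd'anti
    (fun i hi => Nat.le_zero.1 ((hdle i).trans (hz i hi).le)) hs'
    (by rcases hev with ⟨r, hr⟩; exact ⟨r - 1, by omega⟩) hk'
  set P : Fin n := ⟨p, by omega⟩ with hP
  set Q : Fin n := ⟨q, hqn⟩ with hQ
  have hPQ : P ≠ Q := by
    intro h
    have := congrArg Fin.val h
    simp only [hP, hQ] at this
    omega
  obtain ⟨B, hB, hBd, hB0⟩ : ∃ B, IsMat B ∧ (∀ i, ∑ j, B i j = ∑ j, A i j) ∧ B P Q = 0 := by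
    rcases hA.1 P Q with h | h
    · exact ⟨A, hA, fun _ => rfl, h⟩
    -- find w
    have hw : ∃ w : Fin n, w ≠ P ∧ (w : ℕ) < N ∧ A P w = 0 := by
      by_contra hc
      push Not at hc
      have h1 : ∀ w : Fin n, (if (w : ℕ) < N ∧ w ≠ P then (1 : ℤ) else 0) ≤ A P w := by
        intro w
        split_ifs with hcond
        · have := hc w hcond.2 hcond.1
          rcases hA.1 P w with h' | h'
          · exact absurd h' this
          · omega
        · rcases hA.1 P w with h' | h' <;> omega
      have h2 := Finset.sum_le_sum fun w (_ : w ∈ (Finset.univ : Finset (Fin n))) => h1 w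
      rw [hAd P] at h2
      have h3 : ∑ w : Fin n, (if (w : ℕ) < N ∧ w ≠ P then (1 : ℤ) else 0) = N - 1 := by
        have h4 : ∀ w : Fin n, (if (w : ℕ) < N ∧ w ≠ P then (1 : ℤ) else 0)
            = (if (w : ℕ) < N then 1 else 0) - (if w = P then 1 else 0) := by
          intro w
          by_cases hwP : w = P
          · subst hwP
            have : ((⟨p, by omega⟩ : Fin n) : ℕ) < N := by simp only; omega
            simp only [hP, this, ne_eq, not_true_eq_false, and_false, if_false, if_true]
            rfl
          · simp [hwP]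
        simp_rw [h4]
        rw [Finset.sum_sub_distrib, Finset.sum_ite_eq', if_pos (Finset.mem_univ _)]
        have h5 : ∑ w : Fin n, (if (w : ℕ) < N then (1 : ℤ) else 0)
            = ∑ i ∈ range n, (if i < N then (1 : ℤ) else 0) :=
          Fin.sum_univ_eq_sum_range (fun i => if i < N then (1 : ℤ) else 0) n
        rw [h5, ← Finset.sum_filter]
        have h6 : (range n).filter (· < N) = range N := by
          ext i; simp only [Finset.mem_filter, Finset.mem_range]; omega
        rw [h6]; simp
      rw [h3] at h2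
      have h4 : d' p = d p - 1 := by simp [hd']
      have h5 : d p = d 0 := hpc p le_rfl
      have h6 : ((fun i : Fin n => d' i) P : ℕ) = d' p := rfl
      have h7 : (d' (P : ℕ) : ℤ) = d' p := rfl
      rw [h7] at h2
      omega
    obtain ⟨w, hwP, hwN, hw0⟩ := hw
    have hwQ : Q ≠ w := by
      rintro rfl
      omega
    have hwp : (w : ℕ) ≠ p := fun h => hwP (Fin.ext h)
    have hwq : (w : ℕ) ≠ q := fun h => hwQ (Fin.ext h.symm)
    have hdw : d' w = d w := by simp only [hd']; rw [if_neg (by tauto)]
    have hdq' : d' q = d q - 1 := by simp [hd']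
    have hlt : ∑ j, A Q j < ∑ j, A w j := by
      have h1 : d q ≤ d w := hanti (by omega)
      have h7 : ∑ j, A Q j = (d' q : ℤ) := hAd Q
      have h8 : ∑ j, A w j = (d' (w : ℕ) : ℤ) := hAd w
      rw [h7, h8]
      omega
    have hx : ∃ x : Fin n, x ≠ w ∧ x ≠ Q ∧ A Q x < A w x := by
      by_contra hc
      push Not at hc
      have h1 : ∑ j, A w (Equiv.swap w Q j) ≤ ∑ j, A Q j := by
        refine Finset.sum_le_sum fun j _ => ?_
        by_cases hjw : j = w
        · subst hjw
          rw [Equiv.swap_apply_left, hA.2.1]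
        · by_cases hjQ : j = Q
          · rw [hjQ, Equiv.swap_apply_right, hA.2.2, hA.2.2]
          · rw [Equiv.swap_apply_of_ne_of_ne hjw hjQ]
            exact hc j hjw hjQ
      rw [Equiv.sum_comp (Equiv.swap w Q) (fun j => A w j)] at h1
      omega
    obtain ⟨x, hxw, hxQ, hxlt⟩ := hx
    have hwx1 : A w x = 1 := by
      rcases hA.1 w x with h' | h' <;> rcases hA.1 Q x with h'' | h'' <;> omega
    have hQx0 : A Q x = 0 := by
      rcases hA.1 w x with h' | h' <;> rcases hA.1 Q x with h'' | h'' <;> omega
    have hxP : P ≠ x := by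
      rintro rfl
      rw [hA.2.1] at hwx1
      omega
    exact switch hA hPQ hwP.symm hxP hwQ hxQ.symm hxw.symm h hwx1 hw0 hQx0
  refine ⟨_, add_edge hB hPQ hB0, ?_⟩
  intro i
  rw [Finset.sum_add_distrib, sum_ed hPQ, hBd i, hAd i]
  have := hpt i
  have e1 : (i = P) ↔ ((i : ℕ) = p) := by rw [Fin.ext_iff]
  have e2 : (i = Q) ↔ ((i : ℕ) = q) := by rw [Fin.ext_iff]
  simp only [e1, e2]
  rw [this]
  push_cast
  ring

end Pool.Agent.H51.EG
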