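import Pool.Agent.H51.EG

/-! # Erdős–Gallai: subset form, necessity, tightness and gluing -/

namespace Pool.Agent.H51.EG

open Finset

theorem eg_subset {n : ℕ} (d : Fin n → ℕ) (hev : Even (∑ i, d i))
    (h : ∀ K : Finset (Fin n), ∑ i ∈ K, d i ≤ K.card * (K.card - 1) + ∑ i ∈ Kᶜ, min (d i) K.card) :
    Gr d := by
  classical
  set σ : Equiv.Perm (Fin n) := Tuple.sort (fun i => OrderDual.toDual (d i)) with hσ
  have hmono : Monotone ((fun i => OrderDual.toDual (d i)) ∘ σ) := Tuple.monotone_sort _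
  have hanti : ∀ i j : Fin n, i ≤ j → d (σ j) ≤ d (σ i) := fun i j hij => hmono hij
  set d2 : ℕ → ℕ := fun i => if hi : i < n then d (σ ⟨i, hi⟩) else 0 with hd2
  have hd2f : ∀ i : Fin n, d2 i = d (σ i) := fun i => by simp [hd2]
  have hkey : ∀ (p : ℕ → Prop) [DecidablePred p] (G : ℕ → ℕ),
      ∑ j ∈ Finset.univ.filter (fun j : Fin n => p (σ.symm j)), G (d j)
        = ∑ i ∈ (range n).filter p, G (d2 i) := by
    intro p _ G
    rw [Finset.sum_filter, Finset.sum_filter, ← Equiv.sum_comp σ,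
      ← Fin.sum_univ_eq_sum_range (fun i => if p i then G (d2 i) else 0) n]
    refine Finset.sum_congr rfl fun i _ => ?_
    rw [hd2f, Equiv.symm_apply_apply]
  have h2 : Gr (fun i : Fin n => d2 i) := by
    refine eg_sorted n (∑ i, d i) d2 ?_ ?_ ?_ hev ?_
    · intro i
      simp only [hd2]
      by_cases hi : i + 1 < n
      · rw [dif_pos hi, dif_pos (by omega)]
        exact hanti _ _ (by simp [Fin.le_def])
      · rw [dif_neg hi]; exact Nat.zero_le _
    · intro i hi
      simp only [hd2]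
      rw [dif_neg (by omega)]
    · have := hkey (fun _ => True) id
      simpa using this.symm
    · intro k hk
      set K : Finset (Fin n) := Finset.univ.filter (fun j : Fin n => ((σ.symm j : Fin n) : ℕ) < k)
        with hK
      have hfil : (range n).filter (· < k) = range k := by
        ext i; simp only [Finset.mem_filter, Finset.mem_range]; omega
      have hfil2 : (range n).filter (fun i => ¬ i < k) = Ico k n := by
        ext i; simp only [Finset.mem_filter, Finset.mem_range, Finset.mem_Ico]; omega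
      have hcard : K.card = k := by
        have := hkey (· < k) (fun _ => 1)
        rw [hfil] at this
        simpa using this
      have h1 := hkey (· < k) id
      rw [hfil] at h1
      have h3 := hkey (fun i => ¬ i < k) (fun x => min x k)
      rw [hfil2] at h3
      have h4 : Kᶜ = Finset.univ.filter (fun j : Fin n => ¬ ((σ.symm j : Fin n) : ℕ) < k) := by
        rw [hK, Finset.compl_filter]
      have h5 := h K
      rw [hcard, h4, h3] at h5
      simp only [id] at h1
      rw [← h1]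
      exact h5
  obtain ⟨A, hA, hAd⟩ := h2
  refine ⟨fun i j => A (σ.symm i) (σ.symm j), ⟨?_, ?_, ?_⟩, ?_⟩
  · intro i j; exact hA.1 _ _
  · intro i j; exact hA.2.1 _ _
  · intro i; exact hA.2.2 _
  · intro i
    rw [Equiv.sum_comp σ.symm (fun j => A (σ.symm i) j), hAd]
    simp only
    rw [hd2f, Equiv.apply_symm_apply]

theorem eg_subset' {n : ℕ} (d : Fin n → ℕ) (hev : Even (∑ i, d i))
    (h : ∀ K : Finset (Fin n), (∀ i ∈ K, 0 < d i) →
      ∑ i ∈ K, d i ≤ K.card * (K.card - 1) + ∑ i ∈ Kᶜ, min (d i) K.card) :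
    Gr d := by
  classical
  refine eg_subset d hev fun K => ?_
  set K0 := K.filter (fun i => 0 < d i) with hK0
  have h1 := h K0 (fun i hi => (Finset.mem_filter.1 hi).2)
  have hsub : K0 ⊆ K := Finset.filter_subset _ _
  have h2 : ∑ i ∈ K, d i = ∑ i ∈ K0, d i := by
    rw [hK0, Finset.sum_filter]
    refine Finset.sum_congr rfl fun i _ => ?_
    split_ifs <;> omega
  have hc : K0.card ≤ K.card := Finset.card_le_card hsub
  have h3 : ∑ i ∈ K0ᶜ, min (d i) K0.card ≤ ∑ i ∈ Kᶜ, min (d i) K.card := by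
    have h4 : ∑ i ∈ K0ᶜ, min (d i) K0.card = ∑ i ∈ Kᶜ, min (d i) K0.card := by
      symm
      refine Finset.sum_subset (Finset.compl_subset_compl.2 hsub) ?_
      intro i hi hi'
      rw [Finset.mem_compl] at hi hi'
      rw [not_not] at hi'
      have : ¬ 0 < d i := fun hpos => hi (Finset.mem_filter.2 ⟨hi', hpos⟩)
      have : d i = 0 := by omega
      simp [this]
    rw [h4]
    exact Finset.sum_le_sum fun i _ => min_le_min le_rfl hc
  have h5 : K0.card * (K0.card - 1) ≤ K.card * (K.card - 1) := Nat.mul_le_mul hc (by omega)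
  omega

lemma mat_le {n : ℕ} {A : Fin n → Fin n → ℤ} (hA : IsMat A) (i j : Fin n) : A i j ≤ 1 := by
  rcases hA.1 i j with h | h <;> omega

lemma mat_nonneg {n : ℕ} {A : Fin n → Fin n → ℤ} (hA : IsMat A) (i j : Fin n) : 0 ≤ A i j := by
  rcases hA.1 i j with h | h <;> omega

lemma inner_le {n : ℕ} {A : Fin n → Fin n → ℤ} (hA : IsMat A) (K : Finset (Fin n)) :
    ∑ i ∈ K, ∑ j ∈ K, A i j ≤ (K.card : ℤ) * (K.card - 1) := by
  classical
  have h1 : ∀ i ∈ K, ∑ j ∈ K, A i j ≤ (K.card : ℤ) - 1 := by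
    intro i hi
    have h2 : ∑ j ∈ K, A i j ≤ ∑ j ∈ K, (1 - (if j = i then (1 : ℤ) else 0)) := by
      refine Finset.sum_le_sum fun j _ => ?_
      by_cases hji : j = i
      · subst hji; rw [hA.2.2, if_pos rfl]; omega
      · rw [if_neg hji]; have := mat_le hA i j; omega
    rw [Finset.sum_sub_distrib, Finset.sum_ite_eq', if_pos hi] at h2
    simpa using h2
  calc ∑ i ∈ K, ∑ j ∈ K, A i j ≤ ∑ i ∈ K, ((K.card : ℤ) - 1) := Finset.sum_le_sum h1
    _ = (K.card : ℤ) * (K.card - 1) := by rw [Finset.sum_const, nsmul_eq_mul]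

lemma split_sum {n : ℕ} {A : Fin n → Fin n → ℤ} (hA : IsMat A) {d : Fin n → ℕ}
    (hd : ∀ i, ∑ j, A i j = d i) (K : Finset (Fin n)) :
    ∑ i ∈ K, (d i : ℤ) = ∑ i ∈ K, ∑ j ∈ K, A i j + ∑ j ∈ Kᶜ, ∑ i ∈ K, A j i := by
  classical
  have h1 : ∀ i, (d i : ℤ) = ∑ j ∈ K, A i j + ∑ j ∈ Kᶜ, A i j := by
    intro i
    rw [← hd i, Finset.sum_add_sum_compl]
  rw [Finset.sum_congr rfl (fun i _ => h1 i), Finset.sum_add_distrib]
  congr 1
  rw [Finset.sum_comm]
  exact Finset.sum_congr rfl fun j _ => Finset.sum_congr rfl fun i _ => hA.2.1 _ _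

theorem eg_nec {n : ℕ} {d : Fin n → ℕ} (h : Gr d) (K : Finset (Fin n)) :
    ∑ i ∈ K, d i ≤ K.card * (K.card - 1) + ∑ i ∈ Kᶜ, min (d i) K.card := by
  classical
  obtain ⟨A, hA, hd⟩ := h
  have h1 := split_sum hA hd K
  have h2 := inner_le hA K
  have h3 : ∑ j ∈ Kᶜ, ∑ i ∈ K, A j i ≤ ∑ j ∈ Kᶜ, ((min (d j) K.card : ℕ) : ℤ) := by
    refine Finset.sum_le_sum fun j _ => ?_
    have e1 : ∑ i ∈ K, A j i ≤ d j := by
      rw [← hd j]
      exact Finset.sum_le_sum_of_subset_of_nonneg (Finset.subset_univ _)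
        (fun i _ _ => mat_nonneg hA _ _)
    have e2 : ∑ i ∈ K, A j i ≤ K.card := by
      have := Finset.sum_le_card_nsmul K (fun i => A j i) 1 (fun i _ => mat_le hA _ _)
      simpa using this
    push_cast
    exact le_min e1 e2
  rcases Nat.eq_zero_or_pos K.card with hk | hk
  · rw [Finset.card_eq_zero] at hk
    subst hk; simp
  · have h4 : ((K.card * (K.card - 1) : ℕ) : ℤ) = (K.card : ℤ) * (K.card - 1) := by
      rw [Nat.cast_mul, Nat.cast_sub hk]; rfl
    have h5 : ((∑ i ∈ K, d i : ℕ) : ℤ) ≤ ((K.card * (K.card - 1) + ∑ i ∈ Kᶜ, min (d i) K.card : ℕ) : ℤ) := by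
      rw [Nat.cast_add, h4, Nat.cast_sum, Nat.cast_sum, h1]
      exact add_le_add h2 h3
    exact_mod_cast h5

/-- tight sets: a clique that takes all the edges of the other vertices -/
theorem tight {n : ℕ} {A : Fin n → Fin n → ℤ} (hA : IsMat A) {d : Fin n → ℕ}
    (hd : ∀ i, ∑ j, A i j = d i) (K : Finset (Fin n))
    (ht : (∑ i ∈ K, (d i : ℤ)) = (K.card : ℤ) * (K.card - 1) + ∑ i ∈ Kᶜ, (d i : ℤ)) :
    (∀ i ∈ K, ∀ j ∈ K, i ≠ j → A i j = 1) ∧ ∀ j ∈ Kᶜ, ∑ i ∈ K, A j i = d j := by
  classical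
  have h1 := split_sum hA hd K
  have h2 := inner_le hA K
  have e1 : ∀ j ∈ Kᶜ, ∑ i ∈ K, A j i ≤ (d j : ℤ) := by
    intro j _
    rw [← hd j]
    exact Finset.sum_le_sum_of_subset_of_nonneg (Finset.subset_univ _)
      (fun i _ _ => mat_nonneg hA _ _)
  have h3 := Finset.sum_le_sum e1
  have h4 : ∑ i ∈ K, ∑ j ∈ K, A i j = (K.card : ℤ) * (K.card - 1) := by linarith
  have h5 : ∑ j ∈ Kᶜ, ∑ i ∈ K, A j i = ∑ i ∈ Kᶜ, (d i : ℤ) := by linarith
  refine ⟨?_, (Finset.sum_eq_sum_iff_of_le e1).1 h5⟩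
  have h6 : ∀ i ∈ K, ∑ j ∈ K, A i j ≤ ∑ j ∈ K, (1 - (if j = i then (1 : ℤ) else 0)) := by
    intro i _
    refine Finset.sum_le_sum fun j _ => ?_
    by_cases hji : j = i
    · subst hji; rw [hA.2.2, if_pos rfl]; omega
    · rw [if_neg hji]; have := mat_le hA i j; omega
  have h7 : ∑ i ∈ K, ∑ j ∈ K, (1 - (if j = i then (1 : ℤ) else 0)) = (K.card : ℤ) * (K.card - 1) := by
    have : ∀ i ∈ K, ∑ j ∈ K, (1 - (if j = i then (1 : ℤ) else 0)) = (K.card : ℤ) - 1 := by
      intro i hi
      rw [Finset.sum_sub_distrib, Finset.sum_ite_eq', if_pos hi]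
      simp
    rw [Finset.sum_congr rfl this, Finset.sum_const, nsmul_eq_mul]
  have h8 := (Finset.sum_eq_sum_iff_of_le h6).1 (h4.trans h7.symm)
  intro i hi j hj hij
  have h9 := h8 i hi
  have h10 : ∀ j ∈ K, A i j ≤ 1 - (if j = i then (1 : ℤ) else 0) := by
    intro j _
    by_cases hji : j = i
    · subst hji; rw [hA.2.2, if_pos rfl]; omega
    · rw [if_neg hji]; have := mat_le hA i j; omega
  have h11 := (Finset.sum_eq_sum_iff_of_le h10).1 h9 j hj
  rw [h11, if_neg (Ne.symm hij)]; rfl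

/-- the graph of a matrix -/
def toG {n : ℕ} (A : Fin n → Fin n → ℤ) (hA : IsMat A) : SimpleGraph (Fin n) where
  Adj i j := A i j = 1
  symm := ⟨fun i j h => by rw [hA.2.1]; exact h⟩
  loopless := ⟨fun i h => by rw [hA.2.2] at h; exact absurd h (by decide)⟩

open Classical in
/-- the matrix of a graph -/
noncomputable def ofG {n : ℕ} (G : SimpleGraph (Fin n)) : Fin n → Fin n → ℤ :=
  fun i j => if G.Adj i j then 1 else 0

lemma ofG_isMat {n : ℕ} (G : SimpleGraph (Fin n)) : IsMat (ofG G) := by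
  classical
  refine ⟨?_, ?_, ?_⟩
  · intro i j; unfold ofG; split_ifs <;> simp
  · intro i j; unfold ofG; simp only [G.adj_comm]
  · intro i; unfold ofG; rw [if_neg G.irrefl]

/-- `G` has degree sequence `d` -/
def Realizes {n : ℕ} (G : SimpleGraph (Fin n)) (d : Fin n → ℕ) : Prop :=
  ∀ i, (G.neighborSet i).ncard = d i

lemma sum_ofG {n : ℕ} (G : SimpleGraph (Fin n)) (i : Fin n) :
    ∑ j, ofG G i j = ((G.neighborSet i).ncard : ℤ) := by
  classical
  unfold ofG
  rw [Finset.sum_boole, ← Set.ncard_coe_finset]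
  congr 2
  ext j
  simp

lemma ofG_adj {n : ℕ} (G : SimpleGraph (Fin n)) (i j : Fin n) : ofG G i j = 1 ↔ G.Adj i j := by
  classical
  unfold ofG; split_ifs <;> simp_all

lemma toG_realizes {n : ℕ} {A : Fin n → Fin n → ℤ} (hA : IsMat A) {d : Fin n → ℕ}
    (hd : ∀ i, ∑ j, A i j = d i) : Realizes (toG A hA) d := by
  classical
  intro i
  have h1 : ofG (toG A hA) = A := by
    funext i j
    rcases hA.1 i j with h | h
    · have : ¬ (toG A hA).Adj i j := by
        intro h'; have : A i j = 1 := h'; omega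
      rw [← ofG_adj] at this
      rcases (ofG_isMat (toG A hA)).1 i j with h' | h'
      · rw [h, h']
      · exact absurd h' this
    · rw [h, ofG_adj]; exact h
  have h2 := sum_ofG (toG A hA) i
  rw [h1, hd i] at h2
  exact_mod_cast h2.symm

lemma gr_of_realizes {n : ℕ} {G : SimpleGraph (Fin n)} {d : Fin n → ℕ} (h : Realizes G d) :
    Gr d := ⟨ofG G, ofG_isMat G, fun i => by rw [sum_ofG, h i]⟩

/-- biconnected: connected, and deleting any vertex leaves a connected graph -/
def Biconnected {n : ℕ} (G : SimpleGraph (Fin n)) : Prop :=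
  G.Connected ∧ ∀ v, (G.induce ({v}ᶜ : Set (Fin n))).Connected

lemma not_bicon {n : ℕ} (G : SimpleGraph (Fin n)) (S : Set (Fin n)) (v s t : Fin n) (hv : v ∉ S)
    (hs : s ∈ S) (ht : t ∉ S) (htv : t ≠ v)
    (h : ∀ a b, a ∈ S → b ∉ S → b ≠ v → ¬ G.Adj a b) : ¬ Biconnected G := by
  rintro ⟨_, hb⟩
  have hc := (hb v).preconnected
    ⟨s, by simp only [Set.mem_compl_iff, Set.mem_singleton_iff]; rintro rfl; exact hv hs⟩
    ⟨t, by simpa using htv⟩
  obtain ⟨w⟩ := hc
  obtain ⟨e, _, h1, h2⟩ := w.exists_boundary_dart {x | (x : Fin n) ∈ S} hs ht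
  have h3 := e.adj
  simp only [SimpleGraph.comap_adj, Function.Embedding.subtype_apply] at h3
  exact h _ _ h1 h2 (fun hh => e.snd.2 (Set.mem_singleton_iff.2 hh)) h3

/-- gluing a clique at a vertex -/
theorem glue {n : ℕ} {d : Fin n → ℕ} (S : Finset (Fin n)) (v : Fin n) (hv : v ∉ S) (r : ℕ)
    (hr : S.card = r) (hrpos : 0 < r) (hS : ∀ i ∈ S, d i = r) (hdv : r ≤ d v) (t : Fin n)
    (ht : t ∉ S) (htv : t ≠ v)
    (hG : Gr (fun i => if i ∈ S then 0 else if i = v then d v - r else d i)) :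
    ∃ G : SimpleGraph (Fin n), Realizes G d ∧ ¬ Biconnected G := by
  classical
  obtain ⟨A, hA, hAd⟩ := hG
  have hA0 : ∀ i ∈ S, ∀ j, A i j = 0 := by
    intro i hi
    have h1 : ∑ j, A i j = 0 := by rw [hAd i]; simp [hi]
    have h2 := (Finset.sum_eq_zero_iff_of_nonneg (fun j _ => mat_nonneg hA i j)).1 h1
    exact fun j => h2 j (Finset.mem_univ j)
  set C : Fin n → Fin n → ℤ := fun i j =>
    if i ∈ insert v S ∧ j ∈ insert v S ∧ i ≠ j then 1 else 0 with hC
  have hCs : ∀ i, ∑ j, C i j = if i ∈ insert v S then (r : ℤ) else 0 := by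
    intro i
    by_cases hi : i ∈ insert v S
    · rw [if_pos hi]
      have h1 : ∀ j, C i j = (if j ∈ insert v S then 1 else 0) - (if j = i then 1 else 0) := by
        intro j
        simp only [hC]
        by_cases hji : j = i
        · subst hji; simp [hi]
        · have : i ≠ j := fun h => hji h.symm
          simp [hi, hji, this]
      simp_rw [h1]
      rw [Finset.sum_sub_distrib, Finset.sum_ite_eq', if_pos (Finset.mem_univ _),
        Finset.sum_boole]
      have : (Finset.univ.filter (fun j => j ∈ insert v S)) = insert v S := by ext; simp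
      rw [this, Finset.card_insert_of_notMem hv, hr]
      push_cast; ring
    · rw [if_neg hi]
      refine Finset.sum_eq_zero fun j _ => ?_
      simp only [hC]; rw [if_neg (by tauto)]
  have hCA : ∀ i j, C i j = 1 → A i j = 0 := by
    intro i j h
    simp only [hC] at h
    by_cases hc : i ∈ insert v S ∧ j ∈ insert v S ∧ i ≠ j
    · obtain ⟨h1, h2, h3⟩ := hc
      rw [Finset.mem_insert] at h1 h2
      rcases h1 with h1 | h1
      · rcases h2 with h2 | h2
        · exact absurd (h1.trans h2.symm) h3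
        · rw [hA.2.1]; exact hA0 j h2 i
      · exact hA0 i h1 j
    · rw [if_neg hc] at h; exact absurd h (by decide)
  have hC01 : ∀ i j, C i j = 0 ∨ C i j = 1 := by
    intro i j; simp only [hC]; split_ifs <;> simp
  have hB : IsMat (fun i j => A i j + C i j) := by
    refine ⟨?_, ?_, ?_⟩
    · intro i j
      simp only
      rcases hC01 i j with h | h
      · rw [h, add_zero]; exact hA.1 i j
      · rw [hCA i j h, h]; right; rfl
    · intro i j
      simp only
      rw [hA.2.1 i j]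
      congr 1
      simp only [hC]
      congr 1
      rw [eq_iff_iff]
      constructor <;> rintro ⟨h1, h2, h3⟩ <;> exact ⟨h2, h1, Ne.symm h3⟩
    · intro i
      simp only
      rw [hA.2.2]
      simp [hC]
  refine ⟨toG _ hB, toG_realizes hB ?_, ?_⟩
  · intro i
    rw [Finset.sum_add_distrib, hAd i, hCs i]
    by_cases hiS : i ∈ S
    · have : i ∈ insert v S := Finset.mem_insert_of_mem hiS
      simp only [hiS, this, if_true]
      rw [hS i hiS]; simp
    · by_cases hiv : i = v
      · subst hiv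
        simp only [hiS, if_false, if_true, Finset.mem_insert, true_or]
        push_cast [Nat.cast_sub hdv]; ring
      · simp [hiS, hiv]
  · obtain ⟨s, hs⟩ := Finset.card_pos.1 (by rw [hr]; exact hrpos)
    refine not_bicon _ (S : Set (Fin n)) v s t (by simpa using hv) (by simpa using hs)
      (by simpa using ht) htv ?_
    intro a b ha hb hbv hadj
    have h1 : A a b + C a b = 1 := hadj
    have ha' : a ∈ S := by simpa using ha
    have hb' : b ∉ S := by simpa using hb
    rw [hA0 a ha' b] at h1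
    simp only [hC] at h1
    rw [if_neg] at h1
    · simp at h1
    · rintro ⟨_, h2, _⟩
      rw [Finset.mem_insert] at h2
      rcases h2 with h2 | h2
      · exact hbv h2
      · exact hb' h2

end Pool.Agent.H51.EG
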