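import Pool.Agent.H51.EG2

/-! # Forcibly biconnected degree sequences with degree sum `4n - 2` -/

namespace Pool.Agent.H51.EG

open Finset

/-- forcibly biconnected degree sequences -/
def FB {n : ℕ} (d : Fin n → ℕ) : Prop :=
  (∃ G : SimpleGraph (Fin n), Realizes G d) ∧
    ∀ G : SimpleGraph (Fin n), Realizes G d → Biconnected G

/-- the subset of `Fin n` below a set of naturals -/
def dn (n : ℕ) (K : Finset ℕ) : Finset (Fin n) := Finset.univ.filter (fun i : Fin n => (i : ℕ) ∈ K)

lemma sum_dn {n : ℕ} (K : Finset ℕ) (hK : K ⊆ range n) (f : ℕ → ℕ) :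
    ∑ i ∈ dn n K, f i = ∑ i ∈ K, f i := by
  unfold dn
  rw [Finset.sum_filter, Fin.sum_univ_eq_sum_range (fun i => if i ∈ K then f i else 0) n,
    ← Finset.sum_filter]
  congr 1
  ext i
  simp only [Finset.mem_filter]
  exact ⟨fun h => h.2, fun h => ⟨hK h, h⟩⟩

lemma dn_compl {n : ℕ} (K : Finset ℕ) : (dn n K)ᶜ = dn n (range n \ K) := by
  ext i
  simp [dn]

lemma card_dn {n : ℕ} (K : Finset ℕ) (hK : K ⊆ range n) : (dn n K).card = K.card := by
  have := sum_dn K hK (fun _ => 1)
  simpa using this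

lemma sum_up {n : ℕ} (K : Finset (Fin n)) (f : ℕ → ℕ) :
    ∑ i ∈ K.map Fin.valEmbedding, f i = ∑ i ∈ K, f i := by
  rw [Finset.sum_map]; rfl

lemma up_sub {n : ℕ} (K : Finset (Fin n)) : K.map Fin.valEmbedding ⊆ range n := by
  intro i hi
  rw [Finset.mem_map] at hi
  obtain ⟨j, _, rfl⟩ := hi
  exact Finset.mem_range.2 j.2

lemma up_compl {n : ℕ} (K : Finset (Fin n)) :
    range n \ K.map Fin.valEmbedding = (Kᶜ).map Fin.valEmbedding := by
  ext i
  simp only [Finset.mem_sdiff, Finset.mem_range, Finset.mem_map, Finset.mem_compl,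
    Fin.valEmbedding_apply, not_exists, not_and]
  constructor
  · rintro ⟨h1, h2⟩
    exact ⟨⟨i, h1⟩, fun h => h2 _ h rfl, rfl⟩
  · rintro ⟨j, hj, rfl⟩
    refine ⟨j.2, fun a ha hh => hj ?_⟩
    rwa [← Fin.ext hh]

theorem eg_nat (n : ℕ) (D : ℕ → ℕ) (hev : Even (∑ i ∈ range n, D i))
    (h : ∀ K ⊆ range n, (∀ i ∈ K, 0 < D i) →
      ∑ i ∈ K, D i ≤ K.card * (K.card - 1) + ∑ i ∈ range n \ K, min (D i) K.card) :
    Gr (fun i : Fin n => D i) := by
  refine eg_subset' _ ?_ ?_
  · rw [Fin.sum_univ_eq_sum_range D n]; exact hev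
  · intro K hK
    have h1 := h (K.map Fin.valEmbedding) (up_sub K) (by
      intro i hi
      rw [Finset.mem_map] at hi
      obtain ⟨j, hj, rfl⟩ := hi
      exact hK j hj)
    rw [Finset.card_map, up_compl, sum_up K D, sum_up Kᶜ (fun i => min (D i) K.card)] at h1
    exact h1


theorem nec_nat (n : ℕ) (D : ℕ → ℕ) (h : Gr (fun i : Fin n => D i)) (K : Finset ℕ)
    (hK : K ⊆ range n) :
    ∑ i ∈ K, D i ≤ K.card * (K.card - 1) + ∑ i ∈ range n \ K, min (D i) K.card := by
  have h1 := eg_nec h (dn n K)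
  rw [dn_compl, card_dn K hK, sum_dn K hK D,
    sum_dn (range n \ K) Finset.sdiff_subset (fun i => min (D i) K.card)] at h1
  exact h1

lemma prefix_max (n : ℕ) (f : ℕ → ℕ) (hf : ∀ i j, i ≤ j → j < n → f j ≤ f i) (K : Finset ℕ)
    (hK : K ⊆ range n) : ∑ i ∈ K, f i ≤ ∑ i ∈ range K.card, f i := by
  have hkn : K.card ≤ n := by simpa using Finset.card_le_card hK
  set k := K.card with hk
  rcases Nat.eq_or_lt_of_le hkn with h | h
  · have : K = range n := Finset.eq_of_subset_of_card_le hK (by simp [← hk, h])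
    rw [h, this]
  · have e1 : ∑ i ∈ K, f i = ∑ i ∈ K ∩ range k, f i + ∑ i ∈ K \ range k, f i :=
      (Finset.sum_inter_add_sum_sdiff _ _ _).symm
    have e2 : ∑ i ∈ range k, f i = ∑ i ∈ range k ∩ K, f i + ∑ i ∈ range k \ K, f i :=
      (Finset.sum_inter_add_sum_sdiff _ _ _).symm
    have e3 : ∑ i ∈ K \ range k, f i ≤ (K \ range k).card • f k := by
      refine Finset.sum_le_card_nsmul _ _ _ fun i hi => ?_
      rw [Finset.mem_sdiff, Finset.mem_range] at hi
      exact hf k i (by omega) (Finset.mem_range.1 (hK hi.1))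
    have e4 : (range k \ K).card • f k ≤ ∑ i ∈ range k \ K, f i := by
      refine Finset.card_nsmul_le_sum _ _ _ fun i hi => ?_
      rw [Finset.mem_sdiff, Finset.mem_range] at hi
      exact hf i k (by omega) h
    have e5 : (K \ range k).card = (range k \ K).card :=
      Finset.card_sdiff_comm (by simp [← hk])
    rw [e5] at e3
    rw [e1, e2, Finset.inter_comm]
    omega

lemma fb_two {n : ℕ} (hn : 3 ≤ n) {d : Fin n → ℕ} (h : FB d) (i : Fin n) : 2 ≤ d i := by
  classical
  by_contra hc
  obtain ⟨⟨G, hG⟩, hB⟩ := h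
  have h1 := hG i
  have h2 : (G.neighborSet i).ncard ≤ 1 := by omega
  -- a vertex v different from i covering the neighbours
  obtain ⟨v, hvi, hv⟩ : ∃ v, v ≠ i ∧ ∀ b, G.Adj i b → b = v := by
    by_cases he : ∃ v, G.Adj i v
    · obtain ⟨v, hv⟩ := he
      refine ⟨v, hv.ne', fun b hb => ?_⟩
      rw [Set.ncard_le_one (Set.toFinite _)] at h2
      exact h2 b hb v hv
    · obtain ⟨v, hv⟩ : ∃ v : Fin n, v ≠ i := by
        by_cases h0 : i = ⟨0, by omega⟩
        · exact ⟨⟨1, by omega⟩, by rw [h0]; simp [Fin.ext_iff]⟩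
        · exact ⟨⟨0, by omega⟩, fun h => h0 h.symm⟩
      exact ⟨v, hv, fun b hb => absurd ⟨b, hb⟩ he⟩
  obtain ⟨t, hti, htv⟩ : ∃ t : Fin n, t ≠ i ∧ t ≠ v := by
    by_contra hc2
    push Not at hc2
    have h3 : (Finset.univ : Finset (Fin n)) ⊆ {i, v} := by
      intro t _
      rw [Finset.mem_insert, Finset.mem_singleton]
      by_cases h : t = i
      · exact Or.inl h
      · exact Or.inr (hc2 t h)
    have h4 := Finset.card_le_card h3
    have h5 : ({i, v} : Finset (Fin n)).card ≤ 2 := Finset.card_le_two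
    rw [Finset.card_univ, Fintype.card_fin] at h4
    omega
  refine not_bicon G {i} v i t (by simpa using hvi) rfl (by simpa using hti) htv ?_ (hB G hG)
  intro a b ha _ hbv hadj
  rw [Set.mem_singleton_iff] at ha
  subst ha
  exact hbv (hv b hadj)

/-- the witness of a violated inequality after removing a clique from a forcibly biconnected
sequence -/
theorem violation (n : ℕ) (D : ℕ → ℕ) (hFB : FB (fun i : Fin n => D i)) (S : Finset ℕ)
    (hS : S ⊆ range n) (h0 : 0 ∉ S) (r : ℕ) (hr : S.card = r) (hrpos : 0 < r)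
    (hSr : ∀ i ∈ S, D i = r) (hD0 : r ≤ D 0) (h0n : 0 < n) (t : ℕ) (htn : t < n) (ht : t ∉ S)
    (ht0 : t ≠ 0) (hev : Even (∑ i ∈ range n, D i)) (hrr : Even (r * r + r)) :
    ∃ K ⊆ range n,
      K.card * (K.card - 1) + ∑ i ∈ range n \ K, min (D i) K.card + 1 + (if 0 ∈ K then r else 0)
        ≤ ∑ i ∈ K, D i + r * min r K.card
          + (if 0 ∈ K then 0 else min (D 0) K.card - min (D 0 - r) K.card) := by
  classical
  by_contra hcon
  push Not at hcon
  set D' : ℕ → ℕ := fun i => if i ∈ S then 0 else if i = 0 then D 0 - r else D i with hD'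
  have hpt : ∀ i, D i = D' i + (if i ∈ S then r else 0) + (if i = 0 then r else 0) := by
    intro i
    simp only [hD']
    by_cases hi : i ∈ S
    · have : i ≠ 0 := fun h => h0 (h ▸ hi)
      simp [hi, this, hSr i hi]
    · by_cases hi0 : i = 0
      · subst hi0; simp only [hi, if_false, if_true]; omega
      · simp [hi, hi0]
  have hsumS : ∑ i ∈ range n, (if i ∈ S then r else 0) = r * r := by
    rw [← Finset.sum_filter]
    have : (range n).filter (· ∈ S) = S := by
      ext i; rw [Finset.mem_filter]; exact ⟨fun h => h.2, fun h => ⟨hS h, h⟩⟩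
    rw [this, Finset.sum_const, hr, smul_eq_mul]
  have hsum : ∑ i ∈ range n, D i = ∑ i ∈ range n, D' i + (r * r + r) := by
    rw [Finset.sum_congr rfl (fun i _ => hpt i), Finset.sum_add_distrib, Finset.sum_add_distrib,
      hsumS, Finset.sum_ite_eq', if_pos (Finset.mem_range.2 h0n)]
    ring
  have hev' : Even (∑ i ∈ range n, D' i) := by
    rw [hsum, Nat.even_add] at hev
    exact hev.2 hrr
  have hGr : Gr (fun i : Fin n => D' i) := by
    refine eg_nat n D' hev' ?_
    intro K hK hpos
    have hdisj : ∀ i ∈ K, i ∉ S := by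
      intro i hi hiS
      have := hpos i hi
      simp only [hD'] at this
      rw [if_pos hiS] at this
      omega
    have h1 := hcon K hK
    set k := K.card with hk
    have e1 : ∑ i ∈ K, D i = ∑ i ∈ K, D' i + (if 0 ∈ K then r else 0) := by
      rw [Finset.sum_congr rfl (fun i _ => hpt i), Finset.sum_add_distrib,
        Finset.sum_add_distrib, Finset.sum_ite_eq']
      have : ∑ i ∈ K, (if i ∈ S then r else 0) = 0 :=
        Finset.sum_eq_zero fun i hi => if_neg (hdisj i hi)
      rw [this, add_zero]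
    have e2 : ∑ i ∈ range n \ K, min (D i) k = ∑ i ∈ range n \ K, min (D' i) k + r * min r k
        + (if 0 ∈ K then 0 else min (D 0) k - min (D 0 - r) k) := by
      have hp : ∀ i, min (D i) k = min (D' i) k + (if i ∈ S then min r k else 0)
          + (if i = 0 then min (D 0) k - min (D 0 - r) k else 0) := by
        intro i
        simp only [hD']
        by_cases hi : i ∈ S
        · have : i ≠ 0 := fun h => h0 (h ▸ hi)
          simp [hi, this, hSr i hi]
        · by_cases hi0 : i = 0
          · subst hi0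
            simp only [hi, if_false, if_true]
            omega
          · simp [hi, hi0]
      rw [Finset.sum_congr rfl (fun i _ => hp i), Finset.sum_add_distrib,
        Finset.sum_add_distrib, Finset.sum_ite_eq']
      congr 1
      · congr 1
        rw [← Finset.sum_filter]
        have : (range n \ K).filter (· ∈ S) = S := by
          ext i
          rw [Finset.mem_filter, Finset.mem_sdiff]
          exact ⟨fun h => h.2, fun h => ⟨⟨hS h, fun h' => hdisj i h' h⟩, h⟩⟩
        rw [this, Finset.sum_const, hr, smul_eq_mul]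
      · by_cases h : 0 ∈ K
        · rw [if_pos h, if_neg (by simp [h])]
        · rw [if_neg h, if_pos (by simp [h, h0n])]
    omega
  have hglue := glue (d := fun i : Fin n => D i) (dn n S) ⟨0, h0n⟩ (by simpa [dn] using h0) r
    (by rw [card_dn S hS, hr]) hrpos (by
      intro i hi
      have : (i : ℕ) ∈ S := by simpa [dn] using hi
      exact hSr _ this) hD0 ⟨t, htn⟩ (by simpa [dn] using ht)
    (by simpa [Fin.ext_iff] using ht0) (by
      convert hGr using 2 with i
      simp only [hD', dn, Finset.mem_filter, Finset.mem_univ, true_and, Fin.ext_iff])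
  obtain ⟨G, hG, hnb⟩ := hglue
  exact hnb (hFB.2 G hG)

end Pool.Agent.H51.EG
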