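import Pool.Agent.H51.EG3

/-! # Classification of forcibly biconnected sequences with sum `4n - 2` -/

namespace Pool.Agent.H51.EG

open Finset

lemma ico_const (a n c : ℕ) (f : ℕ → ℕ) (h : ∀ i, a ≤ i → i < n → f i = c) :
    ∑ i ∈ Ico a n, f i = (n - a) * c := by
  rw [Finset.sum_congr rfl (fun i hi => h i (Finset.mem_Ico.1 hi).1 (Finset.mem_Ico.1 hi).2)]
  simp

lemma ico_ge (a n c : ℕ) (f : ℕ → ℕ) (h : ∀ i, a ≤ i → i < n → c ≤ f i) :
    (n - a) * c ≤ ∑ i ∈ Ico a n, f i := by
  have := Finset.card_nsmul_le_sum (Ico a n) f c
    (fun i hi => h i (Finset.mem_Ico.1 hi).1 (Finset.mem_Ico.1 hi).2)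
  simpa using this

lemma sum_peel (f : ℕ → ℕ) (a n : ℕ) (h : a < n) :
    ∑ i ∈ Ico a n, f i = f a + ∑ i ∈ Ico (a + 1) n, f i :=
  Finset.sum_eq_sum_Ico_succ_bot h _

lemma range_peel (f : ℕ → ℕ) (k n : ℕ) (h : k ≤ n) :
    ∑ i ∈ range n, f i = ∑ i ∈ range k, f i + ∑ i ∈ Ico k n, f i :=
  (Finset.sum_range_add_sum_Ico _ h).symm

lemma ico_eq (k n : ℕ) : range n \ range k = Ico k n := by
  ext i; simp only [Finset.mem_sdiff, Finset.mem_range, Finset.mem_Ico]; omega

/-- the structure of forcibly biconnected sequences with sum `4n - 2` -/
theorem classify (n : ℕ) (hn : 52 ≤ n) (D : ℕ → ℕ) (hanti : ∀ i j, i ≤ j → j < n → D j ≤ D i)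
    (hsum : ∑ i ∈ range n, D i = 4 * n - 2) (hFB : FB (fun i : Fin n => D i)) :
    (D 0 + D 1 + D 2 + D 3 = 2 * n + 5 ∧ 3 ≤ D 3 ∧ D 4 = 3 ∧ ∀ i, 5 ≤ i → i < n → D i = 2) ∨
      n - 2 ≤ D 1 := by
  have hGr : Gr (fun i : Fin n => D i) := by
    obtain ⟨⟨G, hG⟩, _⟩ := hFB
    exact gr_of_realizes hG
  have htwo : ∀ i, i < n → 2 ≤ D i := fun i hi => fb_two (by omega) hFB ⟨i, hi⟩
  have hnec := nec_nat n D hGr
  have hev : Even (∑ i ∈ range n, D i) := by rw [hsum]; exact ⟨2 * n - 1, by omega⟩
  have hD0n : D 0 ≤ n - 1 := by
    have h1 := hnec (range 1) (by intro i; simp only [Finset.mem_range]; omega)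
    rw [ico_eq] at h1
    simp only [Finset.sum_range_one, Finset.card_range, Nat.sub_self, Nat.mul_zero,
      Nat.zero_add] at h1
    have h2 := ico_const 1 n 1 (fun i => min (D i) 1)
      (fun i _ hi => by have := htwo i hi; omega)
    omega
  -- top entry
  have hD0 : 3 ≤ D 0 := by
    by_contra hc
    have h1 : ∑ i ∈ range n, D i ≤ (range n).card • 2 :=
      Finset.sum_le_card_nsmul _ _ _ fun i hi => by
        have := hanti 0 i (Nat.zero_le _) (Finset.mem_range.1 hi); omega
    rw [hsum, Finset.card_range, smul_eq_mul] at h1
    omega
  -- basic facts for a subset K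
  have hcompl : ∀ K ⊆ range n, ∑ i ∈ K, D i + ∑ i ∈ range n \ K, D i = 4 * n - 2 := by
    intro K hK
    rw [← hsum, add_comm]
    exact Finset.sum_sdiff hK
  have hccard : ∀ K ⊆ range n, (range n \ K).card = n - K.card := by
    intro K hK
    rw [Finset.card_sdiff_of_subset hK, Finset.card_range]
  rcases Nat.lt_or_ge (D (n - 2)) 3 with hA | hB
  · -- Case A: two 2's
    have hn2 : D (n - 2) = 2 := by have := htwo (n - 2) (by omega); omega
    have hn1 : D (n - 1) = 2 := by
      have := htwo (n - 1) (by omega)
      have := hanti (n - 2) (n - 1) (by omega) (by omega)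
      omega
    obtain ⟨K, hK, hV⟩ := violation n D hFB {n - 2, n - 1} (by
      intro i hi; rw [Finset.mem_insert, Finset.mem_singleton] at hi
      rw [Finset.mem_range]; omega) (by
      rw [Finset.mem_insert, Finset.mem_singleton]; omega) 2
      (Finset.card_pair (by omega)) (by omega) (by
      intro i hi; rw [Finset.mem_insert, Finset.mem_singleton] at hi
      rcases hi with rfl | rfl
      · exact hn2
      · exact hn1) (by omega) (by omega) 1 (by omega) (by
      rw [Finset.mem_insert, Finset.mem_singleton]; omega) (by omega) hev ⟨3, rfl⟩
    have hkn : K.card ≤ n := by simpa using Finset.card_le_card hK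
    have hN := hnec K hK
    have hC := hcompl K hK
    have hcc := hccard K hK
    set k := K.card with hk
    set M := ∑ i ∈ range n \ K, min (D i) k with hM
    set R := ∑ i ∈ range n \ K, D i with hR
    have hR2 : (n - k) * 2 ≤ R := by
      rw [← hcc]
      have := Finset.card_nsmul_le_sum (range n \ K) D 2 (fun i hi => htwo i (by
        have := (Finset.mem_sdiff.1 hi).1; exact Finset.mem_range.1 this))
      simpa using this
    have hM2 : 2 ≤ k → (n - k) * 2 ≤ M := by
      intro hk2
      rw [← hcc]
      have := Finset.card_nsmul_le_sum (range n \ K) (fun i => min (D i) k) 2 (fun i hi => by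
        have h1 := htwo i (Finset.mem_range.1 (Finset.mem_sdiff.1 hi).1)
        omega)
      simpa using this
    by_cases h0K : 0 ∈ K
    · rw [if_pos h0K, if_pos h0K] at hV
      -- k ≥ 2 and slack ≤ 1
      have hk2 : 2 ≤ k := by
        by_contra hc
        have : min 2 k ≤ 1 := by omega
        omega
      have hmin2 : min 2 k = 2 := by omega
      rw [hmin2] at hV
      have hM2' := hM2 hk2
      have hk4 : k ≤ 4 := by
        by_contra hc
        have h5 : 5 * k ≤ k * (k - 1) + k := by
          have : k * (k - 1) + k = k * k := by
            obtain ⟨m, hm⟩ : ∃ m, k = m + 1 := ⟨k - 1, by omega⟩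
            rw [hm]; simp only [Nat.add_sub_cancel]; ring
          rw [this]
          exact Nat.mul_le_mul_right _ (by omega)
        omega
      -- pass to the prefix
      have hpre : k * (k - 1) + ∑ i ∈ Ico k n, min (D i) k ≤ ∑ i ∈ range k, D i + 1 := by
        have h1 := prefix_max n (fun i => D i + min (D i) k) (by
          intro i j hij hj
          have := hanti i j hij hj
          omega) K hK
        rw [Finset.sum_add_distrib, Finset.sum_add_distrib, ← hk] at h1
        have h2 : ∑ i ∈ K, min (D i) k + M = ∑ i ∈ range n, min (D i) k := by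
          rw [hM, add_comm]; exact Finset.sum_sdiff hK
        have h3 := range_peel (fun i => min (D i) k) k n hkn
        omega
      have hsumk := range_peel D k n hkn
      rw [hsum] at hsumk
      have h4nec := hnec (range 4) (by intro i; simp only [Finset.mem_range]; omega)
      rw [ico_eq, Finset.card_range] at h4nec
      have hknec := hnec (range k) (by intro i; simp only [Finset.mem_range]; omega)
      rw [ico_eq, Finset.card_range] at hknec
      interval_cases hkk : k
      · -- k = 2
        right
        have h1 := ico_const 2 n 2 (fun i => min (D i) 2)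
          (fun i _ hi => by have := htwo i hi; omega)
        rw [h1] at hpre
        simp only [Finset.sum_range_succ, Finset.sum_range_zero] at hpre
        omega
      · -- k = 3
        left
        rw [sum_peel _ 3 n (by omega), sum_peel _ 4 n (by omega), sum_peel _ 5 n (by omega)] at hpre hsumk hknec
        simp only [Finset.sum_range_succ, Finset.sum_range_zero] at hpre hsumk hknec h4nec
        have hR6 := ico_ge 6 n 2 D (fun i _ hi => htwo i hi)
        have hM6 := ico_ge 6 n 2 (fun i => min (D i) 3) (fun i _ hi => by
          have := htwo i hi; omega)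
        simp only [Nat.reduceAdd] at hpre hsumk hknec hR6 hM6
        have h34 := hanti 3 4 (by omega) (by omega)
        have h45 := hanti 4 5 (by omega) (by omega)
        have h5 := htwo 5 (by omega)
        have h5' : D 5 = 2 := by omega
        have hlater : ∀ i, 5 ≤ i → i < n → D i = 2 := by
          intro i hi hin
          have := htwo i hin
          have := hanti 5 i hi hin
          omega
        have hR6' := ico_const 6 n 2 D (fun i hi hin => hlater i (by omega) hin)
        have hM6' := ico_const 6 n 2 (fun i => min (D i) 3) (fun i hi hin => by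
          have := hlater i (by omega) hin; omega)
        have hM4 : ∑ i ∈ Ico 4 n, min (D i) 4 = min (D 4) 4 + (n - 5) * 2 := by
          rw [sum_peel _ 4 n (by omega), ico_const (4 + 1) n 2 _ (fun i hi hin => by
            have := hlater i (by omega) hin; omega)]
        rw [hM4] at h4nec
        refine ⟨?_, ?_, ?_, hlater⟩ <;> omega
      · -- k = 4
        left
        rw [sum_peel _ 4 n (by omega), sum_peel _ 5 n (by omega)] at hpre hsumk hknec
        simp only [Finset.sum_range_succ, Finset.sum_range_zero] at hpre hsumk hknec
        have hR6 := ico_ge 6 n 2 D (fun i _ hi => htwo i hi)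
        have hM6 := ico_ge 6 n 2 (fun i => min (D i) 4) (fun i _ hi => by
          have := htwo i hi; omega)
        simp only [Nat.reduceAdd] at hpre hsumk hknec hR6 hM6
        have h34 := hanti 3 4 (by omega) (by omega)
        have h45 := hanti 4 5 (by omega) (by omega)
        have h5 := htwo 5 (by omega)
        have h5' : D 5 = 2 := by omega
        have hlater : ∀ i, 5 ≤ i → i < n → D i = 2 := by
          intro i hi hin
          have := htwo i hin
          have := hanti 5 i hi hin
          omega
        have hR6' := ico_const 6 n 2 D (fun i hi hin => hlater i (by omega) hin)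
        have hM6' := ico_const 6 n 2 (fun i => min (D i) 4) (fun i hi hin => by
          have := hlater i (by omega) hin; omega)
        refine ⟨?_, ?_, ?_, hlater⟩ <;> omega
    · rw [if_neg h0K, if_neg h0K] at hV
      rcases Nat.lt_or_ge k 1 with hk0 | hk1
      · have : k = 0 := by omega
        rw [this] at hV
        have hKe : K = ∅ := by rw [← Finset.card_eq_zero, ← hk, this]
        rw [hKe] at hV
        simp at hV
      rcases Nat.lt_or_ge k 2 with hk2 | hk2
      · -- k = 1
        right
        have hk1' : k = 1 := by omega
        obtain ⟨z, hz⟩ := Finset.card_eq_one.1 (hk.symm.trans hk1')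
        have hzn : z < n := Finset.mem_range.1 (hK (by rw [hz]; simp))
        have hz0 : z ≠ 0 := by rintro rfl; exact h0K (by rw [hz]; simp)
        have hMeq : M = n - 1 := by
          rw [hM, hk1']
          have : ∀ i ∈ range n \ K, min (D i) 1 = 1 := by
            intro i hi
            have := htwo i (Finset.mem_range.1 (Finset.mem_sdiff.1 hi).1)
            omega
          rw [Finset.sum_congr rfl this, Finset.sum_const, hcc, hk1']
          simp
        rw [hMeq, hk1', hz, Finset.sum_singleton] at hV
        have h1z := hanti 1 z (by omega) hzn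
        have e1 : min (D 0) 1 - min (D 0 - 2) 1 = 0 := by omega
        rw [e1] at hV
        simp only [Nat.sub_self, Nat.mul_zero, Nat.zero_add] at hV
        have e2 : min 2 1 = 1 := rfl
        rw [e2] at hV
        omega
      · exfalso
        have hM2' := hM2 hk2
        -- 0 in the complement
        have h0c : 0 ∈ range n \ K := Finset.mem_sdiff.2 ⟨Finset.mem_range.2 (by omega), h0K⟩
        have hMR : (n - k) * 4 + (min (D 0) k + D 0 - 4) ≤ M + R := by
          rw [hM, hR, ← Finset.sum_add_distrib]
          have h1 : ∑ i ∈ range n \ K, (4 + (if i = 0 then (min (D 0) k + D 0 - 4) else 0))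
              ≤ ∑ i ∈ range n \ K, (min (D i) k + D i) := by
            refine Finset.sum_le_sum fun i hi => ?_
            have h2 := htwo i (Finset.mem_range.1 (Finset.mem_sdiff.1 hi).1)
            by_cases hi0 : i = 0
            · subst hi0; rw [if_pos rfl]; omega
            · rw [if_neg hi0]; omega
          rw [Finset.sum_add_distrib, Finset.sum_const, hcc, smul_eq_mul, Finset.sum_ite_eq',
            if_pos h0c] at h1
          exact h1
        have hmin2 : min 2 k = 2 := by omega
        rw [hmin2] at hV
        have hdelta : min (D 0) k - min (D 0 - 2) k ≤ 2 := by omega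
        have hk5 : k ≤ 5 := by
          by_contra hc
          have h5 : 6 * k ≤ k * (k - 1) + k := by
            have : k * (k - 1) + k = k * k := by
              obtain ⟨m, hm⟩ : ∃ m, k = m + 1 := ⟨k - 1, by omega⟩
              rw [hm]; simp only [Nat.add_sub_cancel]; ring
            rw [this]
            exact Nat.mul_le_mul_right _ (by omega)
          omega
        have hKs : ∑ i ∈ K, D i ≤ k * D 0 := by
          have := Finset.sum_le_card_nsmul K D (D 0) (fun i hi =>
            hanti 0 i (Nat.zero_le _) (Finset.mem_range.1 (hK hi)))
          simpa using this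
        interval_cases hkk : k <;> omega
  · -- D (n-2) ≥ 3
    exfalso
    have hge3 : ∀ i, i ≤ n - 2 → 3 ≤ D i := by
      intro i hi
      have := hanti i (n - 2) hi (by omega)
      omega
    rcases Nat.lt_or_ge (D (n - 4)) 4 with hB3 | hC4
    · -- Case B: three 3's
      have h4 : D (n - 4) = 3 := by have := hge3 (n - 4) (by omega); omega
      have h3 : D (n - 3) = 3 := by
        have := hge3 (n - 3) (by omega)
        have := hanti (n - 4) (n - 3) (by omega) (by omega)
        omega
      have h2 : D (n - 2) = 3 := by
        have := hanti (n - 3) (n - 2) (by omega) (by omega)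
        omega
      obtain ⟨K, hK, hV⟩ := violation n D hFB {n - 4, n - 3, n - 2} (by
        intro i hi; simp only [Finset.mem_insert, Finset.mem_singleton] at hi
        rw [Finset.mem_range]; omega) (by
        simp only [Finset.mem_insert, Finset.mem_singleton]; omega) 3
        (Finset.card_eq_three.2 ⟨n - 4, n - 3, n - 2, by omega, by omega, by omega, rfl⟩)
        (by omega) (by
        intro i hi; simp only [Finset.mem_insert, Finset.mem_singleton] at hi
        rcases hi with rfl | rfl | rfl
        · exact h4
        · exact h3
        · exact h2) (by omega) (by omega) 1 (by omega) (by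
        simp only [Finset.mem_insert, Finset.mem_singleton]; omega) (by omega) hev ⟨6, rfl⟩
      have hkn : K.card ≤ n := by simpa using Finset.card_le_card hK
      have hN := hnec K hK
      have hC := hcompl K hK
      have hcc := hccard K hK
      set k := K.card with hk
      set M := ∑ i ∈ range n \ K, min (D i) k with hM
      set R := ∑ i ∈ range n \ K, D i with hR
      rcases Nat.lt_or_ge k 1 with hk0 | hk1
      · have : k = 0 := by omega
        rw [this] at hV
        have hKe : K = ∅ := by rw [← Finset.card_eq_zero, ← hk, this]
        rw [hKe] at hV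
        simp at hV
      rcases Nat.lt_or_ge k 2 with hk2 | hk2
      · have hk1' : k = 1 := by omega
        obtain ⟨z, hz⟩ := Finset.card_eq_one.1 (hk.symm.trans hk1')
        have hzn : z < n := Finset.mem_range.1 (hK (by rw [hz]; simp))
        have hMeq : M = n - 1 := by
          rw [hM, hk1']
          have : ∀ i ∈ range n \ K, min (D i) 1 = 1 := by
            intro i hi
            have := htwo i (Finset.mem_range.1 (Finset.mem_sdiff.1 hi).1)
            omega
          rw [Finset.sum_congr rfl this, Finset.sum_const, hcc, hk1']
          simp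
        by_cases h0K : 0 ∈ K
        · rw [if_pos h0K, if_pos h0K, hk1'] at hV
          rw [hk1'] at hN
          have e2 : min 3 1 = 1 := rfl
          rw [e2] at hV
          omega
        · have hz0 : z ≠ 0 := by rintro rfl; exact h0K (by rw [hz]; simp)
          rw [if_neg h0K, if_neg h0K, hMeq, hk1', hz, Finset.sum_singleton] at hV
          have h1z := hanti 1 z (by omega) hzn
          have e2 : min 3 1 = 1 := rfl
          rw [e2] at hV
          simp only [Nat.sub_self, Nat.mul_zero, Nat.zero_add] at hV
          have h01 := hanti 0 1 (by omega) (by omega)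
          -- total sum too large
          have t1 := range_peel D 2 n (by omega)
          have t2 : ∑ i ∈ Ico 2 n, D i = ∑ i ∈ Ico 2 (n - 1), D i + D (n - 1) := by
            obtain ⟨m, rfl⟩ : ∃ m, n = m + 1 := ⟨n - 1, by omega⟩
            rw [Finset.sum_Ico_succ_top (by omega)]; simp
          have t3 := ico_ge 2 (n - 1) 3 D (fun i _ hi => hge3 i (by omega))
          have t4 := htwo (n - 1) (by omega)
          simp only [Finset.sum_range_succ, Finset.sum_range_zero] at t1
          omega
      · have hVV : k * (k - 1) + M + 1 ≤ ∑ i ∈ K, D i + 3 * min 3 k + min 3 k := by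
          by_cases h0K : 0 ∈ K
          · rw [if_pos h0K, if_pos h0K] at hV; omega
          · rw [if_neg h0K, if_neg h0K] at hV; omega
        have hMR : (n - k) * (3 + min 3 k) ≤ M + R + 2 := by
          rw [hM, hR, ← Finset.sum_add_distrib]
          have h1 : ∑ i ∈ range n \ K, (3 + min 3 k) ≤ ∑ i ∈ range n \ K, ((min (D i) k + D i)
              + (if i = n - 1 then 2 else 0)) := by
            refine Finset.sum_le_sum fun i hi => ?_
            have h2 := Finset.mem_range.1 (Finset.mem_sdiff.1 hi).1
            by_cases hi0 : i = n - 1
            · have := htwo i h2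
              rw [if_pos hi0]; omega
            · have := hge3 i (by omega)
              rw [if_neg hi0]; omega
          rw [Finset.sum_const, hcc, smul_eq_mul, Finset.sum_add_distrib,
            Finset.sum_ite_eq'] at h1
          refine h1.trans ?_
          split_ifs <;> omega
        rcases Nat.lt_or_ge k 3 with hk3 | hk3
        · have : k = 2 := by omega
          rw [this] at hVV hMR
          have e2 : min 3 2 = 2 := rfl
          rw [e2] at hVV hMR
          omega
        · have e3 : min 3 k = 3 := by omega
          rw [e3] at hVV hMR
          have h7 : 7 * k ≤ k * (k - 1) + k + 12 := by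
            have : k * (k - 1) + k = k * k := by
              obtain ⟨m, hm⟩ : ∃ m, k = m + 1 := ⟨k - 1, by omega⟩
              rw [hm]; simp only [Nat.add_sub_cancel]; ring
            rw [this]
            nlinarith [Nat.mul_self_le_mul_self (Nat.zero_le k), sq_nonneg ((k : ℤ) - 3)]
          omega
    · -- Case C: four 4's
      have hge4 : ∀ i, i ≤ n - 4 → 4 ≤ D i := by
        intro i hi
        have := hanti i (n - 4) hi (by omega)
        omega
      have htail : ∀ a, a ≤ n - 3 → (n - 3 - a) * 4 + 8 ≤ ∑ i ∈ Ico a n, D i := by
        intro a ha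
        have t2 : ∑ i ∈ Ico a n, D i = ∑ i ∈ Ico a (n - 3), D i + D (n - 3) + D (n - 2) + D (n - 1) := by
          obtain ⟨m, rfl⟩ : ∃ m, n = m + 3 := ⟨n - 3, by omega⟩
          rw [Finset.sum_Ico_succ_top (by omega), Finset.sum_Ico_succ_top (by omega),
            Finset.sum_Ico_succ_top (by omega)]
          simp
        have t3 := ico_ge a (n - 3) 4 D (fun i _ hi => hge4 i (by omega))
        have t4 := htwo (n - 1) (by omega)
        have t5 := hge3 (n - 2) (by omega)
        have t6 := hge3 (n - 3) (by omega)
        omega
      have h01 := hanti 0 1 (by omega) (by omega)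
      have h12 := hanti 1 2 (by omega) (by omega)
      have hD2 : D 2 ≤ 4 := by
        have t1 := range_peel D 3 n (by omega)
        have t2 := htail 3 (by omega)
        simp only [Finset.sum_range_succ, Finset.sum_range_zero] at t1
        omega
      have hD06 : D 0 ≤ 6 := by
        have t1 := range_peel D 1 n (by omega)
        have t2 := htail 1 (by omega)
        simp only [Finset.sum_range_succ, Finset.sum_range_zero] at t1
        omega
      have hfour : ∀ i, 2 ≤ i → i ≤ 5 → D i = 4 := by
        intro i h2i hi5
        have := hge4 i (by omega)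
        have := hanti 2 i h2i (by omega)
        omega
      obtain ⟨K, hK, hV⟩ := violation n D hFB (Ico 2 6) (by
        intro i hi; rw [Finset.mem_Ico] at hi
        rw [Finset.mem_range]; omega) (by simp) 4
        (by simp) (by omega) (by
        intro i hi; rw [Finset.mem_Ico] at hi
        exact hfour i hi.1 (by omega)) (by have := hge4 0 (by omega); omega) (by omega) 1
        (by omega) (by simp) (by omega) hev ⟨10, rfl⟩
      have hkn : K.card ≤ n := by simpa using Finset.card_le_card hK
      have hcc := hccard K hK
      set k := K.card with hk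
      set M := ∑ i ∈ range n \ K, min (D i) k with hM
      have hKs : ∑ i ∈ K, D i ≤ k * 6 := by
        have := Finset.sum_le_card_nsmul K D 6 (fun i hi =>
          (hanti 0 i (Nat.zero_le _) (Finset.mem_range.1 (hK hi))).trans hD06)
        simpa using this
      have hVV : k * (k - 1) + M + 1 ≤ ∑ i ∈ K, D i + 4 * min 4 k + min 4 k := by
        by_cases h0K : 0 ∈ K
        · rw [if_pos h0K, if_pos h0K] at hV; omega
        · rw [if_neg h0K, if_neg h0K] at hV; omega
      have hMge : (n - k) * min 2 k ≤ M := by
        rw [← hcc]
        have := Finset.card_nsmul_le_sum (range n \ K) (fun i => min (D i) k) (min 2 k)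
          (fun i hi => by
            have h1 := htwo i (Finset.mem_range.1 (Finset.mem_sdiff.1 hi).1)
            omega)
        simpa using this
      rcases Nat.lt_or_ge k 1 with hk0 | hk1
      · have : k = 0 := by omega
        rw [this] at hVV hKs
        simp only [Nat.zero_mul, Nat.min_zero, Nat.mul_zero] at hVV hKs
        omega
      rcases Nat.lt_or_ge k 2 with hk2 | hk2
      · have hk1' : k = 1 := by omega
        rw [hk1'] at hVV hKs hMge
        have e1 : min 4 1 = 1 := rfl
        have e2 : min 2 1 = 1 := rfl
        rw [e1] at hVV
        rw [e2] at hMge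
        omega
      · have e2 : min 2 k = 2 := by omega
        rw [e2] at hMge
        have e4 : min 4 k ≤ 4 := by omega
        have h9 : 9 * k ≤ k * (k - 1) + k + 21 := by
          have : k * (k - 1) + k = k * k := by
            obtain ⟨m, hm⟩ : ∃ m, k = m + 1 := ⟨k - 1, by omega⟩
            rw [hm]; simp only [Nat.add_sub_cancel]; ring
          rw [this]
          nlinarith [sq_nonneg ((k : ℤ) - 4)]
        omega

end Pool.Agent.H51.EG
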