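import Pool.Agent.H51.PolyFill

/-!
# The width vector `(2, 3, 4, 5, 4, 6, 4, 1)` is filling for squares: the core
-/

set_option autoImplicit false

namespace Pool.Agent.H51.PolyFill

open MvPolynomial PolyNet PolyNum

section generic

variable (e : ℕ → ℕ) (w : ℕ → ℕ → ℕ → ℕ)

theorem g_cast (p : ℕ → ℕ) (k a : ℕ) :
    g e (fun k a b => (w k a b : ℂ)) (fun b => (p b : ℂ)) k a = ((net e w p k a : ℕ) : ℂ) :=
  (map_net (Nat.castRingHom ℂ) e w p k a).symm

theorem back_cast (gg : ℕ → ℕ → ℕ) (j b : ℕ) :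
    back e (fun k a b => (w k a b : ℂ)) (fun k a => (gg k a : ℂ)) j b = ((back e w gg j b : ℕ) : ℂ) :=
  (map_back (Nat.castRingHom ℂ) e w gg j b).symm

/-- The criterion: if the derivative at the integral weights `w` is onto, the map is dominant. -/
theorem dominant (h0 : e 0 = 2) (h7 : e 7 = 1)
    (hsurj : ∀ v : Fin 65 → ℂ, ∃ x : ℕ → ℕ → ℕ → ℂ, (∀ a b, x 0 a b = 0) ∧ (∀ a b, x 1 a b = 0) ∧
      ∀ s : Fin 65, ∑ j ∈ Finset.range 5, ∑ a ∈ Finset.range (e (7 - j)),
        ∑ b ∈ Finset.range (e (6 - j)), x (6 - j) a b *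
          (((back e w (fun k a => net e w (ptN s) k a) j a : ℕ) : ℂ) *
            ((net e w (ptN s) (5 - j) b : ℕ) : ℂ) ^ 2) = v s)
    (P : MvPolynomial (Fin 65) ℂ)
    (hP : ∀ W : ℕ → ℕ → ℕ → ℂ,
      eval (fun t => coeff (mono t) (net e (fun k a b => C (W k a b)) X 6 0)) P = 0) : P = 0 := by
  refine PolyDense.dense_of_tangent P
    (fun t => coeff (mono t) (net e (fun k a b => C ((w k a b : ℕ) : ℂ)) X 6 0)) fun τ => ?_
  obtain ⟨x, hx0, hx1, hc⟩ := hsurj (fun s => ∑ t : Fin 65, τ t * ((s : ℕ) : ℂ) ^ (t : ℕ))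
  set wt : ℕ → ℕ → ℕ → Polynomial ℂ := fun k a b =>
    Polynomial.C ((w k a b : ℕ) : ℂ) + Polynomial.X * Polynomial.C (x k a b) with hwt
  set F : MvPolynomial ℕ (Polynomial ℂ) := net e (fun k a b => C (wt k a b)) X 6 0 with hF
  have hev : ∀ (z : ℂ) (t : Fin 65), (coeff (mono t) F).eval z =
      coeff (mono t) (net e (fun k a b => C (((w k a b : ℕ) : ℂ) + z * x k a b)) X 6 0) := by
    intro z t
    have h1 : Polynomial.evalRingHom z (coeff (mono t) F) =
        coeff (mono t) (map (Polynomial.evalRingHom z) F) := (coeff_map _ _ _).symm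
    rw [← Polynomial.coe_evalRingHom, h1, hF, map_net]
    have e1 : (fun k a b => map (Polynomial.evalRingHom z) (C (wt k a b))) =
        fun k a b => (C (((w k a b : ℕ) : ℂ) + z * x k a b) : MvPolynomial ℕ ℂ) := by
      funext k a b
      rw [map_C]
      congr 1
      simp [hwt]
      ring
    have e2 : (fun b : ℕ => map (Polynomial.evalRingHom z) (X b : MvPolynomial ℕ (Polynomial ℂ))) =
        X := by
      funext b
      rw [map_X]
    rw [e1, e2]
  refine ⟨fun t => coeff (mono t) F, fun t => ?_, ?_, ?_⟩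
  · rw [Polynomial.coeff_zero_eq_eval_zero, hev]
    simp only [zero_mul, add_zero]
  · -- tangent
    have hFV : F ∈ V 64 (X01 : Fin 2 → MvPolynomial ℕ (Polynomial ℂ)) :=
      (net_mem e h0 wt).2.2.2.2 0
    have hval : ∀ s : Fin 65, ∑ t : Fin 65, (coeff (mono t) F).coeff 1 * ((s : ℕ) : ℂ) ^ (t : ℕ) =
        ∑ t : Fin 65, τ t * ((s : ℕ) : ℂ) ^ (t : ℕ) := by
      intro s
      have h1 := eval_V (Polynomial.C ((s : ℕ) : ℂ)) F hFV
      have h2 : eval (fun b : ℕ => if b = 0 then Polynomial.C ((s : ℕ) : ℂ) else 1) F =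
          G e (fun k a b => ((w k a b : ℕ) : ℂ)) x (fun b => ((ptN s b : ℕ) : ℂ)) 6 0 := by
        rw [hF, map_net, G]
        have e1 : (fun k a b => eval (fun b : ℕ => if b = 0 then Polynomial.C ((s : ℕ) : ℂ) else 1)
            (C (wt k a b))) = wt := by
          funext k a b
          rw [eval_C]
        have e2 : (fun b : ℕ => eval (fun b : ℕ => if b = 0 then Polynomial.C ((s : ℕ) : ℂ) else 1)
            (X b)) = fun b => Polynomial.C (((ptN s b : ℕ) : ℂ)) := by
          funext b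
          rw [eval_X, ptN]
          split_ifs <;> simp
        rw [e1, e2]
      rw [h2] at h1
      have h3 := congrArg (fun q => Polynomial.coeff q 1) h1
      simp only [Polynomial.finsetSum_coeff] at h3
      have h4 : ∀ t : Fin 65, (coeff (mono t) F * Polynomial.C ((s : ℕ) : ℂ) ^ (t : ℕ)).coeff 1 =
          (coeff (mono t) F).coeff 1 * ((s : ℕ) : ℂ) ^ (t : ℕ) := by
        intro t
        rw [← Polynomial.C_pow, Polynomial.coeff_mul_C]
      simp only [h4] at h3
      refine (h3.symm.trans (backprop e _ x _ h7 hx0 hx1)).trans (Eq.trans ?_ (hc s))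
      have hgg : g e (fun k a b => ((w k a b : ℕ) : ℂ)) (fun b => ((ptN s b : ℕ) : ℂ)) =
          fun k a => ((net e w (ptN s) k a : ℕ) : ℂ) := by
        funext k a
        exact g_cast e w (ptN s) k a
      rw [hgg]
      refine Finset.sum_congr rfl fun j _ => Finset.sum_congr rfl fun a _ =>
        Finset.sum_congr rfl fun b _ => ?_
      rw [back_cast]
    have hv : (fun t => (coeff (mono t) F).coeff 1 - τ t) = 0 := by
      refine Matrix.eq_zero_of_forall_index_sum_pow_mul_eq_zero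
        (f := fun s : Fin 65 => ((s : ℕ) : ℂ)) (fun s s' h => Fin.ext (Nat.cast_injective h)) ?_
      intro s
      have := hval s
      rw [← sub_eq_zero, ← Finset.sum_sub_distrib] at this
      refine Eq.trans ?_ this
      exact Finset.sum_congr rfl fun t _ => by ring
    intro t
    exact sub_eq_zero.1 (congrFun hv t)
  · apply Polynomial.funext
    intro z
    have h1 : Polynomial.eval z (aeval (fun t => coeff (mono t) F) P) =
        eval (fun t => (coeff (mono t) F).eval z) P := by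
      rw [← Polynomial.coe_evalRingHom, aeval_def, hom_eval₂]
      have e1 : (Polynomial.evalRingHom z).comp (algebraMap ℂ (Polynomial ℂ)) = RingHom.id ℂ := by
        ext a
        simp
      rw [e1]
      rfl
    rw [h1, Polynomial.eval_zero]
    have h2 : (fun t => (coeff (mono t) F).eval z) = fun t => coeff (mono t)
        (net e (fun k a b => C (((w k a b : ℕ) : ℂ) + z * x k a b)) X 6 0) := funext fun t => hev z t
    rw [h2]
    exact hP _

end generic

theorem surj' (v : Fin 65 → ℂ) : ∃ x : ℕ → ℕ → ℕ → ℂ, (∀ a b, x 0 a b = 0) ∧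
    (∀ a b, x 1 a b = 0) ∧ ∀ s : Fin 65, ∑ j ∈ Finset.range 5, ∑ a ∈ Finset.range (dd (7 - j)),
        ∑ b ∈ Finset.range (dd (6 - j)), x (6 - j) a b *
          (((back dd w0 (fun k a => net dd w0 (ptN s) k a) j a : ℕ) : ℂ) *
            ((net dd w0 (ptN s) (5 - j) b : ℕ) : ℂ) ^ 2) = v s := by
  obtain ⟨c, hc⟩ := surj v
  refine ⟨dir c, dir_low c 0 (by decide), dir_low c 1 (by decide), fun s => ?_⟩
  refine (sum_dir c (fun j a b => ((back dd w0 (fun k a => net dd w0 (ptN s) k a) j a : ℕ) : ℂ) *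
            ((net dd w0 (ptN s) (5 - j) b : ℕ) : ℂ) ^ 2)).trans (Eq.trans ?_ (hc s))
  refine Finset.sum_congr rfl fun i _ => ?_
  obtain ⟨c1, c2, c3, c4⟩ := col_ok i i.2
  have e1 : 5 - (6 - ck i) = ck i - 1 := by omega
  rw [e1, JN, mul_comm, Nat.cast_mul, Nat.cast_pow]
  rfl

theorem fill_core (P : MvPolynomial (Fin 65) ℂ)
    (hP : ∀ W : ℕ → ℕ → ℕ → ℂ,
      eval (fun t => coeff (mono t) (net dd (fun k a b => C (W k a b)) X 6 0)) P = 0) : P = 0 :=
  dominant dd w0 (by decide) (by decide) surj' P hP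

end Pool.Agent.H51.PolyFill
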