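import Mathlib

/-!
# Two general lemmas on images of polynomial maps

* `dense_of_tangent`: a polynomial vanishing on curves through a point with all tangent directions
  is zero.
* `exists_relation`: more polynomials than variables satisfy a polynomial relation.
-/

set_option autoImplicit false

namespace Pool.Agent.H51.PolyDense

open MvPolynomial

/-- Evaluation of a homogeneous polynomial at scaled arguments. -/
theorem aeval_homogeneous {n m : ℕ} {A : Type*} [CommRing A] [Algebra ℂ A]
    (φ : MvPolynomial (Fin n) ℂ) (hφ : φ.IsHomogeneous m) (c : A) (z : Fin n → A) :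
    aeval (fun j => c * z j) φ = c ^ m * aeval z φ := by
  rw [aeval_def, aeval_def, eval₂_eq', eval₂_eq', Finset.mul_sum]
  refine Finset.sum_congr rfl fun d hd => ?_
  have h1 : ∏ i, (c * z i) ^ d i = c ^ m * ∏ i, z i ^ d i := by
    simp_rw [mul_pow]
    rw [Finset.prod_mul_distrib, Finset.prod_pow_eq_pow_sum]
    congr 2
    have := hφ (mem_support_iff.1 hd)
    rw [← this, Finsupp.weight_apply, Finsupp.sum_fintype _ _ (fun _ => by simp)]
    simp
  rw [h1]
  ring

/-- If a polynomial vanishes on formal curves through `y₀` with every tangent direction, it is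
zero. -/
theorem dense_of_tangent {n : ℕ} (P : MvPolynomial (Fin n) ℂ) (y0 : Fin n → ℂ)
    (h : ∀ τ : Fin n → ℂ, ∃ y : Fin n → Polynomial ℂ, (∀ j, (y j).coeff 0 = y0 j) ∧
      (∀ j, (y j).coeff 1 = τ j) ∧ aeval y P = 0) : P = 0 := by
  classical
  by_contra hP
  set Q : MvPolynomial (Fin n) ℂ := aeval (fun j => X j + C (y0 j)) P with hQ
  have hQP : aeval (fun j => X j - C (y0 j)) Q = P := by
    rw [hQ, ← AlgHom.comp_apply, comp_aeval]
    have : (fun i => (aeval fun j => X j - C (y0 j)) (X i + C (y0 i))) =
        (X : Fin n → MvPolynomial (Fin n) ℂ) := by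
      funext i
      rw [map_add, aeval_X, aeval_C, ← algebraMap_eq, sub_add_cancel]
    rw [this, aeval_X_left]
    rfl
  have hQ0 : Q ≠ 0 := by
    intro h0
    rw [h0, map_zero] at hQP
    exact hP hQP.symm
  have hex : ∃ m, homogeneousComponent m Q ≠ 0 := by
    by_contra hall
    push Not at hall
    apply hQ0
    rw [← sum_homogeneousComponent Q]
    exact Finset.sum_eq_zero fun i _ => hall i
  set m := Nat.find hex with hm
  have hm1 : homogeneousComponent m Q ≠ 0 := Nat.find_spec hex
  have hm2 : ∀ i < m, homogeneousComponent i Q = 0 := by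
    intro i hi
    by_contra hne
    exact Nat.find_min hex hi hne
  apply hm1
  apply MvPolynomial.funext
  intro τ
  rw [map_zero]
  obtain ⟨y, hy0, hy1, hyP⟩ := h τ
  set z : Fin n → Polynomial ℂ := fun j => (y j).divX with hz
  have hyz : ∀ j, y j = Polynomial.X * z j + Polynomial.C (y0 j) := by
    intro j
    rw [hz, ← hy0 j, mul_comm]
    exact (Polynomial.divX_mul_X_add (y j)).symm
  have hz0 : ∀ j, (z j).coeff 0 = τ j := by
    intro j
    rw [hz, ← hy1 j]
    exact Polynomial.coeff_divX
  have hQz : aeval (fun j => Polynomial.X * z j) Q = 0 := by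
    rw [hQ, ← AlgHom.comp_apply, comp_aeval]
    have : (fun i => (aeval fun j => Polynomial.X * z j) (X i + C (y0 i))) = y := by
      funext i
      rw [map_add, aeval_X, aeval_C, hyz i]
      rfl
    rw [this]
    exact hyP
  have hsum : ∑ i ∈ Finset.range (Q.totalDegree + 1),
      Polynomial.X ^ i * aeval z (homogeneousComponent i Q) = 0 := by
    have h1 : aeval (fun j => Polynomial.X * z j) (∑ i ∈ Finset.range (Q.totalDegree + 1),
        homogeneousComponent i Q) = 0 := by
      rw [sum_homogeneousComponent]; exact hQz
    rw [map_sum] at h1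
    rw [← h1]
    refine Finset.sum_congr rfl fun i _ => ?_
    rw [aeval_homogeneous _ (homogeneousComponent_isHomogeneous i Q)]
  have hmem : m ∈ Finset.range (Q.totalDegree + 1) := by
    rw [Finset.mem_range]
    by_contra hlt
    exact hm1 (homogeneousComponent_eq_zero _ _ (by omega))
  have hcoeff : (aeval z (homogeneousComponent m Q)).coeff 0 = 0 := by
    have h1 := congrArg (fun p : Polynomial ℂ => p.coeff m) hsum
    simp only [Polynomial.finsetSum_coeff, Polynomial.coeff_zero] at h1
    rw [Finset.sum_eq_single_of_mem m hmem] at h1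
    · rw [Polynomial.coeff_X_pow_mul'] at h1
      simpa using h1
    · intro i _ hi
      rcases lt_or_gt_of_ne hi with hlt | hgt
      · rw [hm2 i hlt, map_zero, mul_zero, Polynomial.coeff_zero]
      · rw [Polynomial.coeff_X_pow_mul', if_neg (by omega)]
  have h2 : (aeval z (homogeneousComponent m Q)).coeff 0 = eval τ (homogeneousComponent m Q) := by
    have h3 : Polynomial.aeval (R := ℂ) (0 : ℂ) (aeval z (homogeneousComponent m Q)) =
        aeval τ (homogeneousComponent m Q) := by
      rw [← AlgHom.comp_apply, comp_aeval]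
      congr 2
      funext i
      rw [Polynomial.aeval_def, Polynomial.eval₂_at_zero, Algebra.algebraMap_self_apply, hz0]
    rw [Polynomial.aeval_def, Polynomial.eval₂_at_zero, Algebra.algebraMap_self_apply] at h3
    rw [h3, aeval_eq_eval]
  rw [← h2, hcoeff]

/-- More polynomials than variables satisfy a polynomial relation. -/
theorem exists_relation {ι : Type} [Fintype ι] {n : ℕ} (hn : Fintype.card ι < n)
    (Φ : Fin n → MvPolynomial ι ℂ) : ∃ P : MvPolynomial (Fin n) ℂ, P ≠ 0 ∧ aeval Φ P = 0 := by
  by_contra hcon
  push Not at hcon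
  have hind : AlgebraicIndependent ℂ Φ := by
    rw [algebraicIndependent_iff]
    intro p hp
    by_contra hne
    exact hcon p hne hp
  have h1 := hind.lift_cardinalMk_le_trdeg
  rw [MvPolynomial.trdeg_of_isDomain] at h1
  simp only [Cardinal.mk_fintype, Fintype.card_fin, Cardinal.lift_natCast, Nat.cast_le] at h1
  omega

end Pool.Agent.H51.PolyDense
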