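import Pool.Agent.H51.PolyNet
import Pool.Agent.H51.PolyNum

/-!
# The width vector `(2, 3, 4, 5, 4, 6, 4, 1)` is filling for squares
-/

set_option autoImplicit false

namespace Pool.Agent.H51.PolyFill

open MvPolynomial PolyNet PolyNum

/-! ### Backward values -/

/-- Backward values: `back e w g j` is the vector of derivatives of the output of layer `6` with
respect to the outputs of layer `6 - j`. -/
def back {B : Type} [CommSemiring B] (e : ℕ → ℕ) (w : ℕ → ℕ → ℕ → B) (g : ℕ → ℕ → B) : ℕ → ℕ → B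
  | 0 => fun b => if b = 0 then 1 else 0
  | j + 1 => fun b => ∑ a ∈ Finset.range (e (7 - j)),
      back e w g j a * (w (6 - j) a b * (2 * g (5 - j) b))

theorem map_back {B B' : Type} [CommSemiring B] [CommSemiring B'] (φ : B →+* B') (e : ℕ → ℕ)
    (w : ℕ → ℕ → ℕ → B) (g : ℕ → ℕ → B) (j : ℕ) : ∀ b : ℕ,
    φ (back e w g j b) = back e (fun k a b => φ (w k a b)) (fun k b => φ (g k b)) j b := by
  induction j with
  | zero => intro b; simp only [back]; split_ifs <;> simp
  | succ j ih =>
    intro b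
    simp only [back, map_sum, map_mul, map_ofNat, ih]

section tangent

variable (e : ℕ → ℕ) (w x : ℕ → ℕ → ℕ → ℂ) (pt : ℕ → ℂ)

/-- The network with weights `w + t x`. -/
noncomputable def G (k a : ℕ) : Polynomial ℂ :=
  net e (fun k a b => Polynomial.C (w k a b) + Polynomial.X * Polynomial.C (x k a b))
    (fun b => Polynomial.C (pt b)) k a

/-- The values at `t = 0`. -/
noncomputable def g (k a : ℕ) : ℂ := net e w pt k a

theorem G_coeff_zero (k a : ℕ) : (G e w x pt k a).coeff 0 = g e w pt k a := by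
  have h := map_net (Polynomial.evalRingHom (0 : ℂ)) e
    (fun k a b => Polynomial.C (w k a b) + Polynomial.X * Polynomial.C (x k a b))
    (fun b => Polynomial.C (pt b)) k a
  rw [Polynomial.coeff_zero_eq_eval_zero]
  refine h.trans ?_
  simp only [Polynomial.coe_evalRingHom, Polynomial.eval_add, Polynomial.eval_C,
    Polynomial.eval_mul, Polynomial.eval_X, zero_mul, add_zero]
  rfl

theorem G_coeff_one_zero (h0 : ∀ a b, x 0 a b = 0) (a : ℕ) : (G e w x pt 0 a).coeff 1 = 0 := by
  unfold G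
  simp only [net, lay, pow_one, Polynomial.finsetSum_coeff]
  refine Finset.sum_eq_zero fun b _ => ?_
  rw [h0, Polynomial.C_0, mul_zero, add_zero, Polynomial.mul_coeff_one]
  simp [Polynomial.coeff_C]

theorem G_coeff_one_succ (k a : ℕ) : (G e w x pt (k + 1) a).coeff 1 =
    ∑ b ∈ Finset.range (e (k + 1)), (x (k + 1) a b * g e w pt k b ^ 2 +
      w (k + 1) a b * (2 * g e w pt k b * (G e w x pt k b).coeff 1)) := by
  have h1 : G e w x pt (k + 1) a = ∑ b ∈ Finset.range (e (k + 1)),
      (Polynomial.C (w (k + 1) a b) + Polynomial.X * Polynomial.C (x (k + 1) a b)) *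
        G e w x pt k b ^ 2 := rfl
  rw [h1, Polynomial.finsetSum_coeff]
  refine Finset.sum_congr rfl fun b _ => ?_
  rw [Polynomial.mul_coeff_one, sq, Polynomial.mul_coeff_one, Polynomial.mul_coeff_zero,
    G_coeff_zero]
  simp [Polynomial.coeff_C, Polynomial.coeff_X]
  ring

theorem G_coeff_one_one (h0 : ∀ a b, x 0 a b = 0) (h1 : ∀ a b, x 1 a b = 0) (a : ℕ) :
    (G e w x pt 1 a).coeff 1 = 0 := by
  rw [G_coeff_one_succ]
  refine Finset.sum_eq_zero fun b _ => ?_
  rw [h1, G_coeff_one_zero e w x pt h0]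
  ring

theorem backprop_step (j : ℕ) (hj : j ≤ 5) :
    ∑ a ∈ Finset.range (e (7 - j)), back e w (g e w pt) j a * (G e w x pt (6 - j) a).coeff 1 =
    ∑ a ∈ Finset.range (e (7 - j)), ∑ b ∈ Finset.range (e (6 - j)),
      x (6 - j) a b * (back e w (g e w pt) j a * g e w pt (5 - j) b ^ 2) +
    ∑ b ∈ Finset.range (e (6 - j)), back e w (g e w pt) (j + 1) b *
      (G e w x pt (5 - j) b).coeff 1 := by
  have hk : 6 - j = (5 - j) + 1 := by omega
  have h1 : ∀ a, (G e w x pt (6 - j) a).coeff 1 =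
      ∑ b ∈ Finset.range (e (6 - j)), (x (6 - j) a b * g e w pt (5 - j) b ^ 2 +
        w (6 - j) a b * (2 * g e w pt (5 - j) b * (G e w x pt (5 - j) b).coeff 1)) := by
    intro a
    rw [hk]
    exact G_coeff_one_succ e w x pt (5 - j) a
  simp only [back, h1, Finset.sum_mul, Finset.mul_sum]
  rw [Finset.sum_comm (s := Finset.range (e (6 - j))), ← Finset.sum_add_distrib]
  refine Finset.sum_congr rfl fun a _ => ?_
  rw [← Finset.sum_add_distrib]
  exact Finset.sum_congr rfl fun b _ => by ring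

theorem backprop (h7 : e 7 = 1) (h0 : ∀ a b, x 0 a b = 0) (h1 : ∀ a b, x 1 a b = 0) :
    (G e w x pt 6 0).coeff 1 = ∑ j ∈ Finset.range 5, ∑ a ∈ Finset.range (e (7 - j)),
      ∑ b ∈ Finset.range (e (6 - j)),
        x (6 - j) a b * (back e w (g e w pt) j a * g e w pt (5 - j) b ^ 2) := by
  have key : ∀ j ≤ 5, (G e w x pt 6 0).coeff 1 =
      (∑ i ∈ Finset.range j, ∑ a ∈ Finset.range (e (7 - i)), ∑ b ∈ Finset.range (e (6 - i)),
        x (6 - i) a b * (back e w (g e w pt) i a * g e w pt (5 - i) b ^ 2)) +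
      ∑ a ∈ Finset.range (e (7 - j)), back e w (g e w pt) j a *
        (G e w x pt (6 - j) a).coeff 1 := by
    intro j
    induction j with
    | zero =>
      intro _
      simp [h7, back]
    | succ j ih =>
      intro hj
      rw [ih (by omega), backprop_step e w x pt j (by omega), Finset.sum_range_succ]
      have e1 : 7 - (j + 1) = 6 - j := by omega
      have e2 : 6 - (j + 1) = 5 - j := by omega
      rw [e1, e2]
      ring
  rw [key 5 le_rfl]
  have : ∑ a ∈ Finset.range (e (7 - 5)), back e w (g e w pt) 5 a *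
        (G e w x pt (6 - 5) a).coeff 1 = 0 := by
    refine Finset.sum_eq_zero fun a _ => ?_
    rw [G_coeff_one_one e w x pt h0 h1, mul_zero]
  rw [this, add_zero]

end tangent

/-! ### The numbers modulo `1009` -/

/-- The evaluation point `(s, 1)`. -/
def ptN (s b : ℕ) : ℕ := if b = 0 then s else 1

/-- The values of the network over `ℕ`. -/
def gN (s k a : ℕ) : ℕ := net dd w0 (ptN s) k a

/-- An entry of the Jacobian over `ℕ`. -/
def JN (s i : ℕ) : ℕ := back dd w0 (gN s) (6 - ck i) (ca i) * gN s (ck i - 1) (cb i) ^ 2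

theorem cast_of_mod {a b : ℕ} (h : a % 1009 = b % 1009) : (a : ZMod 1009) = (b : ZMod 1009) :=
  (ZMod.natCast_eq_natCast_iff' a b 1009).2 h

theorem g_mod (s : ℕ) (hs : s < 65) (k : ℕ) (hk : k ≤ 6) : ∀ a < dd (k + 1),
    (gN s k a : ZMod 1009) = (Gt s k a : ZMod 1009) := by
  induction k with
  | zero =>
    intro a ha
    have ha3 : a < 3 := ha
    have h := okG0
    rw [chkG0, allB_iff] at h
    have h1 := h s hs
    rw [allB_iff] at h1
    have h2 := Nat.eq_of_beq_eq_true (h1 a ha3)
    rw [← cast_of_mod h2, sumB_eq]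
    congr 1
    change ∑ b ∈ Finset.range (dd 0), w0 0 a b * ptN s b ^ 1 = _
    have hd : dd 0 = 2 := by decide
    rw [hd]
    refine Finset.sum_congr rfl fun b _ => ?_
    rw [pow_one, ptN]
    congr 1
    by_cases hb : b = 0
    · subst hb; rfl
    · rw [if_neg hb, if_neg]
      intro hb'
      exact hb (Nat.eq_of_beq_eq_true hb')
  | succ k ih =>
    intro a ha
    have ih' := ih (by omega)
    have h := okG
    rw [chkG, allB_iff] at h
    have h1 := h s hs
    rw [allB_iff] at h1
    have h2 := h1 k (by omega)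
    rw [allB_iff] at h2
    have h3 := Nat.eq_of_beq_eq_true (h2 a ha)
    rw [← cast_of_mod h3, sumB_eq]
    change ((∑ b ∈ Finset.range (dd (k + 1)), w0 (k + 1) a b * gN s k b ^ 2 : ℕ) : ZMod 1009) = _
    push_cast
    refine Finset.sum_congr rfl fun b hb => ?_
    rw [ih' b (Finset.mem_range.1 hb)]

theorem back_mod (s : ℕ) (hs : s < 65) (j : ℕ) (hj : j ≤ 4) : ∀ b < dd (7 - j),
    ((back dd w0 (gN s) j b : ℕ) : ZMod 1009) = (Dt s (6 - j) b : ZMod 1009) := by
  induction j with
  | zero =>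
    intro b hb
    have hb1 : b < 1 := hb
    have hb0 : b = 0 := by omega
    subst hb0
    have h := okD0
    rw [chkD0, allB_iff] at h
    have h1 := Nat.eq_of_beq_eq_true (h s hs)
    rw [Nat.sub_zero, h1]
    simp [back]
  | succ j ih =>
    intro b hb
    have ih' := ih (by omega)
    have h := okD
    rw [chkD, allB_iff] at h
    have h1 := h s hs
    rw [allB_iff] at h1
    have h2 := h1 (3 - j) (by omega)
    have e1 : 3 - j + 3 = 6 - j := by omega
    have e2 : 3 - j + 4 = 7 - j := by omega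
    have e3 : 3 - j + 2 = 5 - j := by omega
    rw [e1, e2, e3, allB_iff] at h2
    have e4 : 7 - (j + 1) = 6 - j := by omega
    have e5 : 6 - (j + 1) = 5 - j := by omega
    rw [e4] at hb
    rw [e5]
    have h3 := Nat.eq_of_beq_eq_true (h2 b hb)
    rw [← cast_of_mod h3, sumB_eq]
    simp only [back]
    push_cast
    refine Finset.sum_congr rfl fun a ha => ?_
    rw [ih' a (Finset.mem_range.1 ha), g_mod s hs (5 - j) (by omega) b (by
      have : 5 - j + 1 = 6 - j := by omega
      rw [this]; exact hb)]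

theorem col_ok (i : ℕ) (hi : i < 65) : 2 ≤ ck i ∧ ck i ≤ 6 ∧ ca i < dd (ck i + 1) ∧
    cb i < dd (ck i) := by
  have h := okC
  rw [chkC, allB_iff] at h
  have h1 := h i hi
  simp only [Bool.and_eq_true, Nat.ble_eq, Nat.blt_eq] at h1
  exact ⟨h1.1, h1.2.1, h1.2.2.1, h1.2.2.2⟩

theorem J_mod (s i : ℕ) (hs : s < 65) (hi : i < 65) :
    (JN s i : ZMod 1009) = (At s i : ZMod 1009) := by
  obtain ⟨h1, h2, h3, h4⟩ := col_ok i hi
  have h := okA
  rw [chkA, allB_iff] at h
  have h5 := h s hs
  rw [allB_iff] at h5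
  have h6 := Nat.eq_of_beq_eq_true (h5 i hi)
  rw [← cast_of_mod h6, JN]
  push_cast
  rw [back_mod s hs (6 - ck i) (by omega) (ca i) (by
      have : 7 - (6 - ck i) = ck i + 1 := by omega
      rw [this]; exact h3),
    g_mod s hs (ck i - 1) (by omega) (cb i) (by
      have : ck i - 1 + 1 = ck i := by omega
      rw [this]; exact h4)]
  have : 6 - (6 - ck i) = ck i := by omega
  rw [this]

/-- The Jacobian over `ℤ`. -/
def MZ : Matrix (Fin 65) (Fin 65) ℤ := fun s i => (JN s i : ℤ)

theorem det_MZ : MZ.det ≠ 0 := by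
  intro h0
  have hA : (MZ.map (Int.castRingHom (ZMod 1009))) *
      (Matrix.of fun i j : Fin 65 => (Bt i j : ZMod 1009)) = 1 := by
    ext s j
    rw [Matrix.mul_apply, Matrix.one_apply]
    have h := okI
    rw [chkI, allB_iff] at h
    have h1 := h s s.2
    rw [allB_iff] at h1
    have h2 := Nat.eq_of_beq_eq_true (h1 j j.2)
    rw [sumB_eq] at h2
    have h3 : ((∑ i ∈ Finset.range 65, At s i * Bt i j : ℕ) : ZMod 1009) =
        ((if s = j then 1 else 0 : ℕ) : ZMod 1009) := by
      apply cast_of_mod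
      rw [h2]
      by_cases hsj : s = j
      · subst hsj
        rw [if_pos rfl]
        have : Nat.beq (s : ℕ) s = true := Nat.beq_refl _
        rw [if_pos this]
      · rw [if_neg hsj, if_neg]
        intro hb
        exact hsj (Fin.ext (Nat.eq_of_beq_eq_true hb))
    rw [← Fin.sum_univ_eq_sum_range (fun i => At s i * Bt i j) 65] at h3
    push_cast at h3
    rw [← h3]
    refine Finset.sum_congr rfl fun i _ => ?_
    rw [Matrix.map_apply, MZ, ← J_mod s i s.2 i.2]
    simp
  have h1 := congrArg Matrix.det hA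
  rw [Matrix.det_mul, Matrix.det_one] at h1
  have h2 : (MZ.map (Int.castRingHom (ZMod 1009))).det = 0 := by
    have := (Int.castRingHom (ZMod 1009)).map_det MZ
    rw [h0, map_zero] at this
    rw [this]
    rfl
  rw [h2, zero_mul] at h1
  have : Fact (1 < 1009) := ⟨by norm_num⟩
  exact zero_ne_one h1

theorem surj (v : Fin 65 → ℂ) : ∃ c : Fin 65 → ℂ, ∀ s : Fin 65, ∑ i : Fin 65, (JN s i : ℂ) * c i = v s := by
  have hdet : (MZ.map (Int.castRingHom ℂ)).det ≠ 0 := by
    have := (Int.castRingHom ℂ).map_det MZ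
    rw [show (Int.castRingHom ℂ).mapMatrix MZ = MZ.map (Int.castRingHom ℂ) from rfl] at this
    rw [← this]
    simpa using det_MZ
  set M := MZ.map (Int.castRingHom ℂ) with hM
  refine ⟨M⁻¹.mulVec v, fun s => ?_⟩
  have h1 : M.mulVec (M⁻¹.mulVec v) = v := by
    rw [Matrix.mulVec_mulVec, Matrix.mul_nonsing_inv _ (isUnit_iff_ne_zero.2 hdet),
      Matrix.one_mulVec]
  have h2 := congrFun h1 s
  rw [← h2, Matrix.mulVec, dotProduct]
  refine Finset.sum_congr rfl fun i _ => ?_
  simp [hM, MZ, Matrix.map_apply]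

/-! ### Binary forms of degree `64` -/

theorem prod_X01 {A : Type} [CommRing A] (m : Multiset (Fin 2)) :
    (m.map (X01 : Fin 2 → MvPolynomial ℕ A)).prod =
      monomial (Finsupp.single 0 (m.count 0) + Finsupp.single 1 (m.count 1)) 1 := by
  induction m using Multiset.induction_on with
  | empty => simp
  | cons i m ih =>
    rw [Multiset.map_cons, Multiset.prod_cons, ih]
    have h01 : (0 : Fin 2) ≠ 1 := by decide
    have h10 : (1 : Fin 2) ≠ 0 := by decide
    fin_cases i
    · change (X 0 : MvPolynomial ℕ A) * _ = monomial (Finsupp.single 0 ((0 ::ₘ m).count 0) +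
        Finsupp.single 1 ((0 ::ₘ m).count 1)) 1
      rw [X, monomial_mul, mul_one, Multiset.count_cons_self, Multiset.count_cons_of_ne h10,
        Finsupp.single_add, add_comm (Finsupp.single 0 (m.count 0)) (Finsupp.single 0 1), add_assoc]
    · change (X 1 : MvPolynomial ℕ A) * _ = monomial (Finsupp.single 0 ((1 ::ₘ m).count 0) +
        Finsupp.single 1 ((1 ::ₘ m).count 1)) 1
      rw [X, monomial_mul, mul_one, Multiset.count_cons_self, Multiset.count_cons_of_ne h01,
        Finsupp.single_add, add_left_comm, add_comm (Finsupp.single 1 1)]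

theorem mon_X01 {A : Type} [CommRing A] (m : Sym (Fin 2) 64) :
    ∃ t : Fin 65, mon 64 (X01 : Fin 2 → MvPolynomial ℕ A) m = monomial (mono t) 1 := by
  have hcard : (m : Multiset (Fin 2)).count 0 + (m : Multiset (Fin 2)).count 1 = 64 := by
    have h1 := Multiset.sum_count_eq_card (s := Finset.univ) (m := (m : Multiset (Fin 2)))
      (fun a _ => Finset.mem_univ a)
    rw [Fin.sum_univ_two] at h1
    rw [h1]
    exact m.2
  refine ⟨⟨(m : Multiset (Fin 2)).count 0, by omega⟩, ?_⟩
  rw [mon, prod_X01, mono]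
  have : 64 - (m : Multiset (Fin 2)).count 0 = (m : Multiset (Fin 2)).count 1 := by omega
  simp only [this]

theorem mono_injective : Function.Injective mono := by
  intro t t' h
  have h1 := DFunLike.congr_fun h 0
  simp [mono] at h1
  exact Fin.ext h1

/-- The value of a form of degree `64` at `(S, 1)`. -/
theorem eval_V {A : Type} [CommRing A] (S : A) (f : MvPolynomial ℕ A)
    (hf : f ∈ V 64 (X01 : Fin 2 → MvPolynomial ℕ A)) :
    eval (fun b : ℕ => if b = 0 then S else 1) f = ∑ t : Fin 65, coeff (mono t) f * S ^ (t : ℕ) := by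
  classical
  unfold V at hf
  induction hf using Submodule.span_induction with
  | mem x hx =>
    obtain ⟨m, rfl⟩ := hx
    obtain ⟨t, ht⟩ := mon_X01 (A := A) m
    rw [ht, eval_monomial, one_mul]
    have h1 : ∀ t' : Fin 65, coeff (mono t') (monomial (mono t) (1 : A)) * S ^ (t' : ℕ) =
        if t' = t then S ^ (t : ℕ) else 0 := by
      intro t'
      rw [coeff_monomial]
      by_cases h : t' = t
      · rw [if_pos h, if_pos (by rw [h]), h, one_mul]
      · rw [if_neg h, if_neg (fun h' => h (mono_injective h').symm), zero_mul]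
    rw [Finset.sum_congr rfl fun t' _ => h1 t', Finset.sum_ite_eq' Finset.univ t, if_pos
      (Finset.mem_univ _)]
    rw [mono, Finsupp.prod_add_index' (by simp) (by intros; rw [pow_add]),
      Finsupp.prod_single_index (by simp), Finsupp.prod_single_index (by simp)]
    simp
  | zero => simp
  | add x y _ _ hx hy =>
    rw [map_add, hx, hy, ← Finset.sum_add_distrib]
    exact Finset.sum_congr rfl fun t _ => by rw [coeff_add, add_mul]
  | smul a x _ hx =>
    rw [smul_eval, hx, Finset.mul_sum]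
    exact Finset.sum_congr rfl fun t _ => by rw [coeff_smul, smul_eq_mul, mul_assoc]

/-- Outside of the monomials of degree `64` in `x₀, x₁` the coefficients vanish. -/
theorem coeff_V {A : Type} [CommRing A] (f : MvPolynomial ℕ A)
    (hf : f ∈ V 64 (X01 : Fin 2 → MvPolynomial ℕ A)) (m : ℕ →₀ ℕ) (hm : ∀ t, m ≠ mono t) :
    coeff m f = 0 := by
  classical
  unfold V at hf
  induction hf using Submodule.span_induction with
  | mem x hx =>
    obtain ⟨m', rfl⟩ := hx
    obtain ⟨t, ht⟩ := mon_X01 (A := A) m'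
    rw [ht, coeff_monomial, if_neg (fun h => hm t h.symm)]
  | zero => simp
  | add x y _ _ hx hy => rw [coeff_add, hx, hy, add_zero]
  | smul a x _ hx => rw [coeff_smul, hx, smul_zero]

/-- The outputs of a network of widths `2, …` are forms. -/
theorem net_mem {A : Type} [CommRing A] (e : ℕ → ℕ) (he : e 0 = 2) (w : ℕ → ℕ → ℕ → A) :
    (∀ a, net e (fun k a b => C (w k a b)) X 0 a ∈ V 1 (X01 : Fin 2 → MvPolynomial ℕ A)) ∧
    (∀ a, net e (fun k a b => C (w k a b)) X 1 a ∈ V 2 (X01 : Fin 2 → MvPolynomial ℕ A)) ∧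
    (∀ a, net e (fun k a b => C (w k a b)) X 2 a ∈ V 4 (X01 : Fin 2 → MvPolynomial ℕ A)) ∧
    (∀ a, net e (fun k a b => C (w k a b)) X 3 a ∈ V 8 (X01 : Fin 2 → MvPolynomial ℕ A)) ∧
    (∀ a, net e (fun k a b => C (w k a b)) X 6 a ∈ V 64 (X01 : Fin 2 → MvPolynomial ℕ A)) := by
  have h0 : ∀ a, net e (fun k a b => C (w k a b)) X 0 a ∈
      V 1 (X01 : Fin 2 → MvPolynomial ℕ A) := by
    intro a
    refine lay_mem_one (e 0) (w 0) X (fun b hb => ?_) a
    rw [he] at hb
    exact mem_V_one (X01 : Fin 2 → MvPolynomial ℕ A) ⟨b, hb⟩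
  have h1 := fun a => lay_mem_two (n := 2) rfl (e 1) (w 1) _ h0 a
  have h2 := fun a => lay_mem_two (n := 4) rfl (e 2) (w 2) _ h1 a
  have h3 := fun a => lay_mem_two (n := 8) rfl (e 3) (w 3) _ h2 a
  have h4 := fun a => lay_mem_two (n := 16) rfl (e 4) (w 4) _ h3 a
  have h5 := fun a => lay_mem_two (n := 32) rfl (e 5) (w 5) _ h4 a
  have h6 := fun a => lay_mem_two (n := 64) rfl (e 6) (w 6) _ h5 a
  exact ⟨h0, h1, h2, h3, h6⟩

/-! ### The direction realising given values -/

/-- The weight direction attached to a vector. -/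
noncomputable def dir (c : Fin 65 → ℂ) (k a b : ℕ) : ℂ :=
  ∑ i : Fin 65, if ck i = k ∧ ca i = a ∧ cb i = b then c i else 0

theorem dir_low (c : Fin 65 → ℂ) (k : ℕ) (hk : k < 2) (a b : ℕ) : dir c k a b = 0 := by
  refine Finset.sum_eq_zero fun i _ => ?_
  rw [if_neg]
  rintro ⟨h, _⟩
  have := (col_ok i i.2).1
  omega

theorem sum_dir (c : Fin 65 → ℂ) (φ : ℕ → ℕ → ℕ → ℂ) :
    ∑ j ∈ Finset.range 5, ∑ a ∈ Finset.range (dd (7 - j)), ∑ b ∈ Finset.range (dd (6 - j)),
      dir c (6 - j) a b * φ j a b = ∑ i : Fin 65, c i * φ (6 - ck i) (ca i) (cb i) := by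
  have h1 : ∀ j a b, dir c (6 - j) a b * φ j a b =
      ∑ i : Fin 65, (if ck i = 6 - j ∧ ca i = a ∧ cb i = b then c i else 0) * φ j a b := by
    intro j a b
    rw [dir, Finset.sum_mul]
  simp only [h1]
  have h2 : ∀ j a, ∑ b ∈ Finset.range (dd (6 - j)), ∑ i : Fin 65,
      (if ck i = 6 - j ∧ ca i = a ∧ cb i = b then c i else 0) * φ j a b =
      ∑ i : Fin 65, ∑ b ∈ Finset.range (dd (6 - j)),
      (if ck i = 6 - j ∧ ca i = a ∧ cb i = b then c i else 0) * φ j a b :=
    fun j a => Finset.sum_comm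
  simp only [h2]
  have h3 : ∀ j, ∑ a ∈ Finset.range (dd (7 - j)), ∑ i : Fin 65,
      ∑ b ∈ Finset.range (dd (6 - j)),
      (if ck i = 6 - j ∧ ca i = a ∧ cb i = b then c i else 0) * φ j a b =
      ∑ i : Fin 65, ∑ a ∈ Finset.range (dd (7 - j)), ∑ b ∈ Finset.range (dd (6 - j)),
      (if ck i = 6 - j ∧ ca i = a ∧ cb i = b then c i else 0) * φ j a b :=
    fun j => Finset.sum_comm
  simp only [h3]
  rw [Finset.sum_comm]
  refine Finset.sum_congr rfl fun i _ => ?_
  obtain ⟨c1, c2, c3, c4⟩ := col_ok i i.2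
  have e1 : 7 - (6 - ck i) = ck i + 1 := by omega
  have e2 : 6 - (6 - ck i) = ck i := by omega
  rw [Finset.sum_eq_single (6 - ck i), Finset.sum_eq_single (ca i), Finset.sum_eq_single (cb i)]
  · rw [if_pos ⟨e2.symm, rfl, rfl⟩]
  · intro b _ hb
    rw [if_neg (fun h => hb h.2.2.symm), zero_mul]
  · intro h
    rw [e2] at h
    exact absurd (Finset.mem_range.2 c4) h
  · intro a _ ha
    refine Finset.sum_eq_zero fun b _ => ?_
    rw [if_neg (fun h => ha h.2.1.symm), zero_mul]
  · intro h
    rw [e1] at h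
    exact absurd (Finset.mem_range.2 c3) h
  · intro j hj hj'
    have := Finset.mem_range.1 hj
    refine Finset.sum_eq_zero fun a _ => Finset.sum_eq_zero fun b _ => ?_
    rw [if_neg, zero_mul]
    rintro ⟨h, _⟩
    omega
  · intro h
    exact absurd (Finset.mem_range.2 (by omega)) h

end Pool.Agent.H51.PolyFill
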