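import Pool.Agent.H51.PolyCore

/-!
# The width vector `(2, 3, 4, 5, 4, 6, 4, 1)` is filling and minimal
-/

set_option autoImplicit false

namespace Pool.Agent.H51.PolyFill

open MvPolynomial PolyNet PolyNum

/-- The outputs of the last layer. -/
noncomputable def out (e : ℕ → ℕ) (W : ℕ → ℕ → ℕ → ℂ) (a : ℕ) : MvPolynomial ℕ ℂ :=
  net e (fun k a b => C (W k a b)) X 6 a

/-- The filling property for networks with `7` layers and the activation `x²`. -/
def Fill (e : ℕ → ℕ) : Prop :=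
  ∀ P : MvPolynomial (ℕ × (ℕ →₀ ℕ)) ℂ,
    (∀ W : ℕ → ℕ → ℕ → ℂ, eval (fun p : ℕ × (ℕ →₀ ℕ) => coeff p.2 (out e W p.1)) P = 0) →
      ∀ c : ℕ × (ℕ →₀ ℕ) → ℂ,
        (∀ p : ℕ × (ℕ →₀ ℕ), c p ≠ 0 →
          p.1 < e 7 ∧ (∑ b ∈ p.2.support, p.2 b) = 2 ^ (7 - 1) ∧ ∀ b ∈ p.2.support, b < e 0) →
        eval c P = 0

/-! ### Monomials -/

theorem mono_of (m : ℕ →₀ ℕ) (h1 : (∑ b ∈ m.support, m b) = 2 ^ (7 - 1))
    (h2 : ∀ b ∈ m.support, b < 2) : ∃ t : Fin 65, m = mono t := by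
  have hsub : m.support ⊆ {0, 1} := by
    intro b hb
    have := h2 b hb
    simp only [Finset.mem_insert, Finset.mem_singleton]
    omega
  have hs : ∑ b ∈ m.support, m b = m 0 + m 1 := by
    rw [Finset.sum_subset hsub (fun b _ hb => Finsupp.notMem_support_iff.1 hb)]
    rw [Finset.sum_pair (by decide)]
  rw [hs] at h1
  have h3 : m 0 + m 1 = 64 := by
    rw [h1]
    norm_num
  refine ⟨⟨m 0, by omega⟩, ?_⟩
  ext b
  rw [mono]
  simp only [Finsupp.add_apply, Finsupp.single_apply]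
  by_cases hb0 : b = 0
  · subst hb0
    simp
  · by_cases hb1 : b = 1
    · subst hb1
      simp
      omega
    · have : b ∉ m.support := fun hb => by
        have := h2 b hb
        omega
      rw [Finsupp.notMem_support_iff.1 this, if_neg (fun h => hb0 h.symm),
        if_neg (fun h => hb1 h.symm), add_zero]

theorem mono_spec (t : Fin 65) : (∑ b ∈ (mono t).support, (mono t) b) = 2 ^ (7 - 1) ∧
    ∀ b ∈ (mono t).support, b < 2 := by
  have hsub : (mono t).support ⊆ {0, 1} := by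
    intro b hb
    by_contra hb'
    simp only [Finset.mem_insert, Finset.mem_singleton, not_or] at hb'
    apply Finsupp.mem_support_iff.1 hb
    rw [mono]
    simp only [Finsupp.add_apply, Finsupp.single_apply]
    rw [if_neg (fun h => hb'.1 h.symm), if_neg (fun h => hb'.2 h.symm), add_zero]
  constructor
  · rw [Finset.sum_subset hsub (fun b _ hb => Finsupp.notMem_support_iff.1 hb),
      Finset.sum_pair (by decide), mono]
    simp only [Finsupp.add_apply, Finsupp.single_apply]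
    have := t.2
    norm_num
    omega
  · intro b hb
    have := hsub hb
    simp only [Finset.mem_insert, Finset.mem_singleton] at this
    omega

/-- The vector on `ℕ × (ℕ →₀ ℕ)` attached to a vector on `Fin 65`. -/
noncomputable def ext {A : Type} [AddCommMonoid A] (y : Fin 65 → A) (p : ℕ × (ℕ →₀ ℕ)) : A :=
  open Classical in if p.1 = 0 then ∑ t : Fin 65, if p.2 = mono t then y t else 0 else 0

theorem ext_mono {A : Type} [AddCommMonoid A] (y : Fin 65 → A) (t : Fin 65) :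
    ext y (0, mono t) = y t := by
  classical
  rw [ext, if_pos rfl, Finset.sum_eq_single t]
  · rw [if_pos rfl]
  · intro t' _ ht'
    rw [if_neg (fun h => ht' (mono_injective h).symm)]
  · intro h
    exact absurd (Finset.mem_univ t) h

theorem ext_of_ne {A : Type} [AddCommMonoid A] (y : Fin 65 → A) (p : ℕ × (ℕ →₀ ℕ))
    (hp : ∀ t, p ≠ (0, mono t)) : ext y p = 0 := by
  classical
  rw [ext]
  split_ifs with h
  · refine Finset.sum_eq_zero fun t _ => ?_
    rw [if_neg]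
    intro h2
    exact hp t (Prod.ext h h2)
  · rfl

theorem ext_eq {A : Type} [AddCommMonoid A] (f : ℕ × (ℕ →₀ ℕ) → A)
    (hf : ∀ p, (∀ t, p ≠ (0, mono t)) → f p = 0) : f = ext (fun t => f (0, mono t)) := by
  funext p
  by_cases hp : ∀ t, p ≠ (0, mono t)
  · rw [hf p hp, ext_of_ne _ p hp]
  · push Not at hp
    obtain ⟨t, rfl⟩ := hp
    rw [ext_mono]

theorem eval_ext (P : MvPolynomial (ℕ × (ℕ →₀ ℕ)) ℂ) (y : Fin 65 → ℂ) :
    eval y (aeval (ext (X : Fin 65 → MvPolynomial (Fin 65) ℂ)) P) = eval (ext y) P := by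
  rw [aeval_def, eval, coe_eval₂Hom, ← coe_eval₂Hom (RingHom.id ℂ) y, hom_eval₂]
  have e1 : (eval₂Hom (RingHom.id ℂ) y).comp (algebraMap ℂ (MvPolynomial (Fin 65) ℂ)) =
      RingHom.id ℂ := by
    ext a
    simp
  have e2 : (fun i => (eval₂Hom (RingHom.id ℂ) y)
      (ext (X : Fin 65 → MvPolynomial (Fin 65) ℂ) i)) = ext y := by
    funext p
    by_cases hp : ∀ t, p ≠ (0, mono t)
    · rw [ext_of_ne _ p hp, ext_of_ne _ p hp, map_zero]
    · push Not at hp
      obtain ⟨t, rfl⟩ := hp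
      rw [ext_mono, ext_mono]
      simp
  rw [e1]
  change eval₂ _ (fun i => (eval₂Hom (RingHom.id ℂ) y)
      (ext (X : Fin 65 → MvPolynomial (Fin 65) ℂ) i)) P = _
  rw [e2]
  rfl

/-! ### Changing the weights -/

theorem net_congr {B : Type} [CommSemiring B] {e e' : ℕ → ℕ} {w w' : ℕ → ℕ → ℕ → B} {x : ℕ → B}
    (n : ℕ) (h : ∀ k ≤ n, ∀ (a : ℕ) (u : ℕ → B),
      ∑ b ∈ Finset.range (e k), w k a b * u b = ∑ b ∈ Finset.range (e' k), w' k a b * u b) :
    ∀ a, net e w x n a = net e' w' x n a := by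
  induction n with
  | zero =>
    intro a
    exact h 0 le_rfl a (fun b => x b ^ 1)
  | succ n ih =>
    intro a
    have ih' := ih (fun k hk => h k (by omega))
    have h1 : net e w x n = net e' w' x n := funext ih'
    change ∑ b ∈ Finset.range (e (n + 1)), w (n + 1) a b * net e w x n b ^ 2 =
      ∑ b ∈ Finset.range (e' (n + 1)), w' (n + 1) a b * net e' w' x n b ^ 2
    rw [h1]
    exact h (n + 1) le_rfl a (fun b => net e' w' x n b ^ 2)

/-- Monotonicity in the widths. -/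
theorem out_mono {e e' : ℕ → ℕ} (h : ∀ k ≤ 6, e k ≤ e' k) (W : ℕ → ℕ → ℕ → ℂ) :
    ∃ W' : ℕ → ℕ → ℕ → ℂ, ∀ a, out e W a = out e' W' a := by
  classical
  refine ⟨fun k a b => if b < e k then W k a b else 0, fun a => ?_⟩
  rw [out, out]
  refine net_congr 6 (fun k hk a u => ?_) a
  have hsub : Finset.range (e k) ⊆ Finset.range (e' k) := Finset.range_subset_range.2 (h k hk)
  rw [← Finset.sum_subset hsub]
  · refine Finset.sum_congr rfl fun b hb => ?_
    rw [if_pos (Finset.mem_range.1 hb)]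
  · intro b _ hb
    rw [if_neg (fun h' => hb (Finset.mem_range.2 h')), C_0, zero_mul]

/-- Only the first output matters. -/
theorem out_first (e : ℕ → ℕ) (W : ℕ → ℕ → ℕ → ℂ) :
    ∃ W' : ℕ → ℕ → ℕ → ℂ, out e W' 0 = out e W 0 ∧ ∀ a, a ≠ 0 → out e W' a = 0 := by
  classical
  refine ⟨fun k a b => if k = 6 ∧ a ≠ 0 then 0 else W k a b, ?_, ?_⟩
  · rw [out, out]
    change ∑ b ∈ Finset.range (e 6), _ = ∑ b ∈ Finset.range (e 6), _
    refine Finset.sum_congr rfl fun b _ => ?_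
    change C (if (6 : ℕ) = 6 ∧ (0 : ℕ) ≠ 0 then 0 else W 6 0 b) * _ = C (W 6 0 b) * _
    rw [if_neg (fun h => h.2 rfl)]
    congr 2
  · intro a ha
    rw [out]
    change ∑ b ∈ Finset.range (e 6), _ = 0
    refine Finset.sum_eq_zero fun b _ => ?_
    change C (if (6 : ℕ) = 6 ∧ a ≠ 0 then 0 else W 6 a b) * _ = 0
    rw [if_pos ⟨rfl, ha⟩, C_0, zero_mul]

/-! ### Filling -/

theorem fill_dd : Fill dd := by
  intro P hP c hc
  have h7 : dd 7 = 1 := by decide
  have h0 : dd 0 = 2 := by decide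
  have hP' : aeval (ext (X : Fin 65 → MvPolynomial (Fin 65) ℂ)) P = 0 := by
    apply fill_core
    intro W
    rw [eval_ext]
    obtain ⟨W', hW1, hW2⟩ := out_first dd W
    rw [← hP W']
    congr 1
    have h1 : (fun p : ℕ × (ℕ →₀ ℕ) => coeff p.2 (out dd W' p.1)) =
        ext (fun t => coeff (mono t) (out dd W' 0)) := by
      refine ext_eq _ fun p hp => ?_
      by_cases hp1 : p.1 = 0
      · change coeff p.2 (out dd W' p.1) = 0
        rw [hp1]
        refine coeff_V _ ((net_mem dd h0 W').2.2.2.2 0) p.2 fun t ht => ?_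
        exact hp t (Prod.ext hp1 ht)
      · change coeff p.2 (out dd W' p.1) = 0
        rw [hW2 p.1 hp1, coeff_zero]
    rw [h1, hW1]
    rfl
  have h2 : c = ext (fun t => c (0, mono t)) := by
    refine ext_eq _ fun p hp => ?_
    by_contra hcp
    obtain ⟨h3, h4, h5⟩ := hc p hcp
    rw [h7] at h3
    rw [h0] at h5
    obtain ⟨t, ht⟩ := mono_of p.2 h4 h5
    exact hp t (Prod.ext (by omega) ht)
  rw [h2, ← eval_ext, hP', map_zero]

theorem not_fill {e : ℕ → ℕ} (h0 : e 0 = 2) (h7 : e 7 = 1)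
    (h : ∃ P : MvPolynomial (Fin 65) ℂ, P ≠ 0 ∧ ∀ W, eval (fun t => coeff (mono t) (out e W 0)) P = 0) :
    ¬ Fill e := by
  obtain ⟨P, hP0, hP⟩ := h
  intro hF
  apply hP0
  apply MvPolynomial.funext
  intro y
  rw [map_zero]
  have h1 := hF (rename (fun t => ((0 : ℕ), mono t)) P) (fun W => ?_) (ext y) ?_
  · rw [eval_rename] at h1
    have h2 : (ext y ∘ fun t => ((0 : ℕ), mono t)) = y := by
      funext t
      exact ext_mono y t
    rw [h2] at h1
    exact h1
  · rw [eval_rename]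
    exact hP W
  · intro p hp
    have h3 : ∃ t, p = (0, mono t) := by
      by_contra hne
      push Not at hne
      exact hp (ext_of_ne y p hne)
    obtain ⟨t, rfl⟩ := h3
    rw [h0, h7]
    exact ⟨by simp, (mono_spec t).1, (mono_spec t).2⟩

/-! ### The six neighbours -/

theorem card_sym (k n m : ℕ) (h : (k + n - 1).choose n = m) : Fintype.card (Sym (Fin k) n) = m := by
  rw [Sym.card_sym_eq_choose, Fintype.card_fin, h]

variable {e : ℕ → ℕ}

/-- The first neighbour. -/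
theorem nbr1 (h0 : e 0 = 2) (h1 : e 1 = 2) : ∃ P : MvPolynomial (Fin 65) ℂ, P ≠ 0 ∧
    ∀ W, eval (fun t => coeff (mono t) (out e W 0)) P = 0 := by
  obtain ⟨P, hP0, hP⟩ := two_level (k := 2) (n := 1) (n' := 32)
    (by rw [card_sym 2 32 33 (by decide)]; norm_num) (Set.range fun W => out e W 0) (by
      rintro _ ⟨W, rfl⟩
      refine ⟨fun i => net e (fun k a b => C (W k a b)) X 0 i, fun i => (net_mem e h0 W).1 i, ?_⟩
      have a1 : ∀ a, net e (fun k a b => C (W k a b)) X 1 a ∈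
          V 1 (fun i : Fin 2 => net e (fun k a b => C (W k a b)) X 0 i ^ 2) := by
        intro a
        have := lay_mem_sq (e 1) (W 1) (net e (fun k a b => C (W k a b)) X 0) a
        rw [h1] at this
        change lay (e 1) 2 _ _ a ∈ _
        rw [h1]
        exact this
      have a2 := fun a => lay_mem_two (n := 2) rfl (e 2) (W 2) _ a1 a
      have a3 := fun a => lay_mem_two (n := 4) rfl (e 3) (W 3) _ a2 a
      have a4 := fun a => lay_mem_two (n := 8) rfl (e 4) (W 4) _ a3 a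
      have a5 := fun a => lay_mem_two (n := 16) rfl (e 5) (W 5) _ a4 a
      exact lay_mem_two (n := 32) rfl (e 6) (W 6) _ a5 0)
  exact ⟨P, hP0, fun W => hP _ ⟨W, rfl⟩⟩

theorem lay_sq' {N : ℕ} (k : ℕ) (hk : e (k + 1) = N) (W : ℕ → ℕ → ℕ → ℂ) (a : ℕ) :
    net e (fun k a b => C (W k a b)) X (k + 1) a ∈
      V 1 (fun i : Fin N => net e (fun k a b => C (W k a b)) X k i ^ 2) := by
  subst hk
  exact lay_mem_sq (e (k + 1)) (W (k + 1)) (net e (fun k a b => C (W k a b)) X k) a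

/-- The fourth neighbour. -/
theorem nbr4 (h0 : e 0 = 2) (h4 : e 4 = 3) : ∃ P : MvPolynomial (Fin 65) ℂ, P ≠ 0 ∧
    ∀ W, eval (fun t => coeff (mono t) (out e W 0)) P = 0 := by
  obtain ⟨P, hP0, hP⟩ := two_level (k := 3) (n := 8) (n' := 4)
    (by rw [card_sym 3 4 15 (by decide)]; norm_num) (Set.range fun W => out e W 0) (by
      rintro _ ⟨W, rfl⟩
      refine ⟨fun i => net e (fun k a b => C (W k a b)) X 3 i,
        fun i => (net_mem e h0 W).2.2.2.1 i, ?_⟩
      have a4 := lay_sq' 3 h4 W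
      have a5 := fun a => lay_mem_two (n := 2) rfl (e 5) (W 5) _ a4 a
      exact lay_mem_two (n := 4) rfl (e 6) (W 6) _ a5 0)
  exact ⟨P, hP0, fun W => hP _ ⟨W, rfl⟩⟩

/-- The second neighbour. -/
theorem nbr2 (h0 : e 0 = 2) (h2 : e 2 = 3) (h4 : e 4 = 4) : ∃ P : MvPolynomial (Fin 65) ℂ, P ≠ 0 ∧
    ∀ W, eval (fun t => coeff (mono t) (out e W 0)) P = 0 := by
  have : Nonempty (Sym (Fin 3) 2) := ⟨Sym.replicate 2 0⟩
  obtain ⟨P, hP0, hP⟩ := three_level (k1 := 3) (n1 := 2) (k2 := 4) (n2 := 2) (n3 := 4)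
    (by rw [card_sym 3 2 6 (by decide), card_sym 4 4 35 (by decide)]; norm_num)
    (Set.range fun W => out e W 0) (by
      rintro _ ⟨W, rfl⟩
      refine ⟨fun i => net e (fun k a b => C (W k a b)) X 1 i,
        fun i => net e (fun k a b => C (W k a b)) X 3 i, fun i => (net_mem e h0 W).2.1 i, ?_, ?_⟩
      · have a2 := lay_sq' 1 h2 W
        exact fun j => lay_mem_two (n := 2) rfl (e 3) (W 3) _ a2 j
      · have a4 := lay_sq' 3 h4 W
        have a5 := fun a => lay_mem_two (n := 2) rfl (e 5) (W 5) _ a4 a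
        exact lay_mem_two (n := 4) rfl (e 6) (W 6) _ a5 0)
  exact ⟨P, hP0, fun W => hP _ ⟨W, rfl⟩⟩

/-- The third neighbour. -/
theorem nbr3 (h0 : e 0 = 2) (h3 : e 3 = 4) (h4 : e 4 = 4) : ∃ P : MvPolynomial (Fin 65) ℂ, P ≠ 0 ∧
    ∀ W, eval (fun t => coeff (mono t) (out e W 0)) P = 0 := by
  have : Nonempty (Sym (Fin 4) 1) := ⟨Sym.replicate 1 0⟩
  obtain ⟨P, hP0, hP⟩ := three_level (k1 := 4) (n1 := 4) (k2 := 4) (n2 := 1) (n3 := 4)
    (by rw [card_sym 4 1 4 (by decide), card_sym 4 4 35 (by decide)]; norm_num)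
    (Set.range fun W => out e W 0) (by
      rintro _ ⟨W, rfl⟩
      refine ⟨fun i => net e (fun k a b => C (W k a b)) X 2 i,
        fun i => net e (fun k a b => C (W k a b)) X 3 i, fun i => (net_mem e h0 W).2.2.1 i, ?_, ?_⟩
      · exact fun j => lay_sq' 2 h3 W j
      · have a4 := lay_sq' 3 h4 W
        have a5 := fun a => lay_mem_two (n := 2) rfl (e 5) (W 5) _ a4 a
        exact lay_mem_two (n := 4) rfl (e 6) (W 6) _ a5 0)
  exact ⟨P, hP0, fun W => hP _ ⟨W, rfl⟩⟩

/-- The fifth neighbour. -/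
theorem nbr5 (h0 : e 0 = 2) (h4 : e 4 = 4) (h5 : e 5 = 5) : ∃ P : MvPolynomial (Fin 65) ℂ, P ≠ 0 ∧
    ∀ W, eval (fun t => coeff (mono t) (out e W 0)) P = 0 := by
  have : Nonempty (Sym (Fin 4) 1) := ⟨Sym.replicate 1 0⟩
  obtain ⟨P, hP0, hP⟩ := three_level (k1 := 4) (n1 := 8) (k2 := 5) (n2 := 1) (n3 := 2)
    (by rw [card_sym 4 1 4 (by decide), card_sym 5 2 15 (by decide)]; norm_num)
    (Set.range fun W => out e W 0) (by
      rintro _ ⟨W, rfl⟩
      refine ⟨fun i => net e (fun k a b => C (W k a b)) X 3 i,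
        fun i => net e (fun k a b => C (W k a b)) X 4 i, fun i => (net_mem e h0 W).2.2.2.1 i,
        ?_, ?_⟩
      · exact fun j => lay_sq' 3 h4 W j
      · have a5 := lay_sq' 4 h5 W
        exact lay_mem_two (n := 2) rfl (e 6) (W 6) _ a5 0)
  exact ⟨P, hP0, fun W => hP _ ⟨W, rfl⟩⟩

/-- The sixth neighbour. -/
theorem nbr6 (h0 : e 0 = 2) (h4 : e 4 = 4) (h6 : e 6 = 3) : ∃ P : MvPolynomial (Fin 65) ℂ, P ≠ 0 ∧
    ∀ W, eval (fun t => coeff (mono t) (out e W 0)) P = 0 := by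
  have : Nonempty (Sym (Fin 4) 2) := ⟨Sym.replicate 2 0⟩
  obtain ⟨P, hP0, hP⟩ := three_level (k1 := 4) (n1 := 8) (k2 := 3) (n2 := 2) (n3 := 1)
    (by rw [card_sym 4 2 10 (by decide), card_sym 3 1 3 (by decide)]; norm_num)
    (Set.range fun W => out e W 0) (by
      rintro _ ⟨W, rfl⟩
      refine ⟨fun i => net e (fun k a b => C (W k a b)) X 3 i,
        fun i => net e (fun k a b => C (W k a b)) X 5 i, fun i => (net_mem e h0 W).2.2.2.1 i,
        ?_, ?_⟩
      · have a4 := lay_sq' 3 h4 W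
        exact fun j => lay_mem_two (n := 2) rfl (e 5) (W 5) _ a4 j
      · exact lay_sq' 5 h6 W 0)
  exact ⟨P, hP0, fun W => hP _ ⟨W, rfl⟩⟩

end Pool.Agent.H51.PolyFill
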