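import Pool.Agent.H51.PolyDense

/-!
# Polynomial networks: forms in the squares of a layer, and non-filling by counting parameters
-/

set_option autoImplicit false

namespace Pool.Agent.H51.PolyNet

open MvPolynomial

/-- One layer. -/
def lay {B : Type} [CommSemiring B] (n r : ℕ) (w : ℕ → ℕ → B) (h : ℕ → B) (a : ℕ) : B :=
  ∑ b ∈ Finset.range n, w a b * h b ^ r

/-- The network: `net e w x k a` is the `a`-th output of layer `k` (the layers being numbered from
`0`, and layer `k` having `e k` inputs). -/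
def net {B : Type} [CommSemiring B] (e : ℕ → ℕ) (w : ℕ → ℕ → ℕ → B) (x : ℕ → B) : ℕ → ℕ → B
  | 0 => lay (e 0) 1 (w 0) x
  | k + 1 => lay (e (k + 1)) 2 (w (k + 1)) (net e w x k)

theorem map_lay {B B' : Type} [CommSemiring B] [CommSemiring B'] (φ : B →+* B') (n r : ℕ)
    (w : ℕ → ℕ → B) (h : ℕ → B) (a : ℕ) :
    φ (lay n r w h a) = lay n r (fun a b => φ (w a b)) (fun b => φ (h b)) a := by
  simp [lay, map_sum, map_mul, map_pow]

theorem map_net {B B' : Type} [CommSemiring B] [CommSemiring B'] (φ : B →+* B') (e : ℕ → ℕ)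
    (w : ℕ → ℕ → ℕ → B) (x : ℕ → B) (k : ℕ) : ∀ a : ℕ,
    φ (net e w x k a) = net e (fun k a b => φ (w k a b)) (fun b => φ (x b)) k a := by
  induction k with
  | zero => intro a; exact map_lay φ _ _ _ _ _
  | succ k ih =>
    intro a
    rw [net, map_lay, net]
    congr 1
    funext b
    exact ih b

/-! ### Forms of degree `n` in a family -/

section forms

variable {A : Type} [CommRing A]

/-- The monomials of degree `n` in the family `H`. -/
noncomputable def mon {k : ℕ} (n : ℕ) (H : Fin k → MvPolynomial ℕ A) (m : Sym (Fin k) n) :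
    MvPolynomial ℕ A :=
  ((m : Multiset (Fin k)).map H).prod

/-- The form of degree `n` with coefficients `c` in the family `H`. -/
noncomputable def form {k : ℕ} (n : ℕ) (H : Fin k → MvPolynomial ℕ A) (c : Sym (Fin k) n → A) :
    MvPolynomial ℕ A :=
  ∑ m, C (c m) * mon n H m

/-- The space of forms of degree `n` in the family `H`. -/
noncomputable def V {k : ℕ} (n : ℕ) (H : Fin k → MvPolynomial ℕ A) :
    Submodule A (MvPolynomial ℕ A) :=
  Submodule.span A (Set.range (mon n H))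

theorem mem_V_iff {k n : ℕ} {H : Fin k → MvPolynomial ℕ A} {f : MvPolynomial ℕ A} :
    f ∈ V n H ↔ ∃ c, f = form n H c := by
  rw [V, Submodule.mem_span_range_iff_exists_fun]
  constructor
  · rintro ⟨c, hc⟩
    refine ⟨c, ?_⟩
    rw [← hc, form]
    exact Finset.sum_congr rfl fun m _ => by rw [smul_eq_C_mul]
  · rintro ⟨c, hc⟩
    refine ⟨c, ?_⟩
    rw [hc, form]
    exact Finset.sum_congr rfl fun m _ => by rw [smul_eq_C_mul]

theorem V_mul {k m n : ℕ} {H : Fin k → MvPolynomial ℕ A} {f g : MvPolynomial ℕ A}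
    (hf : f ∈ V m H) (hg : g ∈ V n H) : f * g ∈ V (m + n) H := by
  have h1 : f * g ∈ V m H * V n H := Submodule.mul_mem_mul hf hg
  refine (?_ : V m H * V n H ≤ V (m + n) H) h1
  rw [V, V, Submodule.span_mul_span, Submodule.span_le]
  rintro _ ⟨_, ⟨a, rfl⟩, _, ⟨b, rfl⟩, rfl⟩
  refine Submodule.subset_span ⟨⟨(a : Multiset (Fin k)) + (b : Multiset (Fin k)), ?_⟩, ?_⟩
  · exact (Multiset.card_add _ _).trans (congrArg₂ _ a.2 b.2)
  · simp only [mon]
    rw [← Multiset.prod_add, ← Multiset.map_add]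
    rfl

theorem V_sq {k m n : ℕ} (hn : n = m + m) {H : Fin k → MvPolynomial ℕ A} {f : MvPolynomial ℕ A}
    (hf : f ∈ V m H) : f ^ 2 ∈ V n H := by
  rw [sq, hn]
  exact V_mul hf hf

theorem mem_V_one {k : ℕ} (H : Fin k → MvPolynomial ℕ A) (i : Fin k) : H i ∈ V 1 H := by
  refine Submodule.subset_span ⟨⟨{i}, rfl⟩, ?_⟩
  simp [mon]

theorem V_scale {k n : ℕ} {H H' : Fin k → MvPolynomial ℕ A} (s : Fin k → A)
    (h : ∀ i, H i = C (s i) * H' i) : V n H ≤ V n H' := by
  rw [V, Submodule.span_le]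
  rintro _ ⟨m, rfl⟩
  have h1 : mon n H m = ((m : Multiset (Fin k)).map s).prod • mon n H' m := by
    simp only [mon]
    have : (m : Multiset (Fin k)).map H = (m : Multiset (Fin k)).map (fun i => C (s i) * H' i) :=
      Multiset.map_congr rfl fun i _ => h i
    rw [this, Multiset.prod_map_mul, smul_eq_C_mul]
    congr 1
    rw [map_multiset_prod, Multiset.map_map]
    rfl
  rw [h1]
  exact Submodule.smul_mem _ _ (Submodule.subset_span ⟨m, rfl⟩)

theorem lay_mem_one {k m : ℕ} {H : Fin k → MvPolynomial ℕ A} (N : ℕ) (w : ℕ → ℕ → A)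
    (h : ℕ → MvPolynomial ℕ A) (hh : ∀ b < N, h b ∈ V m H) (a : ℕ) :
    lay N 1 (fun a b => C (w a b)) h a ∈ V m H := by
  refine Submodule.sum_mem _ fun b hb => ?_
  rw [pow_one, ← smul_eq_C_mul]
  exact Submodule.smul_mem _ _ (hh b (Finset.mem_range.1 hb))

theorem lay_mem_two {k m n : ℕ} (hn : n = m + m) {H : Fin k → MvPolynomial ℕ A} (N : ℕ)
    (w : ℕ → ℕ → A) (h : ℕ → MvPolynomial ℕ A) (hh : ∀ b, h b ∈ V m H) (a : ℕ) :
    lay N 2 (fun a b => C (w a b)) h a ∈ V n H := by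
  refine Submodule.sum_mem _ fun b _ => ?_
  rw [← smul_eq_C_mul]
  exact Submodule.smul_mem _ _ (V_sq hn (hh b))

theorem lay_mem_sq (N : ℕ) (w : ℕ → ℕ → A) (h : ℕ → MvPolynomial ℕ A) (a : ℕ) :
    lay N 2 (fun a b => C (w a b)) h a ∈ V 1 (fun i : Fin N => h i ^ 2) := by
  refine Submodule.sum_mem _ fun b hb => ?_
  rw [← smul_eq_C_mul]
  exact Submodule.smul_mem _ _ (mem_V_one (fun i : Fin N => h i ^ 2) ⟨b, Finset.mem_range.1 hb⟩)

end forms

theorem map_form {A A' : Type} [CommRing A] [CommRing A'] (φ : A →+* A') {k n : ℕ}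
    (H : Fin k → MvPolynomial ℕ A) (c : Sym (Fin k) n → A) :
    map φ (form n H c) = form n (fun i => map φ (H i)) (fun m => φ (c m)) := by
  rw [form, form, map_sum]
  refine Finset.sum_congr rfl fun m _ => ?_
  rw [map_mul, map_C, mon, mon, map_multiset_prod, Multiset.map_map]
  rfl

/-- The two variables. -/
noncomputable def X01 {A : Type} [CommRing A] (i : Fin 2) : MvPolynomial ℕ A := X (i : ℕ)

theorem map_X01 {A A' : Type} [CommRing A] [CommRing A'] (φ : A →+* A') (i : Fin 2) :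
    map φ (X01 i) = X01 i := by
  rw [X01, X01, map_X]

/-! ### Normalised vectors -/

/-- The vector with entry `1` at `j₀` and the entries `u` elsewhere. -/
def nv {J A : Type} [DecidableEq J] [One A] (j0 : J) (u : {j : J // j ≠ j0} → A) (j : J) : A :=
  if h : j = j0 then 1 else u ⟨j, h⟩

theorem exists_nv {J : Type} [DecidableEq J] [Nonempty J] (v : J → ℂ) :
    ∃ (j0 : J) (s : ℂ) (u : {j : J // j ≠ j0} → ℂ), ∀ j, v j = s * nv j0 u j := by
  by_cases h : ∃ j, v j ≠ 0
  · obtain ⟨j0, hj0⟩ := h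
    refine ⟨j0, v j0, fun j => v j / v j0, fun j => ?_⟩
    unfold nv
    split_ifs with hj
    · rw [hj, mul_one]
    · field_simp
  · push Not at h
    refine ⟨Classical.arbitrary J, 0, 0, fun j => ?_⟩
    rw [h j, zero_mul]

theorem map_nv {J A A' : Type} [DecidableEq J] [CommRing A] [CommRing A'] (φ : A →+* A') (j0 : J)
    (u : {j : J // j ≠ j0} → A) (j : J) : φ (nv j0 u j) = nv j0 (fun j => φ (u j)) j := by
  unfold nv
  split_ifs
  · exact map_one φ
  · rfl

theorem form_smul {A : Type} [CommRing A] {k n : ℕ} (H : Fin k → MvPolynomial ℕ A) (s : A)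
    (c : Sym (Fin k) n → A) : form n H (fun m => s * c m) = C s * form n H c := by
  rw [form, form, Finset.mul_sum]
  exact Finset.sum_congr rfl fun m _ => by rw [C_mul, mul_assoc]

/-- A two-level family. -/
noncomputable def fam2 {A : Type} [CommRing A] {k n n' : ℕ} (c : Fin k → Sym (Fin 2) n → A)
    (c' : Sym (Fin k) n' → A) : MvPolynomial ℕ A :=
  form n' (fun i => form n X01 (c i) ^ 2) c'

/-- A three-level family. -/
noncomputable def fam3 {A : Type} [CommRing A] {k1 n1 k2 n2 n3 : ℕ}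
    (c : Fin k1 → Sym (Fin 2) n1 → A) (d : Fin k2 → Sym (Fin k1) n2 → A)
    (c' : Sym (Fin k2) n3 → A) : MvPolynomial ℕ A :=
  form n3 (fun j => form n2 (fun i => form n1 X01 (c i) ^ 2) (d j) ^ 2) c'

theorem map_fam2 {A A' : Type} [CommRing A] [CommRing A'] (φ : A →+* A') {k n n' : ℕ}
    (c : Fin k → Sym (Fin 2) n → A) (c' : Sym (Fin k) n' → A) :
    map φ (fam2 c c') = fam2 (fun i m => φ (c i m)) (fun m => φ (c' m)) := by
  rw [fam2, fam2, map_form]
  congr 1
  funext i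
  rw [map_pow, map_form]
  congr 2
  funext j
  exact map_X01 φ j

theorem map_fam3 {A A' : Type} [CommRing A] [CommRing A'] (φ : A →+* A') {k1 n1 k2 n2 n3 : ℕ}
    (c : Fin k1 → Sym (Fin 2) n1 → A) (d : Fin k2 → Sym (Fin k1) n2 → A)
    (c' : Sym (Fin k2) n3 → A) :
    map φ (fam3 c d c') = fam3 (fun i m => φ (c i m)) (fun i m => φ (d i m))
      (fun m => φ (c' m)) := by
  rw [fam3, fam3, map_form]
  congr 1
  funext i
  rw [map_pow, map_form]
  congr 2
  funext j
  rw [map_pow, map_form]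
  congr 2
  funext l
  exact map_X01 φ l

theorem card_sym2 (n : ℕ) : Fintype.card (Sym (Fin 2) n) = n + 1 := by
  rw [Sym.card_sym_eq_choose, Fintype.card_fin]
  have : 2 + n - 1 = n + 1 := by omega
  rw [this, Nat.choose_succ_self_right]

/-! ### Parameter counts -/

/-- The monomials of degree `64` in `x₀, x₁`. -/
noncomputable def mono (t : Fin 65) : ℕ →₀ ℕ := 
  Finsupp.single 0 (t : ℕ) + Finsupp.single 1 (64 - (t : ℕ))

/-- A set of polynomials covered by finitely many families with fewer than `65` parameters. -/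
theorem relation_of_cover {S : Type} [Fintype S] (ι : S → Type) [∀ σ, Fintype (ι σ)]
    (F : ∀ σ, MvPolynomial ℕ (MvPolynomial (ι σ) ℂ)) (hι : ∀ σ, Fintype.card (ι σ) < 65)
    (T : Set (MvPolynomial ℕ ℂ)) (hT : ∀ f ∈ T, ∃ (σ : S) (u : ι σ → ℂ), f = map (eval u) (F σ)) :
    ∃ P : MvPolynomial (Fin 65) ℂ, P ≠ 0 ∧ ∀ f ∈ T, eval (fun t => coeff (mono t) f) P = 0 := by
  choose P hP0 hP using fun σ => PolyDense.exists_relation (hι σ) (fun t => coeff (mono t) (F σ))
  refine ⟨∏ σ, P σ, Finset.prod_ne_zero_iff.2 fun σ _ => hP0 σ, ?_⟩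
  intro f hf
  obtain ⟨σ, u, rfl⟩ := hT f hf
  rw [map_prod]
  apply Finset.prod_eq_zero (Finset.mem_univ σ)
  have h1 : (fun t => coeff (mono t) (map (eval u) (F σ))) =
      fun t => eval u (coeff (mono t) (F σ)) := by
    funext t; rw [coeff_map]
  rw [h1]
  have h2 := congrArg (eval u) (hP σ)
  rw [map_zero] at h2
  rw [← h2, ← coe_aeval_eq_eval, ← coe_aeval_eq_eval]
  change aeval _ (P σ) = aeval u (aeval _ (P σ))
  rw [← AlgHom.comp_apply, comp_aeval]
  rfl

/-- Two levels, no normalisation. -/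
theorem two_level {k n n' : ℕ} (hcard : k * (n + 1) + Fintype.card (Sym (Fin k) n') < 65)
    (T : Set (MvPolynomial ℕ ℂ))
    (hT : ∀ f ∈ T, ∃ h : Fin k → MvPolynomial ℕ ℂ, (∀ i, h i ∈ V n X01) ∧
      f ∈ V n' (fun i => h i ^ 2)) :
    ∃ P : MvPolynomial (Fin 65) ℂ, P ≠ 0 ∧ ∀ f ∈ T, eval (fun t => coeff (mono t) f) P = 0 := by
  refine relation_of_cover (S := Unit) (fun _ => (Fin k × Sym (Fin 2) n) ⊕ Sym (Fin k) n')
    (fun _ => fam2 (fun i m => X (Sum.inl (i, m))) (fun m => X (Sum.inr m))) ?_ T ?_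
  · intro _
    rw [Fintype.card_sum, Fintype.card_prod, Fintype.card_fin, card_sym2]
    exact hcard
  · intro f hf
    obtain ⟨h, hh, hfV⟩ := hT f hf
    choose c hc using fun i => mem_V_iff.1 (hh i)
    obtain ⟨c', hc'⟩ := mem_V_iff.1 hfV
    refine ⟨(), Sum.elim (fun p => c p.1 p.2) c', ?_⟩
    have hfun : h = fun i => form n X01 (c i) := funext hc
    rw [hfun] at hc'
    rw [map_fam2, hc', fam2]
    simp only [eval_X, Sum.elim_inl, Sum.elim_inr]

/-- The parameters of a three-level family, normalised at `σ`. -/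
abbrev Par {k1 n1 k2 n2 : ℕ} (n3 : ℕ) (σ1 : Fin k1 → Sym (Fin 2) n1)
    (σ2 : Fin k2 → Sym (Fin k1) n2) : Type :=
  ((Σ i : Fin k1, {m : Sym (Fin 2) n1 // m ≠ σ1 i}) ⊕
    (Σ j : Fin k2, {m : Sym (Fin k1) n2 // m ≠ σ2 j})) ⊕ Sym (Fin k2) n3

/-- Three levels, normalised. -/
theorem three_level {k1 n1 k2 n2 n3 : ℕ} [Nonempty (Sym (Fin k1) n2)]
    (hcard : k1 * n1 + k2 * (Fintype.card (Sym (Fin k1) n2) - 1) +
      Fintype.card (Sym (Fin k2) n3) < 65)
    (T : Set (MvPolynomial ℕ ℂ))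
    (hT : ∀ f ∈ T, ∃ (h : Fin k1 → MvPolynomial ℕ ℂ) (g : Fin k2 → MvPolynomial ℕ ℂ),
      (∀ i, h i ∈ V n1 X01) ∧ (∀ j, g j ∈ V n2 (fun i => h i ^ 2)) ∧ f ∈ V n3 (fun j => g j ^ 2)) :
    ∃ P : MvPolynomial (Fin 65) ℂ, P ≠ 0 ∧ ∀ f ∈ T, eval (fun t => coeff (mono t) f) P = 0 := by
  classical
  have hne : Nonempty (Sym (Fin 2) n1) := ⟨Sym.replicate n1 0⟩
  refine relation_of_cover (S := (Fin k1 → Sym (Fin 2) n1) × (Fin k2 → Sym (Fin k1) n2))
    (fun σ => Par n3 σ.1 σ.2)
    (fun σ => fam3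
      (fun i => nv (σ.1 i) (fun m => (X (Sum.inl (Sum.inl ⟨i, m⟩)) :
        MvPolynomial (Par n3 σ.1 σ.2) ℂ)))
      (fun j => nv (σ.2 j) (fun m => (X (Sum.inl (Sum.inr ⟨j, m⟩)) :
        MvPolynomial (Par n3 σ.1 σ.2) ℂ)))
      (fun m => (X (Sum.inr m) : MvPolynomial (Par n3 σ.1 σ.2) ℂ))) ?_ T ?_
  · intro σ
    rw [Fintype.card_sum, Fintype.card_sum, Fintype.card_sigma, Fintype.card_sigma]
    have e1 : ∀ i, Fintype.card {m : Sym (Fin 2) n1 // m ≠ σ.1 i} = n1 := by
      intro i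
      rw [Fintype.card_subtype_compl, Fintype.card_subtype_eq, card_sym2]
      simp
    have e2 : ∀ j, Fintype.card {m : Sym (Fin k1) n2 // m ≠ σ.2 j} =
        Fintype.card (Sym (Fin k1) n2) - 1 := by
      intro j
      rw [Fintype.card_subtype_compl, Fintype.card_subtype_eq]
    simp only [e1, e2, Finset.sum_const, Finset.card_univ, Fintype.card_fin, smul_eq_mul]
    exact hcard
  · intro f hf
    obtain ⟨h, g, hh, hg, hfV⟩ := hT f hf
    choose c hc using fun i => mem_V_iff.1 (hh i)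
    choose σ1 s1 u1 hu1 using fun i => exists_nv (c i)
    set h' : Fin k1 → MvPolynomial ℕ ℂ := fun i => form n1 X01 (nv (σ1 i) (u1 i)) with hh'
    have hhs : ∀ i, h i = C (s1 i) * h' i := by
      intro i
      rw [hc i, hh', ← form_smul]
      congr 1
      funext m
      exact hu1 i m
    have hg' : ∀ j, g j ∈ V n2 (fun i => h' i ^ 2) := by
      intro j
      refine V_scale (fun i => s1 i ^ 2) (fun i => ?_) (hg j)
      rw [hhs i, mul_pow, C_pow]
    choose d hd using fun j => mem_V_iff.1 (hg' j)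
    choose σ2 s2 u2 hu2 using fun j => exists_nv (d j)
    set g' : Fin k2 → MvPolynomial ℕ ℂ := fun j => form n2 (fun i => h' i ^ 2)
      (nv (σ2 j) (u2 j)) with hg''
    have hgs : ∀ j, g j = C (s2 j) * g' j := by
      intro j
      rw [hd j, hg'', ← form_smul]
      congr 1
      funext m
      exact hu2 j m
    have hf' : f ∈ V n3 (fun j => g' j ^ 2) := by
      refine V_scale (fun j => s2 j ^ 2) (fun j => ?_) hfV
      rw [hgs j, mul_pow, C_pow]
    obtain ⟨c', hc'⟩ := mem_V_iff.1 hf'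
    refine ⟨(σ1, σ2), Sum.elim (Sum.elim (fun p => u1 p.1 p.2) (fun p => u2 p.1 p.2)) c', ?_⟩
    rw [map_fam3, hc', fam3]
    simp only [map_nv, eval_X, Sum.elim_inl, Sum.elim_inr]
    rfl

end Pool.Agent.H51.PolyNet
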