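import Pool.Agent.H168DD.TB

/-! Total domination in claw-free diamond-free cubic graphs: triangle structure, lower bound. -/

namespace H51.TD

open Finset

/-- `S` is a total dominating set of `G`. -/
def IsTDS {V : Type*} (G : SimpleGraph V) (S : Finset V) : Prop := ∀ v, ∃ w ∈ S, G.Adj v w

/-- Connected claw-free diamond-free cubic graphs. -/
structure InClass {V : Type*} (G : SimpleGraph V) : Prop where
  conn : G.Connected
  cubic : ∀ v, (G.neighborSet v).ncard = 3
  clawFree : ∀ v a b c, G.Adj v a → G.Adj v b → G.Adj v c → a ≠ b → a ≠ c → b ≠ c →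
    G.Adj a b ∨ G.Adj a c ∨ G.Adj b c
  diamondFree : ∀ a b c d, G.Adj a c → G.Adj a d → G.Adj b c → G.Adj b d → G.Adj c d →
    a ≠ b → G.Adj a b

/-- A partition of `V` into triples (the fibres of `π`) and a fixed point free involution `σ`
joining different triples. -/
structure TS (V B : Type*) where
  π : V → B
  σ : V → V
  fib : ∀ b, {v | π v = b}.ncard = 3
  inv : ∀ v, σ (σ v) = v
  ne : ∀ v, π (σ v) ≠ π v

/-- The cubic graph of a triangle structure. -/
def TS.graph {V B : Type*} (T : TS V B) : SimpleGraph V where
  Adj v w := (v ≠ w ∧ T.π v = T.π w) ∨ w = T.σ v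
  symm := ⟨by
    rintro v w (⟨h1, h2⟩ | h)
    · exact Or.inl ⟨h1.symm, h2.symm⟩
    · right; rw [h, T.inv]⟩
  loopless := ⟨by
    rintro v (⟨h1, _⟩ | h)
    · exact h1 rfl
    · exact T.ne v (congrArg T.π h.symm)⟩

theorem TS.adj_iff {V B : Type*} (T : TS V B) (v w : V) :
    T.graph.Adj v w ↔ (v ≠ w ∧ T.π v = T.π w) ∨ w = T.σ v := Iff.rfl

theorem TS.σ_inj {V B : Type*} (T : TS V B) {v w : V} (h : T.σ v = T.σ w) : v = w := by
  rw [← T.inv v, h, T.inv]

open Classical in
theorem TS.card_fib {V B : Type*} [Fintype V] (T : TS V B) (b : B) :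
    (univ.filter (fun v => T.π v = b)).card = 3 := by
  rw [← T.fib b, Set.ncard_eq_toFinset_card']
  congr 1
  ext v; simp

open Classical in
theorem TS.card_fibs {V B : Type*} [Fintype V] (T : TS V B) (X : Finset B) :
    (univ.filter (fun v => T.π v ∈ X)).card = 3 * X.card := by
  rw [Finset.card_eq_sum_card_fiberwise (f := T.π) (t := X)
    (fun v hv => by simpa using hv)]
  rw [Finset.sum_congr rfl (g := fun _ => 3)]
  · simp [mul_comm]
  · intro b hb
    rw [← T.card_fib b]
    congr 1
    ext v
    simp only [mem_filter, mem_univ, true_and]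
    constructor
    · exact fun h => h.2
    · intro h; exact ⟨h ▸ hb, h⟩

open Classical in
theorem TS.card_V {V B : Type*} [Fintype V] [Fintype B] (T : TS V B) :
    Fintype.card V = 3 * Fintype.card B := by
  have := T.card_fibs (univ : Finset B)
  simpa using this

open Classical in
theorem TS.deg_le {V B : Type*} [Fintype V] (T : TS V B) (w : V) (D : Finset V) :
    (D.filter (fun v => T.graph.Adj v w)).card ≤ 3 := by
  have h1 : D.filter (fun v => T.graph.Adj v w) ⊆
      ((univ.filter (fun v => T.π v = T.π w)).erase w) ∪ {T.σ w} := by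
    intro v hv
    rw [mem_filter, T.adj_iff] at hv
    rcases hv.2 with ⟨h1, h2⟩ | h
    · apply mem_union_left
      rw [mem_erase, mem_filter]
      exact ⟨h1, mem_univ _, h2⟩
    · apply mem_union_right
      rw [h, T.inv]; exact mem_singleton_self _
  refine (card_le_card h1).trans ((card_union_le _ _).trans ?_)
  rw [card_erase_of_mem (by simp), T.card_fib]
  simp

open Classical in
/-- Local count: an odd block of triangles with `x` outside helpers. -/
theorem TS.claim {V B : Type*} [Fintype V] [Fintype B] (T : TS V B) (C A : Finset B)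
    (hCA : Disjoint C A) (hodd : Odd C.card)
    (hcl : ∀ v, T.π v ∈ C → T.π (T.σ v) ∈ C ∨ T.π (T.σ v) ∈ A)
    (S : Finset V) (hS : IsTDS T.graph S) :
    C.card + 1 ≤ (S.filter (fun v => T.π v ∈ C)).card +
      (S.filter (fun v => T.π v ∈ A ∧ T.π (T.σ v) ∈ C)).card := by
  set D : Finset V := univ.filter (fun v => T.π v ∈ C) with hD
  set Si := S.filter (fun v => T.π v ∈ C) with hSi
  set X := S.filter (fun v => T.π v ∈ A ∧ T.π (T.σ v) ∈ C) with hX
  have hDcard : D.card = 3 * C.card := T.card_fibs C
  have hdc : ∑ v ∈ D, (S.filter (fun w => T.graph.Adj v w)).card =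
      ∑ w ∈ S, (D.filter (fun v => T.graph.Adj v w)).card :=
    Finset.sum_card_bipartiteAbove_eq_sum_card_bipartiteBelow (fun v w => T.graph.Adj v w)
  have hup : ∑ w ∈ S, (D.filter (fun v => T.graph.Adj v w)).card ≤ 3 * Si.card + X.card := by
    have hle : ∀ w ∈ S, (D.filter (fun v => T.graph.Adj v w)).card ≤
        (if T.π w ∈ C then 3 else 0) + (if T.π w ∈ A ∧ T.π (T.σ w) ∈ C then 1 else 0) := by
      intro w _
      by_cases hw : T.π w ∈ C
      · rw [if_pos hw]
        exact (T.deg_le w D).trans (Nat.le_add_right _ _)
      · rw [if_neg hw, zero_add]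
        have hsub : D.filter (fun v => T.graph.Adj v w) ⊆
            (if T.π w ∈ A ∧ T.π (T.σ w) ∈ C then {T.σ w} else ∅) := by
          intro v hv
          rw [mem_filter, T.adj_iff, hD, mem_filter] at hv
          obtain ⟨⟨_, hvC⟩, h⟩ := hv
          rcases h with ⟨_, h2⟩ | h
          · exact absurd (h2 ▸ hvC) hw
          · have hv' : T.σ w = v := by rw [h, T.inv]
            have h3 := hcl v hvC
            rw [← h] at h3
            rcases h3 with h3 | h3
            · exact absurd h3 hw
            · rw [if_pos ⟨h3, by rw [hv']; exact hvC⟩, hv']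
              exact mem_singleton_self _
        refine (card_le_card hsub).trans ?_
        split_ifs <;> simp
    refine (sum_le_sum hle).trans ?_
    rw [sum_add_distrib, ← sum_filter, ← sum_filter, ← hSi, ← hX]
    simp [mul_comm]
  have hpos : ∀ v ∈ D, 1 ≤ (S.filter (fun w => T.graph.Adj v w)).card := by
    intro v _
    obtain ⟨w, hw, hvw⟩ := hS v
    exact card_pos.2 ⟨w, mem_filter.2 ⟨hw, hvw⟩⟩
  have hlow : D.card ≤ ∑ v ∈ D, (S.filter (fun w => T.graph.Adj v w)).card := by
    calc D.card = ∑ _v ∈ D, 1 := by simp
      _ ≤ _ := sum_le_sum hpos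
  by_cases hx : X.card = 0
  · -- no helpers
    by_contra hcon
    have hSC : Si.card = C.card := by omega
    have heq : ∑ v ∈ D, (S.filter (fun w => T.graph.Adj v w)).card = ∑ _v ∈ D, 1 := by
      simp only [sum_const, smul_eq_mul, mul_one]
      omega
    have hone : ∀ v ∈ D, (S.filter (fun w => T.graph.Adj v w)).card = 1 := by
      have := (Finset.sum_eq_sum_iff_of_le hpos).1 heq.symm
      intro v hv; exact (this v hv).symm
    have hX0 : X = ∅ := card_eq_zero.1 hx
    choose φ hφS hφ using hS
    have hev : Even Si.card := by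
      apply H168DD.even_of_inv Si.card Si φ rfl
      intro v hv
      rw [hSi, mem_filter] at hv
      have hφC : T.π (φ v) ∈ C := by
        have h := hφ v
        rw [T.adj_iff] at h
        rcases h with ⟨_, h2⟩ | h
        · rw [← h2]; exact hv.2
        · rcases hcl v hv.2 with h3 | h3
          · rw [h]; exact h3
          · exfalso
            have : φ v ∈ X := by
              rw [hX, mem_filter]
              refine ⟨hφS v, ?_, ?_⟩
              · rw [h]; exact h3
              · rw [h, T.inv]; exact hv.2
            rw [hX0] at this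
            simp at this
      refine ⟨?_, ?_, ?_⟩
      · rw [hSi, mem_filter]; exact ⟨hφS v, hφC⟩
      · have h1 := hone (φ v) (by rw [hD, mem_filter]; exact ⟨mem_univ _, hφC⟩)
        rw [card_eq_one] at h1
        obtain ⟨z, hz⟩ := h1
        have e1 : v ∈ S.filter (fun w => T.graph.Adj (φ v) w) := by
          rw [mem_filter]; exact ⟨hv.1, (hφ v).symm⟩
        have e2 : φ (φ v) ∈ S.filter (fun w => T.graph.Adj (φ v) w) := by
          rw [mem_filter]; exact ⟨hφS _, hφ _⟩
        rw [hz, mem_singleton] at e1 e2
        exact e2.trans e1.symm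
      · exact (hφ v).ne'
    rw [hSC] at hev
    exact (Nat.not_even_iff_odd.2 hodd) hev
  · omega

open Classical in
theorem TS.lower {V B I : Type*} [Fintype V] [Fintype B] [Fintype I] (T : TS V B)
    (lab : B → Option I) (hodd : ∀ i, Odd {b | lab b = some i}.ncard)
    (hcl : ∀ v i, lab (T.π v) = some i →
      lab (T.π (T.σ v)) = some i ∨ lab (T.π (T.σ v)) = none)
    (S : Finset V) (hS : IsTDS T.graph S) :
    Fintype.card B + Fintype.card I ≤ S.card + {b | lab b = none}.ncard := by
  set A : Finset B := univ.filter (fun b => lab b = none) with hA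
  have hAc : {b | lab b = none}.ncard = A.card := by
    rw [Set.ncard_eq_toFinset_card']
    congr 1; ext b; simp [hA]
  have hCc : ∀ i, {b | lab b = some i}.ncard = (univ.filter (fun b => lab b = some i)).card := by
    intro i
    rw [Set.ncard_eq_toFinset_card']
    congr 1; ext b; simp
  have hclaim : ∀ i, (univ.filter (fun b => lab b = some i)).card + 1 ≤
      (S.filter (fun v => lab (T.π v) = some i)).card +
      (S.filter (fun v => lab (T.π v) = none ∧ lab (T.π (T.σ v)) = some i)).card := by
    intro i
    have h := T.claim (univ.filter (fun b => lab b = some i)) A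
      (by
        rw [disjoint_left]
        intro b hb hb'
        rw [mem_filter] at hb hb'
        rw [hb.2] at hb'
        simp at hb')
      (by rw [← hCc i]; exact hodd i)
      (by
        intro v hv
        rw [mem_filter] at hv
        rcases hcl v i hv.2 with h | h
        · left; rw [mem_filter]; exact ⟨mem_univ _, h⟩
        · right; rw [hA, mem_filter]; exact ⟨mem_univ _, h⟩) S hS
    simpa [hA] using h
  have hB : Fintype.card B = A.card + ∑ i : I, (univ.filter (fun b => lab b = some i)).card := by
    rw [← Finset.card_univ, Finset.card_eq_sum_card_fiberwise (f := lab) (s := univ) (t := univ)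
      (fun _ _ => mem_univ _), Fintype.sum_option]
  have hSs : S.card = (S.filter (fun v => lab (T.π v) = none)).card +
      ∑ i : I, (S.filter (fun v => lab (T.π v) = some i)).card := by
    rw [Finset.card_eq_sum_card_fiberwise (f := fun v => lab (T.π v)) (s := S) (t := univ)
      (fun _ _ => mem_univ _), Fintype.sum_option]
  have hXs : ∑ i : I, (S.filter (fun v => lab (T.π v) = none ∧ lab (T.π (T.σ v)) = some i)).card ≤
      (S.filter (fun v => lab (T.π v) = none)).card := by
    rw [Finset.card_eq_sum_card_fiberwise (f := fun v => lab (T.π (T.σ v)))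
      (s := S.filter (fun v => lab (T.π v) = none)) (t := univ)
      (fun _ _ => mem_univ _), Fintype.sum_option]
    refine le_trans (le_of_eq ?_) (Nat.le_add_left _ _)
    apply sum_congr rfl
    intro i _
    rw [filter_filter]
  have hsum := sum_le_sum (fun i (_ : i ∈ (univ : Finset I)) => hclaim i)
  rw [sum_add_distrib, sum_add_distrib] at hsum
  simp only [sum_const, card_univ, smul_eq_mul, mul_one] at hsum
  rw [hAc]
  omega

end H51.TD
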