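import Pool.Agent.H51.TD1

/-! Upper bound via the Tutte-Berge theorem. -/

namespace H51.TD

open Finset

/-- Leaving lemma: a set of triples not containing the root has a cross edge towards the root. -/
theorem TS.exit {V B : Type*} [Fintype V] (T : TS V B) (hc : T.graph.Connected) (r : V)
    (X : Finset B) (hX : X.Nonempty) (hr : T.π r ∉ X) :
    ∃ v, T.π v ∈ X ∧ T.π (T.σ v) ∉ X ∧ T.graph.dist r (T.σ v) < T.graph.dist r v := by
  classical
  have hne : (univ.filter (fun v => T.π v ∈ X)).Nonempty := by
    rw [← card_pos, T.card_fibs]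
    have := hX.card_pos
    omega
  obtain ⟨v, hv, hmin⟩ := exists_min_image (univ.filter (fun v => T.π v ∈ X))
    (fun v => T.graph.dist r v) hne
  rw [mem_filter] at hv
  have hvr : v ≠ r := by rintro rfl; exact hr hv.2
  obtain ⟨p, hp⟩ := hc.exists_walk_length_eq_dist v r
  cases p with
  | nil => exact absurd rfl hvr
  | @cons _ w _ hvw q =>
    have hlt : T.graph.dist r w < T.graph.dist r v := by
      rw [T.graph.dist_comm (u := r) (v := v), ← hp, SimpleGraph.Walk.length_cons,
        T.graph.dist_comm]
      exact Nat.lt_succ_of_le (SimpleGraph.dist_le q)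
    have hw : T.π w ∉ X := by
      intro hw
      have := hmin w (by rw [mem_filter]; exact ⟨mem_univ _, hw⟩)
      omega
    rw [T.adj_iff] at hvw
    rcases hvw with ⟨_, h⟩ | h
    · exact absurd (h ▸ hv.2) hw
    · subst h
      exact ⟨v, hv.2, hw, hlt⟩

open Classical in
theorem TS.main_count {V B : Type*} [Fintype V] [Fintype B] (T : TS V B)
    (hc : T.graph.Connected) (A : Finset B) (hA : A.Nonempty) (F : Finset (Finset B))
    (hodd : ∀ O ∈ F, O.card = 1 ∨ 3 ≤ O.card)
    (hdisj : ∀ O ∈ F, ∀ O' ∈ F, O ≠ O' → Disjoint O O')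
    (hFA : ∀ O ∈ F, Disjoint O A)
    (hcl : ∀ O ∈ F, ∀ v, T.π v ∈ O → T.π (T.σ v) ∈ O ∨ T.π (T.σ v) ∈ A) :
    6 * F.card ≤ 6 * A.card + Fintype.card B + 2 := by
  have hOne : ∀ O ∈ F, O.Nonempty := by
    intro O hO
    rw [← card_pos]
    rcases hodd O hO with h | h <;> omega
  obtain ⟨a0, ha0⟩ := hA
  have hfib0 : (univ.filter (fun v => T.π v = a0)).Nonempty := by
    rw [← card_pos, T.card_fib]; norm_num
  obtain ⟨r, hr⟩ := hfib0
  rw [mem_filter] at hr
  have hra : T.π r = a0 := hr.2
  -- exits
  have hexO : ∀ O ∈ F, ∃ v, T.π v ∈ O ∧ T.π (T.σ v) ∈ A ∧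
      T.graph.dist r (T.σ v) < T.graph.dist r v := by
    intro O hO
    obtain ⟨v, h1, h2, h3⟩ := T.exit hc r O (hOne O hO)
      (by rw [hra]; intro h; exact disjoint_left.1 (hFA O hO) h ha0)
    exact ⟨v, h1, (hcl O hO v h1).resolve_left h2, h3⟩
  have hexA : ∀ a ∈ A.erase a0, ∃ v, T.π v = a ∧
      T.graph.dist r (T.σ v) < T.graph.dist r v := by
    intro a ha
    obtain ⟨v, h1, h2, h3⟩ := T.exit hc r {a} (singleton_nonempty _)
      (by rw [hra, mem_singleton]; exact (ne_of_mem_erase ha).symm)
    exact ⟨v, by simpa using h1, h3⟩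
  -- first count
  set HA : Finset V := univ.filter (fun v => T.π v ∈ A) with hHA
  have hHAc : HA.card = 3 * A.card := T.card_fibs A
  have hV : Nonempty V := ⟨r⟩
  choose! fO hO1 hO2 hO3 using hexO
  choose! fA hA1 hA2 using hexA
  have hcount1 : F.card + (A.card - 1) ≤ 3 * A.card := by
    have hAc : (A.erase a0).card = A.card - 1 := card_erase_of_mem ha0
    have : (F.disjSum (A.erase a0)).card ≤ HA.card := by
      apply Finset.card_le_card_of_injOn (fun x => Sum.elim (fun O => T.σ (fO O)) fA x)
      · intro x hx
        rw [mem_coe, Finset.mem_disjSum] at hx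
        rcases hx with ⟨O, hO, rfl⟩ | ⟨a, ha, rfl⟩
        · simp only [Sum.elim_inl, hHA, coe_filter, mem_univ, true_and, Set.mem_ofPred_eq]
          exact hO2 O hO
        · simp only [Sum.elim_inr, hHA, coe_filter, mem_univ, true_and, Set.mem_ofPred_eq]
          rw [hA1 a ha]; exact mem_of_mem_erase ha
      · intro x hx y hy hxy
        rw [mem_coe, Finset.mem_disjSum] at hx hy
        rcases hx with ⟨O, hO, rfl⟩ | ⟨a, ha, rfl⟩ <;> rcases hy with ⟨O', hO', rfl⟩ | ⟨a', ha', rfl⟩
        · simp only [Sum.elim_inl] at hxy
          have h := T.σ_inj hxy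
          by_contra hne
          have hne' : O ≠ O' := fun h => hne (by rw [h])
          exact disjoint_left.1 (hdisj O hO O' hO' hne') (hO1 O hO) (h ▸ hO1 O' hO')
        · simp only [Sum.elim_inl, Sum.elim_inr] at hxy
          exfalso
          have h1 := hO3 O hO
          have h2 := hA2 a' ha'
          rw [← hxy, T.inv] at h2
          omega
        · simp only [Sum.elim_inl, Sum.elim_inr] at hxy
          exfalso
          have h1 := hO3 O' hO'
          have h2 := hA2 a ha
          rw [hxy, T.inv] at h2
          omega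
        · simp only [Sum.elim_inr] at hxy
          have h1 := hA1 a ha
          have h2 := hA1 a' ha'
          rw [hxy] at h1
          exact congrArg Sum.inr (h1.symm.trans h2)
    rw [Finset.card_disjSum, hAc, hHAc] at this
    exact this
  -- second count
  have hx : ∀ O ∈ F, 4 ≤ O.card + (HA.filter (fun v => T.π (T.σ v) ∈ O)).card := by
    intro O hO
    rcases hodd O hO with h | h
    · have hle : (univ.filter (fun v => T.π v ∈ O)).card ≤
          (HA.filter (fun v => T.π (T.σ v) ∈ O)).card := by
        apply Finset.card_le_card_of_injOn T.σ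
        · intro v hv
          simp only [coe_filter, mem_univ, true_and, Set.mem_ofPred_eq] at hv
          simp only [hHA, coe_filter, mem_filter, mem_univ, true_and, Set.mem_ofPred_eq, T.inv]
          refine ⟨?_, hv⟩
          rcases hcl O hO v hv with h' | h'
          · exfalso
            obtain ⟨b, rfl⟩ := card_eq_one.1 h
            rw [mem_singleton] at hv h'
            exact T.ne v (h'.trans hv.symm)
          · exact h'
        · intro v _ w _ hvw
          exact T.σ_inj hvw
      rw [T.card_fibs, h] at hle
      omega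
    · have : 0 < (HA.filter (fun v => T.π (T.σ v) ∈ O)).card := by
        rw [card_pos]
        refine ⟨T.σ (fO O), ?_⟩
        rw [mem_filter, hHA, mem_filter, T.inv]
        exact ⟨⟨mem_univ _, hO2 O hO⟩, hO1 O hO⟩
      omega
  have hsumx : ∑ O ∈ F, (HA.filter (fun v => T.π (T.σ v) ∈ O)).card ≤ HA.card := by
    rw [← card_biUnion]
    · apply card_le_card
      intro v hv
      rw [mem_biUnion] at hv
      obtain ⟨O, _, h⟩ := hv
      exact (mem_filter.1 h).1
    · intro O hO O' hO' hne
      refine disjoint_left.2 ?_
      intro v hv hv'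
      rw [mem_filter] at hv hv'
      exact disjoint_left.1 (hdisj O hO O' hO' hne) hv.2 hv'.2
  have hsumc : ∑ O ∈ F, O.card + A.card ≤ Fintype.card B := by
    have h1 : ∑ O ∈ F, O.card = (F.biUnion id).card := by
      rw [card_biUnion]
      · rfl
      · intro O hO O' hO' hne
        exact hdisj O hO O' hO' hne
    rw [h1, ← card_union_of_disjoint]
    · exact card_le_univ _
    · rw [disjoint_left]
      intro b hb hbA
      rw [mem_biUnion] at hb
      obtain ⟨O, hO, hbO⟩ := hb
      exact disjoint_left.1 (hFA O hO) hbO hbA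
  have hsum := sum_le_sum hx
  rw [sum_add_distrib, sum_const, smul_eq_mul] at hsum
  have hApos : 0 < A.card := card_pos.2 ⟨a0, ha0⟩
  omega

/-- A graph on the triples. -/
def TS.H {V B : Type*} (T : TS V B) : SimpleGraph B where
  Adj x y := ∃ v, T.π v = x ∧ T.π (T.σ v) = y
  symm := ⟨by
    rintro x y ⟨v, h1, h2⟩
    exact ⟨T.σ v, h2, by rw [T.inv]; exact h1⟩⟩
  loopless := ⟨by
    rintro x ⟨v, h1, h2⟩
    exact T.ne v (h2.trans h1.symm)⟩

open Classical in
theorem TS.hcond {V B : Type*} [Fintype V] [Fintype B] (T : TS V B)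
    (hc : T.graph.Connected) (hm : Even (Fintype.card B)) (A : Finset B)
    (F : Finset (Finset B)) (hodd : ∀ O ∈ F, Odd O.card)
    (hdisj : ∀ O ∈ F, ∀ O' ∈ F, O ≠ O' → Disjoint O O')
    (hFA : ∀ O ∈ F, Disjoint O A)
    (hcl : ∀ O ∈ F, ∀ v, T.π v ∈ O → T.π (T.σ v) ∈ O ∨ T.π (T.σ v) ∈ A) :
    F.card ≤ A.card + 2 * ((Fintype.card B + 2) / 12) := by
  by_cases hA : A.Nonempty
  · set W : Finset B := F.biUnion id with hW
    have hWc : W.card = ∑ O ∈ F, O.card := by
      rw [hW, card_biUnion]
      · rfl
      · intro O hO O' hO' hne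
        exact hdisj O hO O' hO' hne
    have hWA : Disjoint W A := by
      rw [disjoint_left]
      intro b hb hbA
      rw [hW, mem_biUnion] at hb
      obtain ⟨O, hO, hbO⟩ := hb
      exact disjoint_left.1 (hFA O hO) hbO hbA
    set R : Finset B := (W ∪ A)ᶜ with hR
    have hRc : R.card + W.card + A.card = Fintype.card B := by
      have h1 : R.card + (W ∪ A).card = Fintype.card B := by
        rw [hR]; convert card_compl_add_card (W ∪ A)
      rw [card_union_of_disjoint hWA] at h1
      omega
    have hpar : W.card % 2 = F.card % 2 := by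
      rw [hWc]
      have : ∀ (G : Finset (Finset B)), (∀ O ∈ G, Odd O.card) →
          (∑ O ∈ G, O.card) % 2 = G.card % 2 := by
        intro G
        induction G using Finset.induction_on with
        | empty => simp
        | insert O G hO ih =>
          intro h
          rw [sum_insert hO, card_insert_of_notMem hO]
          have h1 := ih (fun P hP => h P (mem_insert_of_mem hP))
          have h2 := Nat.odd_iff.1 (h O (mem_insert_self _ _))
          omega
      exact this F hodd
    have h13 : ∀ n : ℕ, Odd n → n = 1 ∨ 3 ≤ n := by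
      rintro n ⟨k, rfl⟩; omega
    obtain ⟨k, hk⟩ := hm
    by_cases hRo : Odd R.card
    · have hRF : R ∉ F := by
        intro hRF
        obtain ⟨b, hb⟩ := card_pos.1 hRo.pos
        have : b ∈ W := by
          rw [hW, mem_biUnion]; exact ⟨R, hRF, hb⟩
        rw [hR, mem_compl, mem_union] at hb
        exact hb (Or.inl this)
      have hRdisj : ∀ O ∈ F, Disjoint O R := by
        intro O hO
        rw [disjoint_left]
        intro b hb hbR
        rw [hR, mem_compl, mem_union] at hbR
        exact hbR (Or.inl (by rw [hW, mem_biUnion]; exact ⟨O, hO, hb⟩))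
      have := T.main_count hc A hA (insert R F)
        (by
          intro O hO
          rw [mem_insert] at hO
          rcases hO with rfl | hO
          · exact h13 _ hRo
          · exact h13 _ (hodd O hO))
        (by
          intro O hO O' hO' hne
          rw [mem_insert] at hO hO'
          rcases hO with rfl | hO <;> rcases hO' with rfl | hO'
          · exact absurd rfl hne
          · exact (hRdisj O' hO').symm
          · exact hRdisj O hO
          · exact hdisj O hO O' hO' hne)
        (by
          intro O hO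
          rw [mem_insert] at hO
          rcases hO with rfl | hO
          · rw [disjoint_left]
            intro b hb hbA
            rw [hR, mem_compl, mem_union] at hb
            exact hb (Or.inr hbA)
          · exact hFA O hO)
        (by
          intro O hO
          rw [mem_insert] at hO
          rcases hO with rfl | hO
          · intro v hv
            by_cases h1 : T.π (T.σ v) ∈ A
            · exact Or.inr h1
            · left
              rw [hR, mem_compl, mem_union]
              rintro (h2 | h2)
              · rw [hW, mem_biUnion] at h2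
                obtain ⟨O, hO, h3⟩ := h2
                have h4 := hcl O hO (T.σ v) h3
                rw [T.inv] at h4
                rw [hR, mem_compl, mem_union] at hv
                rcases h4 with h4 | h4
                · exact hv (Or.inl (by rw [hW, mem_biUnion]; exact ⟨O, hO, h4⟩))
                · exact hv (Or.inr h4)
              · exact h1 h2
          · exact hcl O hO)
      rw [card_insert_of_notMem hRF] at this
      have h1 := Nat.odd_iff.1 hRo
      omega
    · have := T.main_count hc A hA F (fun O hO => h13 _ (hodd O hO)) hdisj hFA hcl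
      rw [Nat.not_odd_iff] at hRo
      omega
  · rw [not_nonempty_iff_eq_empty] at hA
    subst hA
    have : F = ∅ := by
      by_contra hF
      obtain ⟨O, hO⟩ := nonempty_iff_ne_empty.2 hF
      obtain ⟨b, hb⟩ := card_pos.1 (hodd O hO).pos
      have hall : ∀ b', b' ∈ O := by
        by_contra hcon
        push Not at hcon
        obtain ⟨b', hb'⟩ := hcon
        have hfib0 : (univ.filter (fun v => T.π v = b')).Nonempty := by
          rw [← card_pos, T.card_fib]; norm_num
        obtain ⟨r, hr⟩ := hfib0
        rw [mem_filter] at hr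
        obtain ⟨v, h1, h2, _⟩ := T.exit hc r O ⟨b, hb⟩ (by rw [hr.2]; exact hb')
        rcases hcl O hO v h1 with h | h
        · exact h2 h
        · simp at h
      have : O = univ := by ext b'; simp [hall b']
      have h1 := hodd O hO
      rw [this, card_univ] at h1
      exact (Nat.not_even_iff_odd.2 h1) hm
    rw [this]; simp

open Classical in
theorem TS.upper {V B : Type*} [Fintype V] [Fintype B] (T : TS V B)
    (hc : T.graph.Connected) (hm : Even (Fintype.card B)) :
    ∃ S : Finset V, IsTDS T.graph S ∧
      S.card ≤ Fintype.card B + 2 * ((Fintype.card B + 2) / 12) := by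
  obtain ⟨U, m, _, hUc, hmU⟩ := H168DD.tutte_berge T.H univ (2 * ((Fintype.card B + 2) / 12))
    (by rw [card_univ]; exact hm.add (even_two_mul _))
    (by
      intro A F _ hodd hdisj hFA hcl
      apply T.hcond hc hm A F hodd hdisj
      · intro O hO
        rw [disjoint_left]
        intro b hb
        have := hFA O hO hb
        rw [mem_sdiff] at this
        exact this.2
      · intro O hO v hv
        exact hcl O hO (T.π v) hv (T.π (T.σ v)) (mem_univ _) ⟨v, rfl, rfl⟩)
  have hmU' : ∀ x, x ∉ U → m x ∉ U ∧ m (m x) = x ∧ T.H.Adj x (m x) := by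
    intro x hx
    have := hmU x (by rw [mem_sdiff]; exact ⟨mem_univ _, hx⟩)
    exact ⟨(mem_sdiff.1 this.1).2, this.2⟩
  -- consistent choice of connecting edges
  have hsym : ∀ e : Sym2 B, ∃ w : V, (∃ x, x ∉ U ∧ e = s(x, m x)) →
      s(T.π w, T.π (T.σ w)) = e := by
    intro e
    by_cases h : ∃ x, x ∉ U ∧ e = s(x, m x)
    · obtain ⟨x, hx, rfl⟩ := h
      obtain ⟨v, h1, h2⟩ := (hmU' x hx).2.2
      exact ⟨v, fun _ => by rw [h1, h2]⟩
    · obtain ⟨v⟩ := hc.nonempty
      exact ⟨v, fun h' => absurd h' h⟩
  choose w hw using hsym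
  have hfib : ∀ b, ∃ p q : V, T.π p = b ∧ T.π q = b ∧ p ≠ q := by
    intro b
    have h3 := T.card_fib b
    have : 1 < (univ.filter (fun v => T.π v = b)).card := by omega
    rw [one_lt_card] at this
    obtain ⟨p, hp, q, hq, hpq⟩ := this
    exact ⟨p, q, by simpa using hp, by simpa using hq, hpq⟩
  choose p q hp hq hpq using hfib
  set g : B → V := fun x => if T.π (w s(x, m x)) = x then w s(x, m x) else T.σ (w s(x, m x))
    with hg
  have hwx : ∀ x, x ∉ U → (T.π (w s(x, m x)) = x ∧ T.π (T.σ (w s(x, m x))) = m x) ∨
      (T.π (w s(x, m x)) = m x ∧ T.π (T.σ (w s(x, m x))) = x) := by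
    intro x hx
    have := hw s(x, m x) ⟨x, hx, rfl⟩
    rw [Sym2.eq_iff] at this
    exact this
  have hgx : ∀ x, x ∉ U → T.π (g x) = x ∧ T.σ (g x) = g (m x) := by
    intro x hx
    obtain ⟨h1, h2, h3⟩ := hmU' x hx
    have hne : x ≠ m x := h3.ne
    have hsy : s(m x, m (m x)) = s(x, m x) := by rw [h2]; exact Sym2.eq_swap
    rcases hwx x hx with ⟨e1, e2⟩ | ⟨e1, e2⟩
    · have hgx : g x = w s(x, m x) := by simp only [hg]; rw [if_pos e1]
      have hgm : g (m x) = T.σ (w s(x, m x)) := by
        simp only [hg]
        rw [hsy, if_neg (by rw [e1]; exact hne)]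
      rw [hgx, hgm]
      exact ⟨e1, rfl⟩
    · have hgx : g x = T.σ (w s(x, m x)) := by
        simp only [hg]; rw [if_neg (by rw [e1]; exact hne.symm)]
      have hgm : g (m x) = w s(x, m x) := by
        simp only [hg]
        rw [hsy, if_pos e1]
      rw [hgx, hgm, T.inv]
      exact ⟨e2, rfl⟩
  refine ⟨((univ \ U).image g) ∪ (U.image p ∪ U.image q), ?_, ?_⟩
  · intro v
    by_cases hv : T.π v ∈ U
    · by_cases h : v = p (T.π v)
      · refine ⟨q (T.π v), ?_, ?_⟩
        · apply mem_union_right; apply mem_union_right; exact mem_image_of_mem _ hv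
        · rw [T.adj_iff]; left
          exact ⟨by intro h'; exact hpq (T.π v) (h.symm.trans h'), (hq _).symm⟩
      · refine ⟨p (T.π v), ?_, ?_⟩
        · apply mem_union_right; apply mem_union_left; exact mem_image_of_mem _ hv
        · rw [T.adj_iff]; left
          exact ⟨h, (hp _).symm⟩
    · obtain ⟨h1, h2, h3⟩ := hmU' (T.π v) hv
      obtain ⟨h4, h5⟩ := hgx (T.π v) hv
      by_cases h : v = g (T.π v)
      · refine ⟨g (m (T.π v)), ?_, ?_⟩
        · apply mem_union_left; apply mem_image_of_mem
          rw [mem_sdiff]; exact ⟨mem_univ _, h1⟩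
        · rw [T.adj_iff]; right
          rw [← h5, ← h]
      · refine ⟨g (T.π v), ?_, ?_⟩
        · apply mem_union_left; apply mem_image_of_mem
          rw [mem_sdiff]; exact ⟨mem_univ _, hv⟩
        · rw [T.adj_iff]; left
          exact ⟨h, h4.symm⟩
  · have h1 := card_union_le ((univ \ U).image g) (U.image p ∪ U.image q)
    have h2 := card_union_le (U.image p) (U.image q)
    have h3 : ((univ \ U).image g).card ≤ (univ \ U).card := card_image_le
    have h4 : (U.image p).card ≤ U.card := card_image_le
    have h5 : (U.image q).card ≤ U.card := card_image_le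
    have h6 : (univ \ U).card + U.card = Fintype.card B := by
      rw [card_sdiff_add_card_eq_card (subset_univ U), card_univ]
    omega

end H51.TD
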