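import Pool.Agent.H51.TD2

/-! The class of graphs and triangle structures. -/

namespace H51.TD

open Finset

theorem closed_univ {V : Type*} {G : SimpleGraph V} (hc : G.Preconnected) (X : V → Prop) (v : V)
    (hv : X v) (hcl : ∀ x y, X x → G.Adj x y → X y) (w : V) : X w := by
  obtain ⟨p⟩ := hc v w
  induction p with
  | nil => exact hv
  | cons h _ ih => exact ih (hcl _ _ hv h)

theorem nbr_eq {V : Type*} [Finite V] {G : SimpleGraph V} {u x y z : V}
    (h3 : (G.neighborSet u).ncard = 3)
    (hxy : x ≠ y) (hxz : x ≠ z) (hyz : y ≠ z) (h1 : G.Adj u x) (h2 : G.Adj u y)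
    (h4 : G.Adj u z) : ∀ w, G.Adj u w → w = x ∨ w = y ∨ w = z := by
  have hs : ({x, y, z} : Set V) ⊆ G.neighborSet u := by
    intro t ht
    rcases ht with rfl | rfl | rfl
    · exact h1
    · exact h2
    · exact h4
  have hc : ({x, y, z} : Set V).ncard = 3 := by
    rw [Set.ncard_eq_three]
    exact ⟨x, y, z, hxy, hxz, hyz, rfl⟩
  have := Set.eq_of_subset_of_ncard_le hs (by rw [h3, hc]) (Set.toFinite _)
  intro w hw
  have hw' : w ∈ G.neighborSet u := hw
  rw [← this] at hw'
  simpa using hw'

theorem k4_card {V : Type*} [Fintype V] {G : SimpleGraph V} (hG : InClass G) {v a b c : V}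
    (hva : G.Adj v a) (hvb : G.Adj v b) (hvc : G.Adj v c) (hab : G.Adj a b) (hac : G.Adj a c)
    (hbc : G.Adj b c) : Fintype.card V = 4 := by
  classical
  have hall : ∀ w, w = v ∨ w = a ∨ w = b ∨ w = c := by
    apply closed_univ hG.conn.preconnected (fun w => w = v ∨ w = a ∨ w = b ∨ w = c) v (Or.inl rfl)
    rintro x y (rfl | rfl | rfl | rfl) hxy
    · have := nbr_eq (hG.cubic x) hab.ne hac.ne hbc.ne hva hvb hvc y hxy
      tauto
    · have := nbr_eq (hG.cubic x) hvb.ne hvc.ne hbc.ne hva.symm hab hac y hxy
      tauto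
    · have := nbr_eq (hG.cubic x) hva.ne hvc.ne hac.ne hvb.symm hab.symm hbc y hxy
      tauto
    · have := nbr_eq (hG.cubic x) hva.ne hvb.ne hab.ne hvc.symm hac.symm hbc.symm y hxy
      tauto
  have : (univ : Finset V) = {v, a, b, c} := by
    ext w; simpa using hall w
  rw [← card_univ, this]
  rw [card_insert_of_notMem, card_insert_of_notMem, card_insert_of_notMem, card_singleton]
  · simpa using hbc.ne
  · simp [hab.ne, hac.ne]
  · simp [hva.ne, hvb.ne, hvc.ne]

theorem loc_aux {V : Type*} [Fintype V] {G : SimpleGraph V} (hG : InClass G)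
    (h4 : Fintype.card V ≠ 4) {v a b c : V} (hva : G.Adj v a) (hvb : G.Adj v b) (hvc : G.Adj v c)
    (hab : G.Adj a b) (hac : a ≠ c) (hbc : b ≠ c) : ¬ G.Adj a c ∧ ¬ G.Adj b c := by
  constructor
  · intro h
    have := hG.diamondFree b c v a hvb.symm hab.symm hvc.symm h.symm hva hbc
    exact h4 (k4_card hG hva hvb hvc hab h this)
  · intro h
    have := hG.diamondFree a c v b hva.symm hab hvc.symm h.symm hvb hac
    exact h4 (k4_card hG hva hvb hvc hab this h)

theorem loc {V : Type*} [Fintype V] {G : SimpleGraph V} (hG : InClass G)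
    (h4 : Fintype.card V ≠ 4) (v : V) : ∃ a b c : V, a ≠ b ∧ a ≠ c ∧ b ≠ c ∧
      (∀ w, G.Adj v w ↔ w = a ∨ w = b ∨ w = c) ∧ G.Adj a b ∧ ¬ G.Adj a c ∧ ¬ G.Adj b c := by
  obtain ⟨x, y, z, hxy, hxz, hyz, h⟩ := Set.ncard_eq_three.1 (hG.cubic v)
  have hadj : ∀ w, G.Adj v w ↔ w = x ∨ w = y ∨ w = z := by
    intro w
    have : w ∈ G.neighborSet v ↔ w ∈ ({x, y, z} : Set V) := by rw [h]
    simpa using this
  have hx := (hadj x).2 (by simp)
  have hy := (hadj y).2 (by simp)
  have hz := (hadj z).2 (by simp)
  rcases hG.clawFree v x y z hx hy hz hxy hxz hyz with h1 | h1 | h1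
  · obtain ⟨h2, h3⟩ := loc_aux hG h4 hx hy hz h1 hxz hyz
    exact ⟨x, y, z, hxy, hxz, hyz, hadj, h1, h2, h3⟩
  · obtain ⟨h2, h3⟩ := loc_aux hG h4 hx hz hy h1 hxy hyz.symm
    exact ⟨x, z, y, hxz, hxy, hyz.symm, fun w => by rw [hadj w]; tauto, h1, h2, h3⟩
  · obtain ⟨h2, h3⟩ := loc_aux hG h4 hy hz hx h1 hxy.symm hxz.symm
    exact ⟨y, z, x, hyz, hxy.symm, hxz.symm, fun w => by rw [hadj w]; tauto, h1, h2, h3⟩

theorem exists_TS {V : Type} [Fintype V] (G : SimpleGraph V) (hG : InClass G)
    (h4 : Fintype.card V ≠ 4) : ∃ (B : Type) (_ : Fintype B) (T : TS V B), T.graph = G := by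
  classical
  choose a b c hab hac hbc hN hadj hnac hnbc using loc hG h4
  have hva : ∀ v, G.Adj v (a v) := fun v => (hN v _).2 (Or.inl rfl)
  have hvb : ∀ v, G.Adj v (b v) := fun v => (hN v _).2 (Or.inr (Or.inl rfl))
  have hvc : ∀ v, G.Adj v (c v) := fun v => (hN v _).2 (Or.inr (Or.inr rfl))
  have hcom : ∀ v w, G.Adj v w → G.Adj w (c v) → False := by
    intro v w h1 h2
    rcases (hN v w).1 h1 with rfl | rfl | rfl
    · exact hnac v h2
    · exact hnbc v h2
    · exact h2.ne rfl
  have hcc : ∀ v, c (c v) = v := by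
    intro v
    rcases (hN (c v) v).1 (hvc v).symm with h | h | h
    · exfalso
      apply hcom v (b (c v))
      · have := hadj (c v)
        rwa [← h] at this
      · exact (hvb (c v)).symm
    · exfalso
      apply hcom v (a (c v))
      · have := hadj (c v)
        rw [← h] at this
        exact this.symm
      · exact (hva (c v)).symm
    · exact h.symm
  let R : V → V → Prop := fun v x => x = v ∨ (G.Adj v x ∧ x ≠ c v)
  have hRs : ∀ {v x}, R v x → R x v := by
    rintro v x (rfl | ⟨h1, h2⟩)
    · exact Or.inl rfl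
    · right
      refine ⟨h1.symm, ?_⟩
      intro h
      apply h2
      rw [h, hcc]
  have hRt : ∀ {v x y}, R v x → R x y → R v y := by
    intro v x y h1 h2
    have h1' := h1
    rcases h1 with rfl | ⟨h1, h1c⟩
    · exact h2
    · rcases h2 with rfl | ⟨h2, h2c⟩
      · exact h1'
      · by_cases hyv : y = v
        · exact Or.inl hyv
        · right
          have hv := (hRs h1').resolve_left (fun h => h1.ne h)
          have e1 := (hN x v).1 hv.1
          have e2 := (hN x y).1 h2
          have e1' : v = a x ∨ v = b x := by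
            rcases e1 with h | h | h
            · exact Or.inl h
            · exact Or.inr h
            · exact absurd h hv.2
          have e2' : y = a x ∨ y = b x := by
            rcases e2 with h | h | h
            · exact Or.inl h
            · exact Or.inr h
            · exact absurd h h2c
          have hvy : G.Adj v y := by
            rcases e1' with h | h <;> rcases e2' with h' | h'
            · exact absurd (h'.trans h.symm) hyv
            · rw [h, h']; exact hadj x
            · rw [h, h']; exact (hadj x).symm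
            · exact absurd (h'.trans h.symm) hyv
          refine ⟨hvy, ?_⟩
          rintro rfl
          exact hcom v x h1 h2
  let s : Setoid V := ⟨R, fun v => Or.inl rfl, hRs, hRt⟩
  have hmk : ∀ v w, (Quotient.mk s v = Quotient.mk s w) ↔ R v w := by
    intro v w
    exact Quotient.eq
  refine ⟨Quotient s, inferInstance, ⟨fun v => Quotient.mk s v, c, ?_, hcc, ?_⟩, ?_⟩
  · intro q
    induction q using Quotient.inductionOn with
    | h v =>
      rw [Set.ncard_eq_three]
      refine ⟨v, a v, b v, (hva v).ne, (hvb v).ne, hab v, ?_⟩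
      ext w
      simp only [Set.mem_ofPred_eq, Set.mem_insert_iff, Set.mem_singleton_iff]
      constructor
      · intro h
        have h' := hRs ((hmk w v).1 h)
        rcases h' with h' | ⟨h1, h2⟩
        · exact Or.inl h'
        · right
          rcases (hN v w).1 h1 with h | h | h
          · exact Or.inl h
          · exact Or.inr h
          · exact absurd h h2
      · intro h
        apply Eq.symm
        apply (hmk v w).2
        rcases h with h | h | h
        · exact Or.inl h
        · right; rw [h]; exact ⟨hva v, hac v⟩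
        · right; rw [h]; exact ⟨hvb v, hbc v⟩
  · intro v h
    rcases (hmk _ _).1 h with h | ⟨_, h⟩
    · exact (hvc v).ne h
    · exact h (hcc v).symm
  · ext v w
    rw [TS.adj_iff]
    constructor
    · rintro (⟨h1, h2⟩ | h)
      · rcases (hmk v w).1 h2 with h | h
        · exact absurd h.symm h1
        · exact h.1
      · change w = c v at h
        rw [h]; exact hvc v
    · intro h
      by_cases hw : w = c v
      · right; exact hw
      · left
        exact ⟨h.ne, (hmk v w).2 (Or.inr ⟨h, hw⟩)⟩

theorem TS.inClass {V B : Type*} [Fintype V] (T : TS V B) (hc : T.graph.Connected) :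
    InClass T.graph := by
  classical
  refine ⟨hc, ?_, ?_, ?_⟩
  · intro v
    have : T.graph.neighborSet v = insert (T.σ v) ({w | T.π w = T.π v} \ {v}) := by
      ext w
      rw [SimpleGraph.mem_neighborSet, T.adj_iff, Set.mem_insert_iff, Set.mem_sdiff,
        Set.mem_singleton_iff, Set.mem_ofPred_eq]
      constructor
      · rintro (⟨h1, h2⟩ | h)
        · exact Or.inr ⟨h2.symm, fun h => h1 h.symm⟩
        · exact Or.inl h
      · rintro (h | ⟨h1, h2⟩)
        · exact Or.inr h
        · exact Or.inl ⟨fun h => h2 h.symm, h1.symm⟩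
    rw [this, Set.ncard_insert_of_notMem, Set.ncard_sdiff_singleton_of_mem, T.fib]
    · rfl
    · intro h
      exact T.ne v h.1
  · intro v a b c ha hb hc' hab hac hbc
    rw [T.adj_iff] at ha hb hc'
    simp only [T.adj_iff]
    rcases ha with ⟨_, ha⟩ | ha
    · rcases hb with ⟨_, hb⟩ | hb
      · left; left; exact ⟨hab, ha.symm.trans hb⟩
      · rcases hc' with ⟨_, hc'⟩ | hc'
        · right; left; left; exact ⟨hac, ha.symm.trans hc'⟩
        · exact absurd (hb.trans hc'.symm) hbc
    · rcases hb with ⟨_, hb⟩ | hb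
      · rcases hc' with ⟨_, hc'⟩ | hc'
        · right; right; left; exact ⟨hbc, hb.symm.trans hc'⟩
        · exact absurd (ha.trans hc'.symm) hac
      · exact absurd (ha.trans hb.symm) hab
  · intro a b c d hac had hbc hbd hcd hab
    have key : ∀ a, T.graph.Adj a c → T.graph.Adj a d → T.π a = T.π c := by
      intro a hac had
      have h1 := hac
      rw [T.adj_iff] at h1
      rcases h1 with ⟨_, h1⟩ | h1
      · exact h1
      · exfalso
        have h2 := had
        rw [T.adj_iff] at h2
        rcases h2 with ⟨_, h2⟩ | h2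
        · have h3 := hcd
          rw [T.adj_iff] at h3
          rcases h3 with ⟨_, h3⟩ | h3
          · apply T.ne a
            rw [← h1, h3, h2]
          · rw [h1, T.inv] at h3
            exact had.ne h3.symm
        · exact hcd.ne (h1.trans h2.symm)
    rw [T.adj_iff]
    left
    exact ⟨hab, (key a hac had).trans (key b hbc hbd).symm⟩

end H51.TD
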