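import Pool.Agent.H51.TD3

/-! Extremal family, built by inserting gadgets into an edge. -/

namespace H51.TD

open Finset

/-- A gadget with two free half edges `α`, `β`. -/
structure Gad (VK BK J : Type) where
  π : VK → BK
  σ : VK → VK
  α : VK
  β : VK
  rank : VK → ℕ
  lab : BK → Option (Option J)
  fib : ∀ b, {v | π v = b}.ncard = 3
  αβ : α ≠ β
  inv : ∀ w, w ≠ α → w ≠ β → σ w ≠ α ∧ σ w ≠ β ∧ σ (σ w) = w
  ne : ∀ w, w ≠ α → w ≠ β → π (σ w) ≠ π w
  conn : ∀ w, w ≠ α → ∃ w', rank w' < rank w ∧
    ((w' ≠ w ∧ π w' = π w) ∨ (w' ≠ α ∧ w' ≠ β ∧ w = σ w'))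
  cl : ∀ w, w ≠ α → w ≠ β → ∀ c, lab (π w) = some c →
    lab (π (σ w)) = some c ∨ lab (π (σ w)) = none
  labβ : ∀ c, lab (π β) = some c → c = none
  labα : ∃ c, lab (π α) = some c
  even : Even {k | lab k = some none}.ncard
  odd : ∀ j, Odd {k | lab k = some (some j)}.ncard

variable {V B I VK BK J : Type}

open Classical in
/-- Insert the gadget into the cross edge `e - σ e`. -/
noncomputable def TS.ins (T : TS V B) (e : V) (K : Gad VK BK J) : TS (V ⊕ VK) (B ⊕ BK) where
  π := Sum.map T.π K.π
  σ := Sum.elim (fun v => if v = e then Sum.inr K.α else if v = T.σ e then Sum.inr K.β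
      else Sum.inl (T.σ v))
    (fun w => if w = K.α then Sum.inl e else if w = K.β then Sum.inl (T.σ e)
      else Sum.inr (K.σ w))
  fib := by
    intro b
    rcases b with b | b
    · rw [← T.fib b]
      have : {v : V ⊕ VK | Sum.map T.π K.π v = Sum.inl b} = Sum.inl '' {v | T.π v = b} := by
        ext x
        rcases x with x | x <;> simp
      rw [this, Set.ncard_image_of_injective _ Sum.inl_injective]
    · rw [← K.fib b]
      have : {v : V ⊕ VK | Sum.map T.π K.π v = Sum.inr b} = Sum.inr '' {v | K.π v = b} := by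
        ext x
        rcases x with x | x <;> simp
      rw [this, Set.ncard_image_of_injective _ Sum.inr_injective]
  inv := by
    have hee : T.σ e ≠ e := fun h => T.ne e (congrArg T.π h)
    rintro (v | w)
    · simp only [Sum.elim_inl]
      by_cases h1 : v = e
      · rw [if_pos h1]; simp [h1]
      · rw [if_neg h1]
        by_cases h2 : v = T.σ e
        · rw [if_pos h2]; simp [h2, K.αβ.symm]
        · rw [if_neg h2]
          simp only [Sum.elim_inl]
          rw [if_neg (fun h => h2 (by rw [← h, T.inv])), if_neg (fun h => h1 (T.σ_inj h)), T.inv]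
    · simp only [Sum.elim_inr]
      by_cases h1 : w = K.α
      · rw [if_pos h1]; simp [h1]
      · rw [if_neg h1]
        by_cases h2 : w = K.β
        · rw [if_pos h2]; simp [h2, hee]
        · rw [if_neg h2]
          obtain ⟨h3, h4, h5⟩ := K.inv w h1 h2
          simp only [Sum.elim_inr]
          rw [if_neg h3, if_neg h4, h5]
  ne := by
    rintro (v | w)
    · simp only [Sum.elim_inl]
      by_cases h1 : v = e
      · rw [if_pos h1]; simp
      · rw [if_neg h1]
        by_cases h2 : v = T.σ e
        · rw [if_pos h2]; simp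
        · rw [if_neg h2]; simpa using T.ne v
    · simp only [Sum.elim_inr]
      by_cases h1 : w = K.α
      · rw [if_pos h1]; simp
      · rw [if_neg h1]
        by_cases h2 : w = K.β
        · rw [if_pos h2]; simp
        · rw [if_neg h2]; simpa using K.ne w h1 h2

theorem TS.ins_e (T : TS V B) (e : V) (K : Gad VK BK J) :
    (T.ins e K).σ (Sum.inl e) = Sum.inr K.α := by
  simp [TS.ins]

theorem TS.ins_σe (T : TS V B) (e : V) (K : Gad VK BK J) :
    (T.ins e K).σ (Sum.inl (T.σ e)) = Sum.inr K.β := by
  have hee : T.σ e ≠ e := fun h => T.ne e (congrArg T.π h)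
  simp [TS.ins, hee]

theorem TS.ins_inl (T : TS V B) (e : V) (K : Gad VK BK J) {v : V} (h1 : v ≠ e)
    (h2 : v ≠ T.σ e) : (T.ins e K).σ (Sum.inl v) = Sum.inl (T.σ v) := by
  simp [TS.ins, h1, h2]

theorem TS.ins_α (T : TS V B) (e : V) (K : Gad VK BK J) :
    (T.ins e K).σ (Sum.inr K.α) = Sum.inl e := by
  simp [TS.ins]

theorem TS.ins_β (T : TS V B) (e : V) (K : Gad VK BK J) :
    (T.ins e K).σ (Sum.inr K.β) = Sum.inl (T.σ e) := by
  simp [TS.ins, K.αβ.symm]

theorem TS.ins_inr (T : TS V B) (e : V) (K : Gad VK BK J) {w : VK} (h1 : w ≠ K.α)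
    (h2 : w ≠ K.β) : (T.ins e K).σ (Sum.inr w) = Sum.inr (K.σ w) := by
  simp [TS.ins, h1, h2]

theorem TS.ins_conn (T : TS V B) (hc : T.graph.Connected) (e : V) (K : Gad VK BK J) :
    (T.ins e K).graph.Connected := by
  set G := (T.ins e K).graph with hG
  have hK : ∀ n, ∀ w, K.rank w = n → G.Reachable (Sum.inr K.α) (Sum.inr w) := by
    intro n
    induction n using Nat.strong_induction_on with
    | _ n ih =>
      intro w hw
      by_cases h : w = K.α
      · rw [h]
      · obtain ⟨w', h1, h2⟩ := K.conn w h
        refine (ih _ (hw ▸ h1) w' rfl).trans (SimpleGraph.Adj.reachable ?_)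
        rw [hG, TS.adj_iff]
        rcases h2 with ⟨h2, h3⟩ | ⟨h2, h3, h4⟩
        · left
          exact ⟨fun h => h2 (Sum.inr_injective h), by simp [TS.ins, h3]⟩
        · right
          rw [T.ins_inr e K h2 h3, h4]
  have hV : ∀ v, G.Reachable (Sum.inr K.α) (Sum.inl v) := by
    apply closed_univ hc.preconnected (fun v => G.Reachable (Sum.inr K.α) (Sum.inl v)) e
    · apply SimpleGraph.Adj.reachable
      rw [hG, TS.adj_iff, T.ins_α]
      exact Or.inr rfl
    · intro x y hx hxy
      rw [T.adj_iff] at hxy
      rcases hxy with ⟨h1, h2⟩ | h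
      · refine hx.trans (SimpleGraph.Adj.reachable ?_)
        rw [hG, TS.adj_iff]
        left
        exact ⟨fun h => h1 (Sum.inl_injective h), by simp [TS.ins, h2]⟩
      · by_cases hxe : x = e
        · refine (hK _ K.β rfl).trans (SimpleGraph.Adj.reachable ?_)
          rw [hG, TS.adj_iff, T.ins_β, h, hxe]
          exact Or.inr rfl
        · by_cases hxe' : x = T.σ e
          · have hy : y = e := by rw [h, hxe', T.inv]
            rw [hy]
            apply SimpleGraph.Adj.reachable
            rw [hG, TS.adj_iff, T.ins_α]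
            exact Or.inr rfl
          · refine hx.trans (SimpleGraph.Adj.reachable ?_)
            rw [hG, TS.adj_iff, T.ins_inl e K hxe hxe', h]
            exact Or.inr rfl
  have : Nonempty (V ⊕ VK) := ⟨Sum.inl e⟩
  have : ∀ x, G.Reachable (Sum.inr K.α) x := by
    rintro (x | x)
    · exact hV x
    · exact hK _ x rfl
  exact ⟨fun x y => (this x).symm.trans (this y)⟩

theorem ncard_sum [Finite B] [Finite BK] (p : B ⊕ BK → Prop) :
    {x | p x}.ncard = {b | p (Sum.inl b)}.ncard + {k | p (Sum.inr k)}.ncard := by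
  have h : {x | p x} = Sum.inl '' {b | p (Sum.inl b)} ∪ Sum.inr '' {k | p (Sum.inr k)} := by
    ext x
    rcases x with x | x <;> simp
  rw [h, Set.ncard_union_eq, Set.ncard_image_of_injective _ Sum.inl_injective,
    Set.ncard_image_of_injective _ Sum.inr_injective]
  rw [Set.disjoint_left]
  rintro x ⟨b, _, rfl⟩ ⟨k, _, hk⟩
  cases hk

/-- Existence of a structure on `m` triples with a barrier of excess `l`. -/
def P (m l : ℕ) : Prop := ∃ (V B I : Type) (_ : Fintype V) (_ : Fintype B) (_ : Fintype I)
  (T : TS V B) (lab : B → Option I) (e : V) (i0 : I),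
  Fintype.card B = m ∧ T.graph.Connected ∧ Fintype.card I = {b | lab b = none}.ncard + l ∧
  (∀ i, Odd {b | lab b = some i}.ncard) ∧
  (∀ v i, lab (T.π v) = some i →
      lab (T.π (T.σ v)) = some i ∨ lab (T.π (T.σ v)) = none) ∧
  lab (T.π e) = none ∧ lab (T.π (T.σ e)) = some i0

theorem P_ins {m l : ℕ} (h : P m l) [Fintype VK] [Fintype BK] [Fintype J]
    (K : Gad VK BK J) (k lK : ℕ) (hk : Fintype.card BK = k)
    (hl : Fintype.card J = {b | K.lab b = none}.ncard + lK) : P (m + k) (l + lK) := by
  classical
  obtain ⟨V, B, I, _, _, _, T, lab, e, i0, hm, hc, hI, hodd, hcl, he, he'⟩ := h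
  let κ : Option (Option J) → Option (I ⊕ J) := fun o =>
    match o with
    | none => none
    | some none => some (Sum.inl i0)
    | some (some j) => some (Sum.inr j)
  have hκn : ∀ o, κ o = none ↔ o = none := by
    intro o; rcases o with _ | (_ | j) <;> simp [κ]
  have hκi : ∀ o i, κ o = some (Sum.inl i) ↔ (o = some none ∧ i = i0) := by
    intro o i; rcases o with _ | (_ | j) <;> simp [κ, eq_comm]
  have hκj : ∀ o j, κ o = some (Sum.inr j) ↔ o = some (some j) := by
    intro o j; rcases o with _ | (_ | j') <;> simp [κ]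
  let ι : Option I → Option (I ⊕ J) := fun o => o.map Sum.inl
  have hιn : ∀ o, ι o = none ↔ o = none := by
    intro o; rcases o with _ | o <;> simp [ι]
  have hιi : ∀ o i, ι o = some (Sum.inl i) ↔ o = some i := by
    intro o i; rcases o with _ | o <;> simp [ι]
  have hιj : ∀ o j, ι o ≠ some (Sum.inr j) := by
    intro o j; rcases o with _ | o <;> simp [ι]
  let lab' : B ⊕ BK → Option (I ⊕ J) := Sum.elim (fun b => ι (lab b)) (fun b => κ (K.lab b))
  obtain ⟨cα, hcα⟩ := K.labα
  obtain ⟨iα, hiα⟩ : ∃ c, κ (K.lab (K.π K.α)) = some c := by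
    rw [hcα]; rcases cα with _ | j
    · exact ⟨_, rfl⟩
    · exact ⟨_, rfl⟩
  refine ⟨V ⊕ VK, B ⊕ BK, I ⊕ J, inferInstance, inferInstance, inferInstance, T.ins e K, lab',
    Sum.inl e, iα, ?_, T.ins_conn hc e K, ?_, ?_, ?_, ?_, ?_⟩
  · rw [Fintype.card_sum, hm, hk]
  · rw [ncard_sum, Fintype.card_sum, hI, hl]
    simp only [lab', Sum.elim_inl, Sum.elim_inr, hκn, hιn]
    omega
  · rintro (i | j)
    · rw [ncard_sum]
      simp only [lab', Sum.elim_inl, Sum.elim_inr, hκi, hιi]
      apply Odd.add_even (hodd i)
      by_cases hi : i = i0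
      · simp only [hi, and_true]
        exact K.even
      · simp [hi]
    · rw [ncard_sum]
      simp only [lab', Sum.elim_inl, Sum.elim_inr, hκj, hιj]
      simpa using K.odd j
  · rintro (v | w) c hcv
    · have hcv' : ι (lab (T.π v)) = some c := hcv
      rcases c with i | j
      · rw [hιi] at hcv'
        by_cases h1 : v = e
        · rw [h1, he] at hcv'; cases hcv'
        · by_cases h2 : v = T.σ e
          · rw [h2, T.ins_σe]
            change κ (K.lab (K.π K.β)) = _ ∨ κ (K.lab (K.π K.β)) = _
            have hii : i = i0 := by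
              rw [h2, he'] at hcv'
              exact (Option.some_injective _ hcv').symm
            rcases hb : K.lab (K.π K.β) with _ | c
            · right; rfl
            · left
              rw [K.labβ c hb]
              exact (hκi _ _).2 ⟨rfl, hii⟩
          · rw [T.ins_inl e K h1 h2]
            change ι (lab (T.π (T.σ v))) = _ ∨ ι (lab (T.π (T.σ v))) = _
            rw [hιi, hιn]
            exact hcl v i hcv'
      · exact absurd hcv' (hιj _ _)
    · have hcv' : κ (K.lab (K.π w)) = some c := hcv
      by_cases h1 : w = K.α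
      · rw [h1, T.ins_α]
        right
        change ι (lab (T.π e)) = none
        rw [he]; rfl
      · by_cases h2 : w = K.β
        · rw [h2, T.ins_β]
          left
          change ι (lab (T.π (T.σ e))) = some c
          rw [h2] at hcv'
          rcases hb : K.lab (K.π K.β) with _ | c'
          · rw [hb] at hcv'; cases hcv'
          · have := K.labβ c' hb
            rw [hb, this] at hcv'
            rw [← hcv', he']
            rfl
        · rw [T.ins_inr e K h1 h2]
          change κ (K.lab (K.π (K.σ w))) = _ ∨ κ (K.lab (K.π (K.σ w))) = _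
          rcases hw : K.lab (K.π w) with _ | c'
          · rw [hw] at hcv'; cases hcv'
          · rw [hw] at hcv'
            rcases K.cl w h1 h2 c' hw with h | h
            · left; rw [h]; exact hcv'
            · right; rw [h]
  · change ι (lab (T.π e)) = none
    rw [he]; rfl
  · rw [T.ins_e]; exact hiα

end H51.TD
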