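import Pool.Agent.H51.TD4

/-! Concrete gadgets and base structures. -/

namespace H51.TD

open Finset

theorem ncard_dec {α : Type*} [Fintype α] (p : α → Prop) [DecidablePred p] :
    {x | p x}.ncard = (univ.filter p).card := by
  rw [Set.ncard_eq_toFinset_card']
  congr 1
  ext x; simp

def tab2 : List ℕ := [0, 4, 5, 3, 1, 2]

def tab12 : List ℕ := [0, 3, 6, 1, 9, 18, 2, 27, 8,
  4, 12, 15, 10, 16, 17, 11, 13, 14,
  5, 21, 24, 19, 25, 26, 20, 22, 23,
  7, 30, 33, 28, 34, 35, 29, 31, 32]

def tab10 : List ℕ := [3, 12, 21,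
  0, 6, 9, 4, 10, 11, 5, 7, 8,
  1, 15, 18, 13, 19, 20, 14, 16, 17,
  2, 24, 27, 22, 28, 29, 23, 25, 26]

def div3 (k : ℕ) [NeZero k] (v : Fin (3 * k)) : Fin k := Fin.ofNat k (v.val / 3)

def σ2 (v : Fin (3 * 2)) : Fin (3 * 2) := Fin.ofNat _ (tab2.getD v.val 0)
def σ12 (v : Fin (3 * 12)) : Fin (3 * 12) := Fin.ofNat _ (tab12.getD v.val 0)
def σ10 (v : Fin (3 * 10)) : Fin (3 * 10) := Fin.ofNat _ (tab10.getD v.val 0)

def lab12 : List (Option (Option (Fin 4))) :=
  [some (some 0), none, none, some (some 1), some (some 1), some (some 1),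
   some (some 2), some (some 2), some (some 2), some (some 3), some (some 3), some (some 3)]

def lab10 : List (Option (Fin 3)) :=
  [none, some 0, some 0, some 0, some 1, some 1, some 1, some 2, some 2, some 2]

def l12 (b : Fin 12) : Option (Option (Fin 4)) := lab12.getD b.val none
def l10 (b : Fin 10) : Option (Fin 3) := lab10.getD b.val none
def l2 (_ : Fin 2) : Option (Option (Fin 0)) := some none

noncomputable def K2 : Gad (Fin (3 * 2)) (Fin 2) (Fin 0) where
  π := div3 2
  σ := σ2
  α := 0
  β := 3
  rank := fun v => if v = 3 then 10 else v.val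
  lab := l2
  fib := by
    intro b; rw [ncard_dec]; revert b; decide +kernel
  αβ := by decide +kernel
  inv := by decide +kernel
  ne := by decide +kernel
  conn := by decide +kernel
  cl := by
    intro w _ _ c hc
    left; exact hc
  labβ := by
    intro c hc
    exact (Option.some_injective _ hc).symm
  labα := ⟨none, rfl⟩
  even := by
    rw [ncard_dec]; decide +kernel
  odd := fun j => j.elim0

noncomputable def K12 : Gad (Fin (3 * 12)) (Fin 12) (Fin 4) where
  π := div3 12
  σ := σ12
  α := 0
  β := 8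
  rank := fun v => v.val
  lab := l12
  fib := by
    intro b; rw [ncard_dec]; revert b; decide +kernel
  αβ := by decide +kernel
  inv := by decide +kernel
  ne := by decide +kernel
  conn := by decide +kernel
  cl := by decide +kernel
  labβ := by decide +kernel
  labα := ⟨some 0, rfl⟩
  even := by
    rw [ncard_dec]; decide +kernel
  odd := by
    intro b; rw [ncard_dec]; revert b; decide +kernel

theorem conn_of_rank {V : Type*} (G : SimpleGraph V) (r : V) (rank : V → ℕ)
    (h : ∀ w, w ≠ r → ∃ w', rank w' < rank w ∧ G.Adj w' w) : G.Connected := by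
  have hK : ∀ n, ∀ w, rank w = n → G.Reachable r w := by
    intro n
    induction n using Nat.strong_induction_on with
    | _ n ih =>
      intro w hw
      by_cases hr : w = r
      · rw [hr]
      · obtain ⟨w', h1, h2⟩ := h w hr
        exact (ih _ (hw ▸ h1) w' rfl).trans h2.reachable
  have : Nonempty V := ⟨r⟩
  exact ⟨fun x y => (hK _ x rfl).symm.trans (hK _ y rfl)⟩

noncomputable def T10 : TS (Fin (3 * 10)) (Fin 10) where
  π := div3 10
  σ := σ10
  fib := by
    intro b; rw [ncard_dec]; revert b; decide +kernel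
  inv := by decide +kernel
  ne := by decide +kernel

def σ20 (v : Fin (3 * 2)) : Fin (3 * 2) := Fin.ofNat _ (v.val + 3)

noncomputable def T2 : TS (Fin (3 * 2)) (Fin 2) where
  π := div3 2
  σ := σ20
  fib := by
    intro b; rw [ncard_dec]; revert b; decide +kernel
  inv := by decide +kernel
  ne := by decide +kernel

def l20 (b : Fin 2) : Option (Fin 1) := if b = 0 then none else some 0

theorem P_10 : P 10 2 := by
  refine ⟨Fin (3 * 10), Fin 10, Fin 3, inferInstance, inferInstance, inferInstance, T10, l10,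
    0, 0, by simp, ?_, ?_, ?_, ?_, ?_, ?_⟩
  · apply conn_of_rank _ 0 (fun v => v.val)
    have h : ∀ w : Fin (3 * 10), w ≠ 0 → ∃ w' : Fin (3 * 10), w'.val < w.val ∧
        ((w' ≠ w ∧ div3 10 w' = div3 10 w) ∨ w = σ10 w') := by decide +kernel
    exact h
  · rw [ncard_dec]; decide +kernel
  · intro i; rw [ncard_dec]; revert i; decide +kernel
  · have h : ∀ (v : Fin (3 * 10)) (i : Fin 3), l10 (div3 10 v) = some i →
        l10 (div3 10 (σ10 v)) = some i ∨ l10 (div3 10 (σ10 v)) = none := by decide +kernel
    exact h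
  · rfl
  · rfl

theorem P_2 : P 2 0 := by
  refine ⟨Fin (3 * 2), Fin 2, Fin 1, inferInstance, inferInstance, inferInstance, T2, l20,
    0, 0, by simp, ?_, ?_, ?_, ?_, ?_, ?_⟩
  · apply conn_of_rank _ 0 (fun v => v.val)
    have h : ∀ w : Fin (3 * 2), w ≠ 0 → ∃ w' : Fin (3 * 2), w'.val < w.val ∧
        ((w' ≠ w ∧ div3 2 w' = div3 2 w) ∨ w = σ20 w') := by decide +kernel
    exact h
  · rw [ncard_dec]; decide +kernel
  · intro i; rw [ncard_dec]; revert i; decide +kernel
  · have h : ∀ (v : Fin (3 * 2)) (i : Fin 1), l20 (div3 2 v) = some i →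
        l20 (div3 2 (σ20 v)) = some i ∨ l20 (div3 2 (σ20 v)) = none := by decide +kernel
    exact h
  · rfl
  · rfl

theorem P_step2 {m l : ℕ} (h : P m l) : P (m + 2) l :=
  P_ins h K2 2 0 (by simp) (by
    rw [ncard_dec]
    decide +kernel)

theorem P_step12 {m l : ℕ} (h : P m l) : P (m + 12) (l + 2) :=
  P_ins h K12 12 2 (by simp) (by
    have : {b | K12.lab b = none}.ncard = 2 := by
      rw [show K12.lab = l12 from rfl, ncard_dec]
      decide +kernel
    rw [this]; rfl)

theorem P_all (m : ℕ) (hm : Even m) (h2 : 2 ≤ m) : P m (2 * ((m + 2) / 12)) := by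
  induction m using Nat.strong_induction_on with
  | _ m ih =>
    obtain ⟨k, hk⟩ := hm
    by_cases h1 : m = 2
    · subst h1; exact P_2
    by_cases h10 : m = 10
    · subst h10; exact P_10
    by_cases h22 : 22 ≤ m
    · have := P_step12 (ih (m - 12) (by omega) ⟨k - 6, by omega⟩ (by omega))
      have e1 : m - 12 + 12 = m := by omega
      have e2 : 2 * ((m - 12 + 2) / 12) + 2 = 2 * ((m + 2) / 12) := by omega
      rwa [e1, e2] at this
    · have := P_step2 (ih (m - 2) (by omega) ⟨k - 1, by omega⟩ (by omega))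
      have e1 : m - 2 + 2 = m := by omega
      have e2 : 2 * (m / 12) = 2 * ((m + 2) / 12) := by
        omega
      rwa [e1, e2] at this

theorem family (m : ℕ) (hm : Even m) (h2 : 2 ≤ m) : ∃ G : SimpleGraph (Fin (3 * m)),
    InClass G ∧ ∀ S, IsTDS G S → m + 2 * ((m + 2) / 12) ≤ S.card := by
  obtain ⟨V, B, I, _, _, _, T, lab, e, i0, hc, hcon, hI, hodd, hcl, _, _⟩ := P_all m hm h2
  have hV : Fintype.card V = 3 * m := by rw [T.card_V, hc]
  let f : V ≃ Fin (3 * m) := Fintype.equivFinOfCardEq hV
  let T' : TS (Fin (3 * m)) B := {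
    π := fun v => T.π (f.symm v)
    σ := fun v => f (T.σ (f.symm v))
    fib := by
      intro b
      have : {v | T.π (f.symm v) = b} = f '' {v | T.π v = b} := by
        ext x
        constructor
        · intro hx; exact ⟨f.symm x, hx, by simp⟩
        · rintro ⟨y, hy, rfl⟩; simpa using hy
      rw [this, Set.ncard_image_of_injective _ f.injective]
      exact T.fib b
    inv := by intro v; simp [T.inv]
    ne := by intro v; simpa using T.ne _ }
  have iso : T.graph ≃g T'.graph := {
    f with
    map_rel_iff' := by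
      intro a b
      change T'.graph.Adj (f a) (f b) ↔ T.graph.Adj a b
      rw [T'.adj_iff, T.adj_iff]
      simp [T'] }
  have hcon' : T'.graph.Connected := iso.connected_iff.1 hcon
  refine ⟨T'.graph, T'.inClass hcon', ?_⟩
  intro S hS
  have := T'.lower lab hodd (by
    intro v i hv
    have := hcl (f.symm v) i hv
    simpa [T'] using this) S hS
  omega

end H51.TD
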